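import Mathlib
import Pool.Agent.H857R2.NC.Stm

set_option autoImplicit false

namespace H857NC

open Filter Topology Set

universe u

theorem ATT_norming {X : Type u} [NormedAddCommGroup X] [NormedSpace ℝ X]
    (N : Seminorm ℝ X) (hN : Continuous N) (z : X) (hz : z ≠ 0) :
    ∃ g : StrongDual ℝ X, g z = N z ∧ ∀ v, |g v| ≤ N v := by
  let f : Module.Dual ℝ (Submodule.span ℝ ({z} : Set X)) := (N z) • (LinearEquiv.coord ℝ X z hz)
  have hf : ∀ v, f v ≤ N v := by
    intro v
    have h1 : (LinearEquiv.coord ℝ X z hz v) • z = (v : X) := LinearEquiv.coord_apply_smul ℝ X z hz v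
    have h2 : N (v : X) = |LinearEquiv.coord ℝ X z hz v| * N z := by
      rw [← h1, map_smul_eq_mul, Real.norm_eq_abs]
    have h3 : f v = N z * LinearEquiv.coord ℝ X z hz v := rfl
    rw [h2, h3, mul_comm]
    exact mul_le_mul_of_nonneg_right (le_abs_self _) (apply_nonneg N z)
  obtain ⟨g, hg, hg2⟩ := Module.Dual.exists_continuous_extension_of_le_seminorm_real
    (Submodule.span ℝ ({z} : Set X)) f hN hf
  refine ⟨g, ?_, hg2⟩
  have h4 := hg ⟨z, Submodule.mem_span_singleton_self z⟩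
  have h5 : f ⟨z, Submodule.mem_span_singleton_self z⟩ = N z := by
    have : f ⟨z, Submodule.mem_span_singleton_self z⟩ =
      N z * LinearEquiv.coord ℝ X z hz ⟨z, Submodule.mem_span_singleton_self z⟩ := rfl
    rw [this, LinearEquiv.coord_self, mul_one]
  rw [h5] at h4
  exact h4

theorem ATT : ATT_stm.{u} := by
  intro X _ _ N hN E hsurj x
  obtain ⟨b, hb0, hb⟩ := hN.upper
  obtain ⟨a, ha0, ha⟩ := hN.lower
  have hNc : Continuous N := by
    apply Seminorm.continuous_of_le (q := b.toNNReal • normSeminorm ℝ X)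
    · exact (continuous_norm.const_smul b.toNNReal)
    · intro y
      have : (b.toNNReal • normSeminorm ℝ X) y = b * ‖y‖ := by
        rw [Seminorm.smul_apply, coe_normSeminorm, NNReal.smul_def, Real.coe_toNNReal b hb0.le,
          smul_eq_mul]
      rw [this]
      exact hb y
  -- the infimum
  have hbdd : BddBelow (Set.range fun e : E => N (x - (e : X))) :=
    ⟨0, by rintro _ ⟨e, rfl⟩; exact apply_nonneg N _⟩
  obtain ⟨d, hd⟩ : ∃ d, d = ⨅ e : E, N (x - (e : X)) := ⟨_, rfl⟩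
  have hdle : ∀ e : E, d ≤ N (x - (e : X)) := by
    intro e
    rw [hd]
    exact ciInf_le hbdd e
  have hex : ∀ n : ℕ, ∃ e : E, N (x - (e : X)) < d + 1 / ((n : ℝ) + 1) := by
    intro n
    have hpos : (0 : ℝ) < 1 / ((n : ℝ) + 1) := by positivity
    have : (⨅ e : E, N (x - (e : X))) < d + 1 / ((n : ℝ) + 1) := by
      rw [← hd]
      linarith
    exact exists_lt_of_ciInf_lt this
  choose e he using hex
  -- boundedness
  obtain ⟨R, hR⟩ : ∃ R : ℝ, ∀ n, ‖e n‖ ≤ R := by
    refine ⟨(N x + d + 1) / a, fun n => ?_⟩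
    rw [le_div_iff₀ ha0]
    have h1 : N ((e n : X)) ≤ N x + N (x - (e n : X)) := by
      have h2 : (e n : X) = x - (x - (e n : X)) := by abel
      calc N ((e n : X)) = N (x - (x - (e n : X))) := by rw [← h2]
        _ ≤ N x + N (x - (e n : X)) := map_sub_le_add N _ _
    have h3 : 1 / ((n : ℝ) + 1) ≤ 1 := by
      rw [div_le_one (by positivity)]
      have : (0 : ℝ) ≤ n := Nat.cast_nonneg n
      linarith
    have h4 := ha (e n : X)
    have h5 := he n
    have h6 : ‖(e n : X)‖ = ‖e n‖ := rfl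
    rw [h6] at h4
    linarith
  have hR0 : 0 ≤ R := le_trans (norm_nonneg _) (hR 0)
  -- the ultrafilter limit
  let U : Ultrafilter ℕ := Filter.hyperfilter ℕ
  have hlim : ∀ φ : StrongDual ℝ E, ∃ L : ℝ, Tendsto (fun n => φ (e n)) U (𝓝 L) := by
    intro φ
    have hcomp : IsCompact (Set.Icc (-(‖φ‖ * R)) (‖φ‖ * R)) := isCompact_Icc
    obtain ⟨L, _, hL⟩ := hcomp.ultrafilter_le_nhds (U.map fun n => φ (e n)) (by
      rw [le_principal_iff]
      apply Filter.mem_map.2
      apply Filter.univ_mem'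
      intro n
      have h1 : |φ (e n)| ≤ ‖φ‖ * R :=
        (φ.le_opNorm (e n)).trans (mul_le_mul_of_nonneg_left (hR n) (norm_nonneg _))
      exact abs_le.1 h1)
    exact ⟨L, hL⟩
  choose ζ hζ using hlim
  have hζadd : ∀ φ ψ, ζ (φ + ψ) = ζ φ + ζ ψ := fun φ ψ =>
    tendsto_nhds_unique (hζ (φ + ψ)) ((hζ φ).add (hζ ψ))
  have hζsmul : ∀ (c : ℝ) φ, ζ (c • φ) = c * ζ φ := fun c φ =>
    tendsto_nhds_unique (hζ (c • φ)) ((hζ φ).const_mul c)
  have hζb : ∀ φ, ‖ζ φ‖ ≤ R * ‖φ‖ := by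
    intro φ
    have h1 : Tendsto (fun n => ‖φ (e n)‖) U (𝓝 ‖ζ φ‖) := (hζ φ).norm
    refine le_of_tendsto h1 (Filter.Eventually.of_forall fun n => ?_)
    rw [mul_comm]
    exact (φ.le_opNorm (e n)).trans (mul_le_mul_of_nonneg_left (hR n) (norm_nonneg _))
  let Z : StrongDual ℝ (StrongDual ℝ E) :=
    LinearMap.mkContinuous
      { toFun := ζ
        map_add' := hζadd
        map_smul' := fun c φ => by rw [hζsmul c φ]; rfl } R hζb
  obtain ⟨e0, he0⟩ := hsurj Z
  have he0' : ∀ φ : StrongDual ℝ E, φ e0 = ζ φ := by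
    intro φ
    have h1 : NormedSpace.inclusionInDoubleDual ℝ E e0 φ = Z φ := by rw [he0]
    exact h1
  refine ⟨e0, e0.2, ?_⟩
  intro e' he'
  by_cases hz : x - (e0 : X) = 0
  · rw [hz, map_zero]
    exact apply_nonneg N _
  obtain ⟨g, hg1, hg2⟩ := ATT_norming N hNc (x - (e0 : X)) hz
  have h1 : Tendsto (fun n => g x - (g.comp E.subtypeL) (e n)) U
      (𝓝 (g x - (g.comp E.subtypeL) e0)) := by
    rw [he0' (g.comp E.subtypeL)]
    exact (hζ (g.comp E.subtypeL)).const_sub (g x)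
  have h2 : g x - (g.comp E.subtypeL) e0 = N (x - (e0 : X)) := by
    rw [← hg1, map_sub]
    rfl
  rw [h2] at h1
  have h3 : Tendsto (fun n : ℕ => d + 1 / ((n : ℝ) + 1)) U (𝓝 d) := by
    have h4 : Tendsto (fun n : ℕ => d + 1 / ((n : ℝ) + 1)) atTop (𝓝 (d + 0)) :=
      tendsto_one_div_add_atTop_nhds_zero_nat.const_add d
    rw [add_zero] at h4
    have h5 : (U : Filter ℕ) ≤ atTop := by
      rw [← Nat.cofinite_eq_atTop]
      exact Filter.hyperfilter_le_cofinite
    exact h4.mono_left h5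
  have h6 : N (x - (e0 : X)) ≤ d := by
    refine le_of_tendsto_of_tendsto' h1 h3 fun n => ?_
    have h7 : g x - (g.comp E.subtypeL) (e n) = g (x - (e n : X)) := by
      rw [map_sub]
      rfl
    rw [h7]
    exact ((le_abs_self _).trans (hg2 _)).trans (he n).le
  exact h6.trans (hdle ⟨e', he'⟩)

end H857NC
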