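import Mathlib
import Pool.Agent.H857R2.NC.Stm

set_option autoImplicit false

namespace H857NC

open Filter Topology Set

universe u

namespace TOTaux

variable {X : Type u} [NormedAddCommGroup X] [NormedSpace ℝ X]

/-- a unit vector of `E` in the kernel of finitely many functionals -/
lemma exists_unit (E : Submodule ℝ X) (hE : ¬ FiniteDimensional ℝ E) (n : ℕ)
    (f : Fin n → StrongDual ℝ X) : ∃ v ∈ E, ‖v‖ = 1 ∧ ∀ j, f j v = 0 := by
  let Φ : E →ₗ[ℝ] (Fin n → ℝ) := LinearMap.pi fun j => ((f j : X →ₗ[ℝ] ℝ)).comp E.subtype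
  have hni : ¬ Function.Injective Φ := fun h =>
    hE (Module.Finite.of_injective Φ h)
  rw [← LinearMap.ker_eq_bot, ← ne_eq, Submodule.ne_bot_iff] at hni
  obtain ⟨x, hx, hx0⟩ := hni
  have hx0' : (x : X) ≠ 0 := fun h => hx0 (Subtype.ext h)
  have hnorm : ‖(x : X)‖ ≠ 0 := norm_ne_zero_iff.2 hx0'
  refine ⟨‖(x : X)‖⁻¹ • (x : X), E.smul_mem _ x.2, ?_, fun j => ?_⟩
  · rw [norm_smul, norm_inv, norm_norm, inv_mul_cancel₀ hnorm]
  · have h1 : Φ x j = 0 := by rw [LinearMap.mem_ker.1 hx]; rfl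
    have h2 : f j (x : X) = 0 := h1
    rw [map_smul, h2, smul_zero]

end TOTaux

open TOTaux

theorem TOT : TOT_stm.{u} := by
  intro X _ _ E hsep hinf
  obtain ⟨c, hc, hEc⟩ := hsep
  have hcne : c.Nonempty := by
    by_contra h
    rw [Set.not_nonempty_iff_eq_empty] at h
    rw [h, closure_empty] at hEc
    exact (hEc E.zero_mem).elim
  obtain ⟨d, hd⟩ := hc.exists_eq_range hcne
  choose g hg1 hg2 using fun n : ℕ => exists_dual_vector'' (𝕜 := ℝ) (d n)
  choose v hv1 hv2 hv3 using fun n : ℕ => exists_unit E hinf n (fun j => g j)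
  refine ⟨g, v, hg1, fun x hx h0 => ?_, fun n => ⟨hv1 n, hv2 n⟩, fun m n hmn => hv3 n ⟨m, hmn⟩⟩
  rw [← norm_le_zero_iff]
  refine le_of_forall_pos_le_add fun ε hε => ?_
  obtain ⟨y, hy, hxy⟩ := Metric.mem_closure_iff.1 (hEc hx) (ε / 2) (by positivity)
  rw [hd] at hy
  obtain ⟨n, rfl⟩ := hy
  rw [dist_eq_norm] at hxy
  have e1 : ‖d n‖ ≤ ‖x - d n‖ := by
    have e2 : g n (d n) = ‖d n‖ := by simpa using hg2 n
    have e3 : g n (d n) = - g n (x - d n) := by rw [map_sub, h0 n]; ring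
    have e4 : |g n (x - d n)| ≤ ‖x - d n‖ := by
      have := (g n).le_opNorm (x - d n)
      rw [Real.norm_eq_abs] at this
      refine this.trans ?_
      have := mul_le_mul_of_nonneg_right (hg1 n) (norm_nonneg (x - d n))
      linarith
    have e5 := neg_abs_le (g n (x - d n))
    linarith
  have e6 : ‖x‖ ≤ ‖d n‖ + ‖x - d n‖ := by
    calc ‖x‖ = ‖d n + (x - d n)‖ := by congr 1; abel
      _ ≤ _ := norm_add_le _ _
  linarith

end H857NC
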