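import Mathlib
import Pool.Agent.H857R2.NC.TOT

set_option autoImplicit false

namespace H857NC

open Filter Topology Set

universe u

namespace BIOaux

open TOTaux

variable {X : Type u} [NormedAddCommGroup X] [NormedSpace ℝ X]

/-- one step: extend a finite biorthogonal system -/
lemma step (E : Submodule ℝ X) (hE : ¬ FiniteDimensional ℝ E) (n : ℕ)
    (e : Fin n → X) (g : Fin n → StrongDual ℝ X)
    (hge : ∀ i j, g i (e j) = if i = j then 1 else 0) :
    ∃ (x : X) (φ : StrongDual ℝ X), x ∈ E ∧ ‖x‖ = 1 ∧ (∀ j, g j x = 0) ∧ φ x = 1 ∧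
      ∀ j, φ (e j) = 0 := by
  classical
  obtain ⟨x, hxE, hx1, hx0⟩ := exists_unit E hE n g
  -- functional vanishing on the e j, with value one at x
  have hxne : x ≠ 0 := by
    rintro rfl
    simp at hx1
  obtain ⟨ψ, _, hψ⟩ := exists_dual_vector'' (𝕜 := ℝ) x
  have hψx : ψ x = 1 := by
    rw [hψ, hx1]; simp
  refine ⟨x, ψ - ∑ j, ψ (e j) • g j, hxE, hx1, hx0, ?_, fun j => ?_⟩
  · rw [_root_.sub_apply, hψx, FunLike.coe_sum, Finset.sum_apply]
    have : ∑ j, (ψ (e j) • g j) x = 0 := by
      refine Finset.sum_eq_zero fun j _ => ?_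
      rw [_root_.smul_apply, hx0 j, smul_zero]
    rw [this, sub_zero]
  · rw [_root_.sub_apply, FunLike.coe_sum, Finset.sum_apply]
    have : ∑ i, (ψ (e i) • g i) (e j) = ψ (e j) := by
      rw [Finset.sum_eq_single j]
      · rw [_root_.smul_apply, hge j j, if_pos rfl, smul_eq_mul, mul_one]
      · intro i _ hij
        rw [_root_.smul_apply, hge i j, if_neg hij, smul_zero]
      · intro h; exact (h (Finset.mem_univ j)).elim
    rw [this, sub_self]

/-- finite biorthogonal systems of length `n` -/
structure Sys (E : Submodule ℝ X) (n : ℕ) where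
  e : ℕ → X
  g : ℕ → StrongDual ℝ X
  he : ∀ i, i < n → e i ∈ E ∧ ‖e i‖ = 1
  hg : ∀ i j, i < n → j < n → g i (e j) = if i = j then 1 else 0

lemma exists_next (E : Submodule ℝ X) (hE : ¬ FiniteDimensional ℝ E) (n : ℕ) (s : Sys E n) :
    ∃ t : Sys E (n + 1), ∀ i, i < n → t.e i = s.e i ∧ t.g i = s.g i := by
  classical
  obtain ⟨x, φ, hxE, hx1, hx0, hφx, hφe⟩ := step E hE n (fun i => s.e i) (fun i => s.g i) (by
    intro i j
    rw [s.hg i j i.2 j.2]
    simp only [Fin.ext_iff])
  refine ⟨⟨Function.update s.e n x, Function.update s.g n φ, ?_, ?_⟩, ?_⟩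
  · intro i hi
    rcases Nat.lt_succ_iff_lt_or_eq.1 hi with h | h
    · rw [Function.update_of_ne h.ne]; exact s.he i h
    · subst h; rw [Function.update_self]; exact ⟨hxE, hx1⟩
  · intro i j hi hj
    rcases Nat.lt_succ_iff_lt_or_eq.1 hi with h | h
    · rcases Nat.lt_succ_iff_lt_or_eq.1 hj with h' | h'
      · rw [Function.update_of_ne h.ne, Function.update_of_ne h'.ne]
        exact s.hg i j h h'
      · subst h'
        rw [Function.update_of_ne h.ne, Function.update_self, if_neg h.ne]
        exact hx0 ⟨i, h⟩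
    · subst h
      rcases Nat.lt_succ_iff_lt_or_eq.1 hj with h' | h'
      · rw [Function.update_self, Function.update_of_ne h'.ne, if_neg h'.ne']
        exact hφe ⟨j, h'⟩
      · subst h'
        rw [Function.update_self, Function.update_self, if_pos rfl]
        exact hφx
  · intro i hi
    exact ⟨Function.update_of_ne hi.ne _ _, Function.update_of_ne hi.ne _ _⟩

end BIOaux

open BIOaux

theorem BIO : BIO_stm.{u} := by
  intro X _ _ E hE
  choose nx hnx using fun n => exists_next E hE n
  let s : ∀ n, Sys E n := fun n => Nat.rec ⟨fun _ => 0, fun _ => 0, by simp, by simp⟩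
    (fun n t => nx n t) n
  have hs : ∀ n, s (n + 1) = nx n (s n) := fun n => rfl
  have hst : ∀ m n i, i < m → m ≤ n → (s n).e i = (s m).e i ∧ (s n).g i = (s m).g i := by
    intro m n i hi hmn
    induction n, hmn using Nat.le_induction with
    | base => exact ⟨rfl, rfl⟩
    | succ n hmn ih =>
      rw [hs]
      have h1 := hnx n (s n) i (lt_of_lt_of_le hi hmn)
      exact ⟨h1.1.trans ih.1, h1.2.trans ih.2⟩
  refine ⟨fun n => (s (n + 1)).e n, fun n => (s (n + 1)).g n, fun n => (s (n + 1)).he n (by omega),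
    fun m n => ?_⟩
  set M := max m n + 1 with hM
  have h1 := hst (m + 1) M m (by omega) (by omega)
  have h2 := hst (n + 1) M n (by omega) (by omega)
  show (s (m + 1)).g m ((s (n + 1)).e n) = _
  rw [← h1.2, ← h2.1]
  exact (s M).hg m n (by omega) (by omega)

end H857NC
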