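import Mathlib
import Pool.Agent.H857R2.NC.Stm

set_option autoImplicit false
set_option linter.all false

namespace H857NC

open Filter Topology Set

universe u

section BPaux

variable {X : Type u} [NormedAddCommGroup X] [NormedSpace ℝ X]

open Classical in
/-- an almost maximiser -/
noncomputable def BP_pick (x0 : X) (H : X → ℝ) (ε : ℝ) : X :=
  if h : ∃ v, ∀ y, H y ≤ H v + ε then Classical.choose h else x0

theorem BP_pick_spec (x0 : X) (H : X → ℝ) {ε B : ℝ} (hε : 0 < ε) (hB : ∀ x, H x ≤ B) (y : X) :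
    H y ≤ H (BP_pick x0 H ε) + ε := by
  have hex : ∃ v, ∀ y, H y ≤ H v + ε := by
    have hbdd : BddAbove (Set.range H) := ⟨B, by rintro _ ⟨x, rfl⟩; exact hB x⟩
    obtain ⟨_, ⟨v, rfl⟩, hv⟩ := exists_lt_of_lt_csSup (Set.range_nonempty H)
      (sub_lt_self (sSup (Set.range H)) hε)
    refine ⟨v, fun y => ?_⟩
    have := le_csSup hbdd (Set.mem_range_self y)
    linarith
  unfold BP_pick
  rw [dif_pos hex]
  exact Classical.choose_spec hex y

/-- the recursion -/
noncomputable def BP_st (N : Seminorm ℝ X) (F : X → ℝ) (x0 : X) : ℕ → (X → ℝ) × X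
  | 0 => (F, x0)
  | k + 1 =>
    (fun x => (BP_st N F x0 k).1 x - (1 / 2 : ℝ) ^ k * (N (x - (BP_st N F x0 k).2)) ^ 2,
      BP_pick x0 (fun x => (BP_st N F x0 k).1 x -
        (1 / 2 : ℝ) ^ k * (N (x - (BP_st N F x0 k).2)) ^ 2) ((1 / 8 : ℝ) ^ (k + 1)))

end BPaux

theorem BP : BP_stm.{u} := by
  intro X _ _ _ N hN F hF x0 hx0
  obtain ⟨⟨b, hb, hub⟩, ⟨a, ha, hlb⟩⟩ := hN
  set G : ℕ → X → ℝ := fun k => (BP_st N F x0 k).1 with hG
  set v : ℕ → X := fun k => (BP_st N F x0 k).2 with hv
  have hG0 : ∀ x, G 0 x = F x := fun x => rfl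
  have hv0 : v 0 = x0 := rfl
  have hGs : ∀ k x, G (k + 1) x = G k x - (1 / 2 : ℝ) ^ k * (N (x - v k)) ^ 2 := fun k x => rfl
  have hvs : ∀ k, v (k + 1) = BP_pick x0 (G (k + 1)) ((1 / 8 : ℝ) ^ (k + 1)) := fun k => rfl
  have hGB : ∀ k x, G k x ≤ F x0 + 1 := by
    intro k
    induction k with
    | zero => intro x; exact hx0 x
    | succ k ih =>
      intro x
      rw [hGs]
      have : 0 ≤ (1 / 2 : ℝ) ^ k * (N (x - v k)) ^ 2 := by positivity
      linarith [ih x]
  have hmax : ∀ k y, G k y ≤ G k (v k) + (1 / 8 : ℝ) ^ k := by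
    intro k y
    cases k with
    | zero =>
      rw [hG0, hG0, hv0, pow_zero]; exact hx0 y
    | succ k =>
      rw [hvs k]
      exact BP_pick_spec x0 (G (k + 1)) (by positivity) (hGB (k + 1)) y
  have hNc : Continuous N := by
    have hL : LipschitzWith ⟨b, hb.le⟩ N := by
      apply LipschitzWith.of_dist_le_mul
      intro x y
      rw [Real.dist_eq, dist_eq_norm]
      exact (abs_sub_map_le_sub N x y).trans (hub _)
    exact hL.continuous
  have hstep : ∀ k, N (v (k + 1) - v k) ≤ 3 / 2 * (1 / 2 : ℝ) ^ k := by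
    intro k
    have h1 := hGs k (v (k + 1))
    have h2 := hmax k (v (k + 1))
    have h3 := hGs k (v k)
    rw [sub_self, map_zero] at h3
    have h4 := hmax (k + 1) (v k)
    have h5 : (1 / 2 : ℝ) ^ k * (N (v (k + 1) - v k)) ^ 2 ≤ (1 / 8 : ℝ) ^ k * (9 / 8) := by
      have : (1 / 8 : ℝ) ^ (k + 1) = (1 / 8 : ℝ) ^ k * (1 / 8) := pow_succ _ _
      rw [this] at h4
      nlinarith
    have h6 : (1 / 8 : ℝ) ^ k = (1 / 2 : ℝ) ^ k * ((1 / 2 : ℝ) ^ k) ^ 2 := by
      rw [← pow_mul, ← pow_add, show k + k * 2 = 3 * k by ring, pow_mul]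
      norm_num
    have hp : 0 < (1 / 2 : ℝ) ^ k := by positivity
    have h7 : (N (v (k + 1) - v k)) ^ 2 ≤ ((1 / 2 : ℝ) ^ k) ^ 2 * (9 / 8) := by
      rw [h6] at h5
      have : (1 / 2 : ℝ) ^ k * (N (v (k + 1) - v k)) ^ 2 ≤
          (1 / 2 : ℝ) ^ k * (((1 / 2 : ℝ) ^ k) ^ 2 * (9 / 8)) := by linarith
      exact le_of_mul_le_mul_left this hp
    apply le_of_sq_le_sq _ (by positivity)
    nlinarith [sq_nonneg ((1 / 2 : ℝ) ^ k)]
  have hdist : ∀ k, N (v k - x0) ≤ 3 * (1 - (1 / 2 : ℝ) ^ k) := by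
    intro k
    induction k with
    | zero => rw [hv0, sub_self, map_zero]; simp
    | succ k ih =>
      have h1 : v (k + 1) - x0 = (v (k + 1) - v k) + (v k - x0) := by abel
      have h2 := map_add_le_add N (v (k + 1) - v k) (v k - x0)
      rw [h1]
      have h3 := hstep k
      rw [pow_succ]
      linarith
  have hd3 : ∀ k, N (v k - x0) ≤ 3 := fun k => by
    have : 0 < (1 / 2 : ℝ) ^ k := by positivity
    linarith [hdist k]
  have hcs : CauchySeq v := by
    refine cauchySeq_of_le_geometric (1 / 2) (3 / 2 / a) (by norm_num) (fun k => ?_)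
    rw [dist_eq_norm, ← neg_sub, norm_neg]
    have h1 := hlb (v (k + 1) - v k)
    have h2 := hstep k
    rw [div_mul_eq_mul_div, le_div_iff₀ ha]
    linarith
  obtain ⟨w, hw⟩ := cauchySeq_tendsto_of_complete hcs
  have hwN : N (w - x0) ≤ 4 := by
    have h1 : Tendsto (fun k => N (v k - x0)) atTop (𝓝 (N (w - x0))) :=
      (hNc.tendsto _).comp (hw.sub tendsto_const_nhds)
    exact le_of_tendsto h1 (Eventually.of_forall (fun k => by linarith [hd3 k]))
  refine ⟨w, v, hwN, fun k => by linarith [hd3 k], fun x => ?_⟩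
  have hGsum : ∀ k y, G k y = F y - ∑ j ∈ Finset.range k, (1 / 2 : ℝ) ^ j * (N (y - v j)) ^ 2 := by
    intro k y
    induction k with
    | zero => simp [hG0]
    | succ k ih => rw [hGs, ih, Finset.sum_range_succ]; ring
  have hgeo : Summable (fun j : ℕ => (1 / 2 : ℝ) ^ j) :=
    summable_geometric_of_lt_one (by norm_num) (by norm_num)
  have hsum : ∀ y : X, Summable (fun j : ℕ => (1 / 2 : ℝ) ^ j * (N (y - v j)) ^ 2) := by
    intro y
    refine Summable.of_nonneg_of_le (fun j => by positivity) (fun j => ?_)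
      (hgeo.mul_right ((N (y - x0) + 4) ^ 2))
    refine mul_le_mul_of_nonneg_left ?_ (by positivity)
    have h1 : N (y - v j) ≤ N (y - x0) + 4 := by
      have h2 : y - v j = (y - x0) - (v j - x0) := by abel
      rw [h2]
      have := map_sub_le_add N (y - x0) (v j - x0)
      linarith [hd3 j]
    exact pow_le_pow_left₀ (apply_nonneg N _) h1 2
  have hlim1 : Tendsto (fun k => G k x) atTop
      (𝓝 (F x - ∑' j, (1 / 2 : ℝ) ^ j * (N (x - v j)) ^ 2)) := by
    have := (hsum x).hasSum.tendsto_sum_nat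
    have h2 := (tendsto_const_nhds (x := F x)).sub this
    refine h2.congr (fun k => ?_)
    rw [hGsum]
  have hlim2 : Tendsto (fun k => G k (v k)) atTop
      (𝓝 (F w - ∑' j, (1 / 2 : ℝ) ^ j * (N (w - v j)) ^ 2)) := by
    have h1 : Tendsto (fun k => F (v k)) atTop (𝓝 (F w)) := (hF.tendsto _).comp hw
    have h2 : Tendsto (fun k => ∑' j, (if j < k then (1 / 2 : ℝ) ^ j * (N (v k - v j)) ^ 2
        else 0)) atTop (𝓝 (∑' j, (1 / 2 : ℝ) ^ j * (N (w - v j)) ^ 2)) := by
      refine tendsto_tsum_of_dominated_convergence (bound := fun j => (1 / 2 : ℝ) ^ j * 64)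
        (hgeo.mul_right 64) (fun j => ?_) (Eventually.of_forall (fun k j => ?_))
      · have h3 : Tendsto (fun k => (1 / 2 : ℝ) ^ j * (N (v k - v j)) ^ 2) atTop
            (𝓝 ((1 / 2 : ℝ) ^ j * (N (w - v j)) ^ 2)) :=
          (((hNc.tendsto _).comp (hw.sub tendsto_const_nhds)).pow 2).const_mul _
        refine h3.congr' ?_
        filter_upwards [eventually_gt_atTop j] with k hk
        rw [if_pos hk]
      · split_ifs with hjk
        · rw [Real.norm_eq_abs, abs_of_nonneg (by positivity)]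
          refine mul_le_mul_of_nonneg_left ?_ (by positivity)
          have h4 : N (v k - v j) ≤ 8 := by
            have h5 : v k - v j = (v k - x0) - (v j - x0) := by abel
            rw [h5]
            have := map_sub_le_add N (v k - x0) (v j - x0)
            linarith [hd3 j, hd3 k]
          have h6 := pow_le_pow_left₀ (apply_nonneg N (v k - v j)) h4 2
          norm_num at h6
          exact h6
        · rw [norm_zero]; positivity
    have h3 := h1.sub h2
    refine h3.congr (fun k => ?_)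
    rw [hGsum]
    congr 1
    rw [tsum_eq_sum (s := Finset.range k)]
    · refine Finset.sum_congr rfl (fun j hj => ?_)
      rw [if_pos (Finset.mem_range.mp hj)]
    · intro j hj
      rw [if_neg (fun h => hj (Finset.mem_range.mpr h))]
  have hlim3 : Tendsto (fun k => G k (v k) + (1 / 8 : ℝ) ^ k) atTop
      (𝓝 (F w - ∑' j, (1 / 2 : ℝ) ^ j * (N (w - v j)) ^ 2 + 0)) :=
    hlim2.add (tendsto_pow_atTop_nhds_zero_of_lt_one (by norm_num) (by norm_num))
  rw [add_zero] at hlim3
  exact le_of_tendsto_of_tendsto' hlim1 hlim3 (fun k => hmax k x)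

end H857NC
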