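import Mathlib
import Pool.Agent.H857R2.NC.Stm

set_option autoImplicit false

namespace H857NC

open Filter Topology Set

universe u

theorem CB (hCON : CON_stm.{u}) (hTAIL : TAIL_stm.{u}) (hUCB : UCB_stm.{u}) : CB_stm.{u} := by
  classical
  intro X _ _ _ _ N hN hL hX
  obtain ⟨a, ha, hl⟩ := hN.lower
  obtain ⟨b, hb, hu⟩ := hN.upper
  obtain ⟨y, hy⟩ := exists_ne (0 : X)
  have hNy : 0 < N y := lt_of_lt_of_le (mul_pos ha (norm_pos_iff.2 hy)) (hl y)
  set x0 : X := (N y)⁻¹ • y with hx0def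
  have hx0 : N x0 = 1 := by
    rw [hx0def, map_smul_eq_mul, Real.norm_eq_abs, abs_of_pos (inv_pos.2 hNy),
      inv_mul_cancel₀ hNy.ne']
  obtain ⟨h, h1, h2⟩ := hCON X N hN x0 hx0
  set S : ℕ → (ℕ → ℝ) → X := fun n σ => ∑ i ∈ Finset.range n, σ i • h i with hS
  have hbb : ∀ n, bb n ≤ 5 / 4 := by
    intro n
    have : (0 : ℝ) < (1 / 2 : ℝ) ^ n := by positivity
    unfold bb
    linarith
  have hneg : ∀ n σ, S n (fun i => - σ i) = - S n σ := by
    intro n σ
    simp only [hS, neg_smul, Finset.sum_neg_distrib]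
  have hsgn : ∀ σ : ℕ → ℝ, (∀ i, σ i = 1 ∨ σ i = -1) → ∀ i, (fun i => - σ i) i = 1 ∨
      (fun i => - σ i) i = -1 := by
    intro σ hσ i
    rcases hσ i with h | h
    · right; simp [h]
    · left; simp [h]
  have hlow : ∀ n (σ : ℕ → ℝ), (∀ i, σ i = 1 ∨ σ i = -1) → 3 / 4 ≤ N (x0 + S n σ) := by
    intro n σ hσ
    have e1 : N (x0 + S n (fun i => - σ i)) ≤ 5 / 4 := (h1 n _ (hsgn σ hσ)).trans (hbb n)
    rw [hneg] at e1
    have e2 : N ((2 : ℝ) • x0) ≤ N (x0 + S n σ) + N (x0 + - S n σ) := by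
      have : (2 : ℝ) • x0 = (x0 + S n σ) + (x0 + - S n σ) := by
        rw [two_smul]; abel
      rw [this]
      exact map_add_le_add N _ _
    rw [map_smul_eq_mul, hx0] at e2
    norm_num at e2
    linarith
  have hsum : ∀ n (σ : ℕ → ℝ), (∀ i, σ i = 1 ∨ σ i = -1) → N (S n σ) ≤ 9 / 4 := by
    intro n σ hσ
    have e1 : N (x0 + S n σ) ≤ 5 / 4 := (h1 n _ hσ).trans (hbb n)
    have e2 : N (S n σ) ≤ N (x0 + S n σ) + N x0 := by
      have : S n σ = (x0 + S n σ) - x0 := by abel
      calc N (S n σ) = N ((x0 + S n σ) - x0) := by rw [← this]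
        _ ≤ _ := map_sub_le_add N _ _
    linarith
  have hBdd : BddSigned h (9 / 4 / a) := by
    intro F σ hσ
    rw [le_div_iff₀' ha]
    refine (hl _).trans ?_
    set n := F.sup id + 1 with hn
    have hFn : F ⊆ Finset.range n := fun i hi =>
      Finset.mem_range.2 (Nat.lt_succ_of_le (Finset.le_sup (f := id) hi))
    set σ' : ℕ → ℝ := fun i => if i ∈ F then σ i else - σ i with hσ'
    have hσ's : ∀ i, σ' i = 1 ∨ σ' i = -1 := by
      intro i
      simp only [hσ']
      split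
      · exact hσ i
      · exact hsgn σ hσ i
    have key : ∑ i ∈ F, σ i • h i = (1 / 2 : ℝ) • (S n σ + S n σ') := by
      rw [hS]
      simp only
      rw [← Finset.sum_add_distrib, Finset.smul_sum]
      rw [← Finset.sum_subset hFn]
      · refine Finset.sum_congr rfl fun i hi => ?_
        simp only [hσ', if_pos hi]
        rw [← two_smul ℝ, smul_smul]
        norm_num
      · intro i _ hi
        simp only [hσ', if_neg hi, neg_smul, add_neg_cancel, smul_zero]
    rw [key, map_smul_eq_mul]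
    have := map_add_le_add N (S n σ) (S n σ')
    have e1 := hsum n σ hσ
    have e2 := hsum n σ' hσ's
    norm_num
    linarith
  -- finite sets
  set T : ℕ → Set X := fun m => {x | ∃ σ : ℕ → ℝ, (∀ i, σ i = 1 ∨ σ i = -1) ∧ x = x0 + S m σ}
    with hT
  have hTfin : ∀ m, (T m).Finite := by
    intro m
    induction m with
    | zero =>
      refine (Set.finite_singleton x0).subset ?_
      rintro x ⟨σ, hσ, rfl⟩
      simp [hS]
    | succ m ih =>
      refine ((ih.image fun x => x + h m).union (ih.image fun x => x - h m)).subset ?_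
      rintro x ⟨σ, hσ, rfl⟩
      have e : S (m + 1) σ = S m σ + σ m • h m := by
        rw [hS]; exact Finset.sum_range_succ _ _
      rcases hσ m with h' | h'
      · left
        refine ⟨x0 + S m σ, ⟨σ, hσ, rfl⟩, ?_⟩
        simp only [e, h', one_smul]; abel
      · right
        refine ⟨x0 + S m σ, ⟨σ, hσ, rfl⟩, ?_⟩
        simp only [e, h', neg_smul, one_smul]; abel
  set Kinf : Set X := {x | ∃ (n : ℕ), x ∈ T n} with hKinf
  have hlowK : ∀ x ∈ Kinf, 3 / 4 ≤ N x := by
    rintro x ⟨n, σ, hσ, rfl⟩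
    exact hlow n σ hσ
  have htb : TotallyBounded Kinf := by
    rw [Metric.totallyBounded_iff]
    intro ε hε
    obtain ⟨n0, hn0⟩ := hTAIL X hX h _ hBdd (ε / 2) (by positivity)
    refine ⟨⋃ m ∈ Set.Iic n0, T m, (Set.finite_Iic n0).biUnion fun m _ => hTfin m, ?_⟩
    rintro x ⟨n, σ, hσ, rfl⟩
    rcases le_or_gt n n0 with hn | hn
    · refine Set.mem_iUnion₂.2 ⟨x0 + S n σ, ?_, Metric.mem_ball_self hε⟩
      exact Set.mem_iUnion₂.2 ⟨n, hn, σ, hσ, rfl⟩
    · refine Set.mem_iUnion₂.2 ⟨x0 + S n0 σ, ?_, ?_⟩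
      · exact Set.mem_iUnion₂.2 ⟨n0, Set.mem_Iic.2 le_rfl, σ, hσ, rfl⟩
      · rw [Metric.mem_ball, dist_eq_norm]
        have e : x0 + S n σ - (x0 + S n0 σ) = ∑ i ∈ Finset.Ico n0 n, σ i • h i := by
          rw [Finset.sum_Ico_eq_sub _ hn.le]
          simp only [hS]
          abel
        rw [e]
        have := hn0 (Finset.Ico n0 n) (fun i hi => (Finset.mem_Ico.1 hi).1) σ hσ
        linarith
  have hNc : Continuous N := by
    have : LipschitzWith (Real.toNNReal b) N := by
      apply LipschitzWith.of_dist_le_mul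
      intro x y
      rw [Real.dist_eq, dist_eq_norm, Real.coe_toNNReal _ hb.le]
      exact (abs_sub_map_le_sub N x y).trans (hu _)
    exact this.continuous
  have hclos : ∀ x ∈ closure Kinf, x ≠ 0 := by
    intro x hx h0
    have hcl : IsClosed {x : X | 3 / 4 ≤ N x} := isClosed_le continuous_const hNc
    have := closure_minimal (t := {x : X | 3 / 4 ≤ N x}) hlowK hcl hx
    rw [h0] at this
    simp only [Set.mem_ofPred_eq, map_zero] at this
    norm_num at this
  obtain ⟨r1, hr1, hK1⟩ := hUCB X (X →L[ℝ] ℝ) (fderiv ℝ N) Kinf htb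
    (fun x hx => hL x (hclos x hx))
  set r := min r1 (3 / (8 * b)) with hr
  have hr0 : 0 < r := lt_min hr1 (by positivity)
  obtain ⟨n, hn⟩ := hTAIL X hX h _ hBdd (a * r / (8 * b)) (by positivity)
  have hhn : N (h n) ≤ a * r / 8 := by
    have e1 := hn {n} (by simp) (fun _ => 1) (by simp)
    simp only [Finset.sum_singleton, one_smul] at e1
    calc N (h n) ≤ b * ‖h n‖ := hu _
      _ ≤ b * (a * r / (8 * b)) := by gcongr
      _ = a * r / 8 := by field_simp
  have hbbn : bb (n + 1) = bb n + (1 / 8) * (1 / 2 : ℝ) ^ n := by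
    unfold bb
    rw [pow_succ]; ring
  refine ⟨(hTfin n).toFinset, bb n, (1 / 8) * (1 / 2 : ℝ) ^ n, r, by positivity, hr0, ?_, ?_, ?_, ?_⟩
  · intro k hk
    obtain ⟨σ, hσ, rfl⟩ := (hTfin n).mem_toFinset.1 hk
    exact h1 n σ hσ
  · intro k hk z hz h0
    have hk' := hlowK k ⟨n, (hTfin n).mem_toFinset.1 hk⟩
    rw [h0, Metric.mem_ball, dist_comm, dist_zero_right] at hz
    have e1 : N k ≤ b * (3 / (8 * b)) :=
      (hu k).trans (mul_le_mul_of_nonneg_left (hz.le.trans (min_le_right _ _)) hb.le)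
    have e2 : b * (3 / (8 * b)) = 3 / 8 := by field_simp
    rw [e2] at e1
    norm_num at hk' e1
    linarith
  · intro k hk
    exact (hK1 k ⟨n, (hTfin n).mem_toFinset.1 hk⟩).mono
      (Metric.ball_subset_ball (min_le_left _ _))
  · intro g hg
    by_contra hcon
    push Not at hcon
    have e1 : N g ≤ 2 * N (h n) := by
      refine h2 n g fun σ hσ => ?_
      have := hcon (x0 + S n σ) ((hTfin n).mem_toFinset.2 ⟨σ, hσ, rfl⟩)
      rw [hbbn]
      exact ⟨this.1.le, this.2.le⟩
    have e2 := hl g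
    have e3 : a * (r / 2) ≤ a * ‖g‖ := by gcongr
    have e4 : 0 < a * r := by positivity
    linarith

end H857NC
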