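import Mathlib
import Pool.Agent.H857R2.NC.Stm

set_option autoImplicit false

namespace H857NC

open Filter Topology Set

universe u

/-- gradient inequality -/
private theorem cd1_grad {X : Type u} [NormedAddCommGroup X] [NormedSpace ℝ X] {f : X → ℝ}
    (hf : ConvexOn ℝ univ f) {y : X} (hy : DifferentiableAt ℝ f y) (h : X) :
    fderiv ℝ f y h ≤ f (y + h) - f y := by
  have hd : HasDerivAt (fun t : ℝ => f (y + t • h)) (fderiv ℝ f y h) 0 := by
    have h1 : HasDerivAt (fun t : ℝ => y + t • h) h 0 := by
      simpa using ((hasDerivAt_id (0:ℝ)).smul_const h).const_add y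
    have h2 : HasFDerivAt f (fderiv ℝ f y) (y + (0:ℝ) • h) := by simpa using hy.hasFDerivAt
    exact h2.comp_hasDerivAt 0 h1
  have hc : ConvexOn ℝ univ (fun t : ℝ => f (y + t • h)) := by
    refine ⟨convex_univ, fun s _ t _ a b ha hb hab => ?_⟩
    have := hf.2 (mem_univ (y + s • h)) (mem_univ (y + t • h)) ha hb hab
    have e : a • (y + s • h) + b • (y + t • h) = y + (a • s + b • t) • h := by
      simp only [smul_add, smul_smul, smul_eq_mul, add_smul]
      have : a • y + b • y = y := by rw [← add_smul, hab, one_smul]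
      calc a • y + (a * s) • h + (b • y + (b * t) • h)
          = (a • y + b • y) + ((a * s) • h + (b * t) • h) := by abel
        _ = y + ((a * s) • h + (b * t) • h) := by rw [this]
    rw [e] at this
    exact this
  have := hc.le_slope_of_hasDerivAt (mem_univ 0) (mem_univ 1) zero_lt_one hd
  simpa [slope] using this

theorem CD1 : CD1_stm.{u} := by
  intro X _ _ f U hf hcont hU hd
  have h01 : (1 : WithTop ℕ∞) = 0 + 1 := by norm_num
  rw [h01, contDiffOn_succ_iff_fderiv_of_isOpen hU]
  refine ⟨fun x hx => (hd x hx).differentiableWithinAt, by simp, contDiffOn_zero.2 (fun x hx => ContinuousAt.continuousWithinAt ?_)⟩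
  rw [Metric.continuousAt_iff]
  intro ε hε
  have hx' := (hd x hx).hasFDerivAt
  rw [hasFDerivAt_iff_isLittleO_nhds_zero] at hx'
  have hε4 : (0:ℝ) < ε / 4 := by positivity
  have h1 := hx'.def hε4
  rw [Metric.eventually_nhds_iff] at h1
  obtain ⟨δ, hδ, h1⟩ := h1
  obtain ⟨ρ, hρ, hball⟩ := Metric.isOpen_iff.1 hU x hx
  refine ⟨min ρ (δ / 3), by positivity, fun y hy => ?_⟩
  have hyU : y ∈ U := hball (by
    rw [Metric.mem_ball]; exact lt_of_lt_of_le hy (min_le_left _ _))
  have hyδ : ‖y - x‖ < δ / 3 := by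
    rw [← dist_eq_norm]; exact lt_of_lt_of_le hy (min_le_right _ _)
  rw [dist_eq_norm]
  refine lt_of_le_of_lt (ContinuousLinearMap.opNorm_le_of_unit_norm (C := 3 * (ε / 4)) (by positivity) ?_)
    (by linarith)
  intro w hw
  -- both signs
  have key : ∀ w : X, ‖w‖ = 1 → fderiv ℝ f y w - fderiv ℝ f x w ≤ 3 * (ε / 4) := by
    intro w hw
    set t : ℝ := δ / 3 with ht
    have ht0 : 0 < t := by positivity
    have g1 := cd1_grad hf (hd y hyU) (t • w)
    have g2 := cd1_grad hf (hd x hx) (y - x)
    have hn : ‖y + t • w - x‖ ≤ 2 * t := by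
      calc ‖y + t • w - x‖ = ‖(y - x) + t • w‖ := by congr 1; abel
        _ ≤ ‖y - x‖ + ‖t • w‖ := norm_add_le _ _
        _ ≤ t + t := by
            rw [norm_smul, hw, Real.norm_of_nonneg ht0.le]; linarith
        _ = 2 * t := by ring
    have h2 := h1 (y := y + t • w - x) (by
      rw [dist_eq_norm, sub_zero]; linarith)
    have e1 : x + (y + t • w - x) = y + t • w := by abel
    rw [e1] at h2
    have h3 := le_trans (le_abs_self _) h2
    have e2 : x + (y - x) = y := by abel
    rw [e2] at g2
    have e3 : fderiv ℝ f x (y + t • w - x) = fderiv ℝ f x (y - x) + t * fderiv ℝ f x w := by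
      have : y + t • w - x = (y - x) + t • w := by abel
      rw [this, map_add, map_smul, smul_eq_mul]
    rw [e3] at h3
    rw [map_smul, smul_eq_mul] at g1
    have h4 : ε / 4 * ‖y + t • w - x‖ ≤ ε / 4 * (2 * t) := mul_le_mul_of_nonneg_left hn hε4.le
    have h5 : t * (fderiv ℝ f y w - fderiv ℝ f x w) ≤ t * (3 * (ε / 4)) := by
      have : t * (fderiv ℝ f y w - fderiv ℝ f x w) ≤ ε / 4 * (2 * t) := by
        have := h3.trans h4
        linarith
      have h6 : 0 < ε / 4 * t := by positivity
      nlinarith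
    exact le_of_mul_le_mul_left h5 ht0
  rw [Real.norm_eq_abs, abs_le]
  constructor
  · have := key (-w) (by rw [norm_neg, hw])
    simp only [map_neg] at this
    rw [ContinuousLinearMap.sub_apply]
    linarith
  · have := key w hw
    rw [ContinuousLinearMap.sub_apply]
    linarith

end H857NC
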