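import Mathlib
import Pool.Agent.H857R2.NC.Stm

set_option autoImplicit false

/-! Module CON of helper857 (non complete smooth norms): the greedy construction (helper715). -/

namespace H857NC

universe u

variable {X : Type u} [NormedAddCommGroup X] [NormedSpace ℝ X]

theorem CON_bb_le (n : ℕ) : bb n ≤ bb (n + 1) := by
  unfold bb
  have : (0 : ℝ) ≤ (1 / 2 : ℝ) ^ n := by positivity
  rw [pow_succ]
  linarith

/-- the admissible steps -/
def CON_adm (N : Seminorm ℝ X) (K : Set X) (B : ℝ) (g : X) : Prop :=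
  ∀ k ∈ K, N (k + g) ≤ B ∧ N (k - g) ≤ B

theorem CON_ex (N : Seminorm ℝ X) (K : Set X) (B : ℝ) (hK : K.Nonempty)
    (hB : ∀ k ∈ K, N k ≤ B) :
    ∃ g0, CON_adm N K B g0 ∧ ∀ g, CON_adm N K B g → N g ≤ 2 * N g0 := by
  obtain ⟨k0, hk0⟩ := hK
  have h0 : CON_adm N K B 0 := by
    intro k hk
    rw [add_zero, sub_zero]
    exact ⟨hB k hk, hB k hk⟩
  have hbd : BddAbove (N '' {g | CON_adm N K B g}) := by
    refine ⟨B, ?_⟩
    rintro _ ⟨g, hg, rfl⟩
    obtain ⟨h1, h2⟩ := hg k0 hk0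
    have h3 : N ((k0 + g) - (k0 - g)) ≤ N (k0 + g) + N (k0 - g) := map_sub_le_add N _ _
    have h4 : (k0 + g) - (k0 - g) = (2 : ℝ) • g := by rw [two_smul]; abel
    rw [h4, map_smul_eq_mul] at h3
    simp only [Real.norm_ofNat] at h3
    linarith
  have hne : (N '' {g | CON_adm N K B g}).Nonempty := ⟨N 0, 0, h0, rfl⟩
  set S := sSup (N '' {g | CON_adm N K B g}) with hS
  have hle : ∀ g, CON_adm N K B g → N g ≤ S := fun g hg => le_csSup hbd ⟨g, hg, rfl⟩
  rcases le_or_gt S 0 with hS0 | hS0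
  · refine ⟨0, h0, fun g hg => ?_⟩
    rw [map_zero, mul_zero]
    exact (hle g hg).trans hS0
  · obtain ⟨_, ⟨g0, hg0, rfl⟩, hlt⟩ := exists_lt_of_lt_csSup hne (show S / 2 < S by linarith)
    refine ⟨g0, hg0, fun g hg => ?_⟩
    have := hle g hg
    linarith

open Classical in
/-- the chosen step -/
noncomputable def CON_nxt (N : Seminorm ℝ X) (K : Set X) (B : ℝ) : X :=
  if H : ∃ g0, CON_adm N K B g0 ∧ ∀ g, CON_adm N K B g → N g ≤ 2 * N g0 then H.choose else 0

theorem CON_nxt_spec (N : Seminorm ℝ X) (K : Set X) (B : ℝ) (hK : K.Nonempty)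
    (hB : ∀ k ∈ K, N k ≤ B) :
    CON_adm N K B (CON_nxt N K B) ∧ ∀ g, CON_adm N K B g → N g ≤ 2 * N (CON_nxt N K B) := by
  have H := CON_ex N K B hK hB
  have h1 : CON_nxt N K B = H.choose := dif_pos H
  rw [h1]
  exact H.choose_spec

/-- the sets of signed sums -/
noncomputable def CON_K (N : Seminorm ℝ X) (x0 : X) : ℕ → Set X
  | 0 => {x0}
  | (n + 1) => (fun k => k + CON_nxt N (CON_K N x0 n) (bb (n + 1))) '' (CON_K N x0 n) ∪
      (fun k => k - CON_nxt N (CON_K N x0 n) (bb (n + 1))) '' (CON_K N x0 n)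

theorem CON_inv (N : Seminorm ℝ X) (x0 : X) (hx0 : N x0 = 1) (n : ℕ) :
    (CON_K N x0 n).Nonempty ∧ ∀ k ∈ CON_K N x0 n, N k ≤ bb n := by
  induction n with
  | zero =>
    refine ⟨⟨x0, rfl⟩, fun k hk => ?_⟩
    have : k = x0 := hk
    rw [this, hx0]
    unfold bb
    norm_num
  | succ n ih =>
    have hB : ∀ k ∈ CON_K N x0 n, N k ≤ bb (n + 1) := fun k hk => (ih.2 k hk).trans (CON_bb_le n)
    have hs := CON_nxt_spec N (CON_K N x0 n) (bb (n + 1)) ih.1 hB
    refine ⟨?_, ?_⟩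
    · obtain ⟨k, hk⟩ := ih.1
      exact ⟨_, Or.inl ⟨k, hk, rfl⟩⟩
    · rintro _ (⟨k, hk, rfl⟩ | ⟨k, hk, rfl⟩)
      · exact (hs.1 k hk).1
      · exact (hs.1 k hk).2

theorem CON_mem (N : Seminorm ℝ X) (x0 : X) (n : ℕ) (x : X) :
    x ∈ CON_K N x0 n ↔ ∃ σ : ℕ → ℝ, (∀ i, σ i = 1 ∨ σ i = -1) ∧
      x = x0 + ∑ i ∈ Finset.range n, σ i • CON_nxt N (CON_K N x0 i) (bb (i + 1)) := by
  induction n generalizing x with
  | zero =>
    constructor
    · intro hx
      have : x = x0 := hx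
      exact ⟨fun _ => 1, fun _ => Or.inl rfl, by simp [this]⟩
    · rintro ⟨σ, _, hx⟩
      simp only [Finset.range_zero, Finset.sum_empty, add_zero] at hx
      exact hx
  | succ n ih =>
    constructor
    · have key : ∀ (k : X) (ε : ℝ), (ε = 1 ∨ ε = -1) → k ∈ CON_K N x0 n →
          ∃ σ : ℕ → ℝ, (∀ i, σ i = 1 ∨ σ i = -1) ∧
          k + ε • CON_nxt N (CON_K N x0 n) (bb (n + 1)) = x0 + ∑ i ∈ Finset.range (n + 1),
            σ i • CON_nxt N (CON_K N x0 i) (bb (i + 1)) := by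
        intro k ε hε hk
        obtain ⟨σ, hσ, hk'⟩ := (ih k).mp hk
        refine ⟨Function.update σ n ε, ?_, ?_⟩
        · intro i
          by_cases hi : i = n
          · subst hi; rw [Function.update_self]; exact hε
          · rw [Function.update_of_ne hi]; exact hσ i
        · rw [Finset.sum_range_succ, Function.update_self, hk', add_assoc]
          congr 2
          refine Finset.sum_congr rfl fun i hi => ?_
          rw [Function.update_of_ne (Finset.mem_range.mp hi).ne]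
      rintro (⟨k, hk, rfl⟩ | ⟨k, hk, rfl⟩)
      · have := key k 1 (Or.inl rfl) hk
        simpa using this
      · have := key k (-1) (Or.inr rfl) hk
        simpa [sub_eq_add_neg] using this
    · rintro ⟨σ, hσ, rfl⟩
      rw [Finset.sum_range_succ, ← add_assoc]
      have hk : x0 + ∑ i ∈ Finset.range n, σ i • CON_nxt N (CON_K N x0 i) (bb (i + 1))
          ∈ CON_K N x0 n := (ih _).mpr ⟨σ, hσ, rfl⟩
      rcases hσ n with h1 | h1
      · rw [h1, one_smul]
        exact Or.inl ⟨_, hk, rfl⟩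
      · rw [h1, neg_one_smul, ← sub_eq_add_neg]
        exact Or.inr ⟨_, hk, rfl⟩

theorem CON : CON_stm.{u} := by
  intro X _ _ N _ x0 hx0
  refine ⟨fun n => CON_nxt N (CON_K N x0 n) (bb (n + 1)), ?_, ?_⟩
  · intro n σ hσ
    exact (CON_inv N x0 hx0 n).2 _ ((CON_mem N x0 n _).mpr ⟨σ, hσ, rfl⟩)
  · intro n g hg
    have hinv := CON_inv N x0 hx0 n
    refine (CON_nxt_spec N (CON_K N x0 n) (bb (n + 1)) hinv.1
      (fun k hk => (hinv.2 k hk).trans (CON_bb_le n))).2 g ?_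
    intro k hk
    obtain ⟨σ, hσ, rfl⟩ := (CON_mem N x0 n k).mp hk
    exact hg σ hσ

end H857NC
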