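import Mathlib
import Pool.Agent.H857R2.NC.Stm

/-!
Further statements (case `k = 1`, unconditional basic sequences).
-/

set_option autoImplicit false

namespace H857NC

open Filter Topology Set

universe u

/-- `X` contains a sequence equivalent to the unit vector basis of `l_1` -/
def HasL1Seq (X : Type u) [NormedAddCommGroup X] [NormedSpace ℝ X] : Prop :=
  ∃ (h : ℕ → X) (c B : ℝ), 0 < c ∧ (∀ n, ‖h n‖ ≤ B) ∧
    ∀ (F : Finset ℕ) (t : ℕ → ℝ), c * ∑ n ∈ F, |t n| ≤ ‖∑ n ∈ F, t n • h n‖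

/-- the sequence `e` of nonzero vectors is unconditional basic with constant `C` -/
def UncSeq {X : Type u} [NormedAddCommGroup X] [NormedSpace ℝ X] (e : ℕ → X) (C : ℝ) : Prop :=
  (∀ n, e n ≠ 0) ∧ ∀ (F : Finset ℕ) (t σ : ℕ → ℝ), (∀ n, σ n = 1 ∨ σ n = -1) →
    ‖∑ n ∈ F, (σ n * t n) • e n‖ ≤ C * ‖∑ n ∈ F, t n • e n‖

/-- NOL1: a Banach space with an equivalent norm Frechet differentiable off the origin does not
contain `l_1`. -/
def NOL1_stm : Prop := ∀ (X : Type u) [NormedAddCommGroup X] [NormedSpace ℝ X] [CompleteSpace X]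
    (N : Seminorm ℝ X), IsEquivNorm N → (∀ z, z ≠ 0 → DifferentiableAt ℝ N z) → ¬ HasL1Seq X

/-- COO: coordinates for an unconditional basic sequence. -/
def COO_stm : Prop := ∀ (X : Type u) [NormedAddCommGroup X] [NormedSpace ℝ X]
    (e : ℕ → X) (C : ℝ), UncSeq e C →
    ∃ (K : ℝ) (a : ℕ → StrongDual ℝ (Submodule.span ℝ (Set.range e)).topologicalClosure),
      0 < K ∧ (∀ (x : (Submodule.span ℝ (Set.range e)).topologicalClosure) (F : Finset ℕ)
        (σ : ℕ → ℝ), (∀ n, σ n = 1 ∨ σ n = -1) →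
          ‖∑ n ∈ F, (σ n * a n x) • e n‖ ≤ K * ‖x‖) ∧
      (∀ x : (Submodule.span ℝ (Set.range e)).topologicalClosure,
        Tendsto (fun n => ∑ i ∈ Finset.range n, a i x • e i) atTop (𝓝 (x : X))) ∧
      ∀ (m : ℕ) (F : Finset ℕ) (t : ℕ → ℝ)
        (x : (Submodule.span ℝ (Set.range e)).topologicalClosure),
        (x : X) = ∑ n ∈ F, t n • e n → a m x = if m ∈ F then t m else 0

/-- JAM: James' theorem. -/
def JAM_stm : Prop := ∀ (X : Type u) [NormedAddCommGroup X] [NormedSpace ℝ X] [CompleteSpace X]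
    (e : ℕ → X) (C : ℝ), UncSeq e C → ¬ HasC0Seq X → ¬ HasL1Seq X →
    Function.Surjective (NormedSpace.inclusionInDoubleDual ℝ
      (Submodule.span ℝ (Set.range e)).topologicalClosure)

end H857NC
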