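import Mathlib
import Pool.Agent.H857R2.NC.Stm2

/-!
Coordinates of an unconditional basic sequence (task COO, helper92).
-/

set_option autoImplicit false

namespace H857NC

open Filter Topology Set

universe u

namespace COOAux

variable {X : Type u} [NormedAddCommGroup X] [NormedSpace ℝ X] {e : ℕ → X} {C : ℝ}

theorem one_le (h : UncSeq e C) : 1 ≤ C := by
  have h1 := h.2 {0} (fun _ => 1) (fun _ => 1) (fun _ => Or.inl rfl)
  simp only [Finset.sum_singleton, mul_one, one_smul] at h1
  have h2 : 0 < ‖e 0‖ := norm_pos_iff.2 (h.1 0)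
  by_contra h3
  push Not at h3
  nlinarith

theorem sub (h : UncSeq e C) {F' F : Finset ℕ} (hF : F' ⊆ F) (t : ℕ → ℝ) :
    ‖∑ n ∈ F', t n • e n‖ ≤ (1 + C) / 2 * ‖∑ n ∈ F, t n • e n‖ := by
  classical
  obtain ⟨σ, hσ⟩ : ∃ σ : ℕ → ℝ, σ = fun n => if n ∈ F' then 1 else -1 := ⟨_, rfl⟩
  have h1 := h.2 F t σ (fun n => by
    rw [hσ]
    by_cases hn : n ∈ F'
    · left; simp [hn]
    · right; simp [hn])
  have h2 : ∑ n ∈ F', t n • e n =
      (1 / 2 : ℝ) • (∑ n ∈ F, t n • e n + ∑ n ∈ F, (σ n * t n) • e n) := by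
    rw [← Finset.sum_add_distrib, Finset.smul_sum, ← Finset.sum_subset hF]
    · refine Finset.sum_congr rfl fun n hn => ?_
      rw [hσ]
      simp only [if_pos hn, one_mul]
      rw [← add_smul, smul_smul]
      congr 1
      ring
    · intro n _ hn
      rw [hσ]
      simp only [if_neg hn]
      rw [← add_smul, smul_smul]
      have : (1 / 2 : ℝ) * (t n + -1 * t n) = 0 := by ring
      rw [this, zero_smul]
  rw [h2, norm_smul]
  have h3 : ‖(1 / 2 : ℝ)‖ = 1 / 2 := by norm_num
  rw [h3]
  have h4 := norm_add_le (∑ n ∈ F, t n • e n) (∑ n ∈ F, (σ n * t n) • e n)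
  linarith

theorem coord_le (h : UncSeq e C) (F : Finset ℕ) (t : ℕ → ℝ) (m : ℕ) (hm : m ∈ F) :
    |t m| * ‖e m‖ ≤ (1 + C) / 2 * ‖∑ n ∈ F, t n • e n‖ := by
  have h1 := sub h (F' := {m}) (F := F) (by simpa using hm) t
  rw [Finset.sum_singleton, norm_smul, Real.norm_eq_abs] at h1
  exact h1

theorem li (h : UncSeq e C) : LinearIndependent ℝ e := by
  rw [linearIndependent_iff']
  intro F t h0 m hm
  have h1 := coord_le h F t m hm
  rw [h0, norm_zero, mul_zero] at h1
  have h2 : 0 < ‖e m‖ := norm_pos_iff.2 (h.1 m)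
  have h3 : |t m| ≤ 0 := by
    by_contra h3
    push Not at h3
    have := mul_pos h3 h2
    linarith
  exact abs_nonpos_iff.1 h3

theorem exists_coord (h : UncSeq e C) (m : ℕ) : ∃ g : StrongDual ℝ X,
    ∀ n, g (e n) = if n = m then 1 else 0 := by
  obtain ⟨b, hb⟩ : ∃ b : Module.Basis ℕ ℝ (Submodule.span ℝ (Set.range e)),
      ∀ n, ((b n : Submodule.span ℝ (Set.range e)) : X) = e n :=
    ⟨Module.Basis.span (li h), fun n => by rw [Module.Basis.span_apply (li h) n]⟩
  have hbound : ∀ x : Submodule.span ℝ (Set.range e),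
      ‖b.coord m x‖ ≤ ((1 + C) / 2 / ‖e m‖) * ‖x‖ := by
    intro x
    have h2 : 0 < ‖e m‖ := norm_pos_iff.2 (h.1 m)
    have hC := one_le h
    rw [Module.Basis.coord_apply, Real.norm_eq_abs]
    by_cases hm : m ∈ (b.repr x).support
    · have h3 := coord_le h (b.repr x).support (b.repr x) m hm
      have h4 : ∑ n ∈ (b.repr x).support, (b.repr x) n • e n = (x : X) := by
        have h5 := b.linearCombination_repr x
        rw [Finsupp.linearCombination_apply, Finsupp.sum] at h5
        have h6 := congrArg (Submodule.subtype (Submodule.span ℝ (Set.range e))) h5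
        rw [map_sum] at h6
        simp only [map_smul, Submodule.subtype_apply, hb] at h6
        exact h6
      rw [h4] at h3
      rw [div_mul_eq_mul_div, le_div_iff₀ h2]
      exact h3
    · rw [Finsupp.notMem_support_iff] at hm
      rw [hm, abs_zero]
      positivity
  obtain ⟨g, hg, _⟩ := exists_extension_norm_eq (Submodule.span ℝ (Set.range e))
    ((b.coord m).mkContinuous ((1 + C) / 2 / ‖e m‖) hbound)
  refine ⟨g, fun n => ?_⟩
  have h3 := hg (b n)
  rw [hb] at h3
  rw [h3, LinearMap.mkContinuous_apply, Module.Basis.coord_apply, Module.Basis.repr_self,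
    Finsupp.single_apply]

end COOAux

open COOAux in
theorem COO : COO_stm.{u} := by
  intro X _ _ e C h
  classical
  choose g hg using fun m => exists_coord h m
  have hC := one_le h
  have hgs : ∀ (m : ℕ) (F : Finset ℕ) (t : ℕ → ℝ),
      g m (∑ n ∈ F, t n • e n) = if m ∈ F then t m else 0 := by
    intro m F t
    rw [map_sum]
    simp only [map_smul, hg, smul_eq_mul, mul_ite, mul_one, mul_zero]
    rw [Finset.sum_ite_eq' F m t]
  have hspan : ∀ x ∈ Submodule.span ℝ (Set.range e), ∃ (F : Finset ℕ) (t : ℕ → ℝ),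
      x = ∑ n ∈ F, t n • e n := by
    intro x hx
    obtain ⟨c, hc⟩ := Finsupp.mem_span_range_iff_exists_finsupp.1 hx
    exact ⟨c.support, c, hc.symm⟩
  have hK : 0 < C * ((1 + C) / 2) := by positivity
  -- the main inequality on the closure
  have hmain : ∀ x ∈ (Submodule.span ℝ (Set.range e)).topologicalClosure, ∀ (F : Finset ℕ)
      (σ : ℕ → ℝ), (∀ n, σ n = 1 ∨ σ n = -1) →
      ‖∑ n ∈ F, (σ n * g n x) • e n‖ ≤ C * ((1 + C) / 2) * ‖x‖ := by
    intro x hx F σ hσ
    have hcl : IsClosed {x : X | ‖∑ n ∈ F, (σ n * g n x) • e n‖ ≤ C * ((1 + C) / 2) * ‖x‖} := by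
      apply isClosed_le
      · fun_prop
      · fun_prop
    have hsub : (Submodule.span ℝ (Set.range e) : Set X) ⊆
        {x : X | ‖∑ n ∈ F, (σ n * g n x) • e n‖ ≤ C * ((1 + C) / 2) * ‖x‖} := by
      intro y hy
      obtain ⟨G, t, rfl⟩ := hspan y hy
      show ‖∑ n ∈ F, (σ n * g n (∑ n ∈ G, t n • e n)) • e n‖ ≤ _
      have h1 : ∑ n ∈ F, (σ n * g n (∑ n ∈ G, t n • e n)) • e n =
          ∑ n ∈ F ∩ G, (σ n * t n) • e n := by
        rw [← Finset.filter_mem_eq_inter, Finset.sum_filter]
        refine Finset.sum_congr rfl fun n _ => ?_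
        rw [hgs]
        by_cases hn : n ∈ G
        · rw [if_pos hn, if_pos hn]
        · rw [if_neg hn, if_neg hn, mul_zero, zero_smul]
      rw [h1]
      calc ‖∑ n ∈ F ∩ G, (σ n * t n) • e n‖ ≤ C * ‖∑ n ∈ F ∩ G, t n • e n‖ := h.2 _ t σ hσ
        _ ≤ C * ((1 + C) / 2 * ‖∑ n ∈ G, t n • e n‖) :=
          mul_le_mul_of_nonneg_left (sub h Finset.inter_subset_right t) (by linarith)
        _ = _ := by ring
    have hx' : x ∈ closure (Submodule.span ℝ (Set.range e) : Set X) := hx
    exact closure_minimal hsub hcl hx'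
  refine ⟨C * ((1 + C) / 2), fun m => (g m).comp
    (Submodule.span ℝ (Set.range e)).topologicalClosure.subtypeL, hK, ?_, ?_, ?_⟩
  · intro x F σ hσ
    exact hmain x x.2 F σ hσ
  · rintro ⟨x, hx⟩
    show Tendsto (fun n => ∑ i ∈ Finset.range n, g i x • e i) atTop (𝓝 x)
    rw [Metric.tendsto_atTop]
    intro ε hε
    obtain ⟨K, hKd⟩ : ∃ K, K = C * ((1 + C) / 2) := ⟨_, rfl⟩
    rw [← hKd] at hK hmain
    have hx' : x ∈ closure (Submodule.span ℝ (Set.range e) : Set X) := hx
    obtain ⟨y, hy, hxy⟩ := Metric.mem_closure_iff.1 hx' (ε / (K + 1)) (by positivity)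
    obtain ⟨G, t, hyG⟩ := hspan y hy
    obtain ⟨N, hN⟩ : ∃ N, ∀ n ∈ G, n < N := by
      refine ⟨G.sup id + 1, fun n hn => ?_⟩
      have := Finset.le_sup (f := id) hn
      simp only [id] at this
      omega
    refine ⟨N, fun n hn => ?_⟩
    have h1 : ∑ i ∈ Finset.range n, g i y • e i = y := by
      conv_rhs => rw [hyG]
      have hGn : G ⊆ Finset.range n := fun i hi => Finset.mem_range.2
        (lt_of_lt_of_le (hN i hi) hn)
      rw [← Finset.sum_subset hGn]
      · refine Finset.sum_congr rfl fun i hi => ?_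
        rw [hyG, hgs, if_pos hi]
      · intro i _ hi
        rw [hyG, hgs, if_neg hi, zero_smul]
    have hyc : y ∈ (Submodule.span ℝ (Set.range e)).topologicalClosure :=
      Submodule.le_topologicalClosure _ hy
    have h2 := hmain (x - y) (Submodule.sub_mem _ hx hyc) (Finset.range n) (fun _ => 1)
      (fun _ => Or.inl rfl)
    simp only [one_mul] at h2
    have h3 : ∑ i ∈ Finset.range n, g i (x - y) • e i =
        ∑ i ∈ Finset.range n, g i x • e i - y := by
      conv_rhs => rw [← h1]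
      rw [← Finset.sum_sub_distrib]
      refine Finset.sum_congr rfl fun i _ => ?_
      rw [map_sub, sub_smul]
    rw [h3] at h2
    rw [dist_eq_norm] at hxy ⊢
    have h4 : ∑ i ∈ Finset.range n, g i x • e i - x =
        (∑ i ∈ Finset.range n, g i x • e i - y) - (x - y) := by abel
    rw [h4]
    have h5 := norm_sub_le (∑ i ∈ Finset.range n, g i x • e i - y) (x - y)
    rw [lt_div_iff₀ (by positivity)] at hxy
    nlinarith
  · intro m F t x hx
    show g m (x : X) = _
    rw [hx, hgs]

end H857NC
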