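import Mathlib
import Pool.Agent.H857R2.NC.Stm

set_option autoImplicit false

/-! Module DER of helper857 (non complete smooth norms): directional derivatives of `N^2` and of
the series (helper715). -/

namespace H857NC

open Filter Topology Set

universe u

variable {X : Type u} [NormedAddCommGroup X] [NormedSpace ℝ X]

theorem DER_zero (N : Seminorm ℝ X) (hd : ∀ z, z ≠ 0 → DifferentiableAt ℝ N z) (w y : X) :
    DifferentiableAt ℝ (fun t : ℝ => (N (w + t • y)) ^ 2) 0 := by
  by_cases hw : w = 0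
  · have h1 : (fun t : ℝ => (N (w + t • y)) ^ 2) = fun t : ℝ => t ^ 2 * N y ^ 2 := by
      funext t
      rw [hw, zero_add, map_smul_eq_mul, mul_pow, Real.norm_eq_abs, sq_abs]
    rw [h1]
    fun_prop
  · have h1 : DifferentiableAt ℝ (fun t : ℝ => w + t • y) 0 := by fun_prop
    have h2 : DifferentiableAt ℝ N ((fun t : ℝ => w + t • y) 0) := by
      have : (fun t : ℝ => w + t • y) 0 = w := by simp
      rw [this]
      exact hd w hw
    exact (h2.comp (0 : ℝ) h1).pow 2

theorem DER_all (N : Seminorm ℝ X) (hd : ∀ z, z ≠ 0 → DifferentiableAt ℝ N z) (w y : X) (t0 : ℝ) :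
    DifferentiableAt ℝ (fun t : ℝ => (N (w + t • y)) ^ 2) t0 := by
  have h1 : (fun t : ℝ => (N (w + t • y)) ^ 2)
      = (fun t : ℝ => (N ((w + t0 • y) + t • y)) ^ 2) ∘ fun t : ℝ => t - t0 := by
    funext t
    show N (w + t • y) ^ 2 = N ((w + t0 • y) + (t - t0) • y) ^ 2
    rw [sub_smul]
    congr 2
    abel
  rw [h1]
  have h2 : DifferentiableAt ℝ (fun t : ℝ => t - t0) t0 := by fun_prop
  have h3 : DifferentiableAt ℝ (fun t : ℝ => (N ((w + t0 • y) + t • y)) ^ 2)
      ((fun t : ℝ => t - t0) t0) := by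
    have : (fun t : ℝ => t - t0) t0 = 0 := sub_self t0
    rw [this]
    exact DER_zero N hd _ y
  exact DifferentiableAt.comp (f := fun t : ℝ => t - t0) t0 h3 h2

theorem DER : DER_stm.{u} := by
  intro X _ _ N _ hd
  refine ⟨DER_zero N hd, ?_⟩
  intro v R hR w y
  have hNy : 0 ≤ N y := apply_nonneg N y
  have hNw : 0 ≤ N w := apply_nonneg N w
  have hR0 : 0 ≤ R := (apply_nonneg N (v 0)).trans (hR 0)
  set B : ℝ := N w + N y + R with hB
  have hB0 : 0 ≤ B := by positivity
  have hbound : ∀ k (t : ℝ), |t| ≤ 1 → N (w + t • y - v k) ≤ B := by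
    intro k t ht
    have h1 : N (w + t • y - v k) ≤ N (w + t • y) + N (v k) := map_sub_le_add N _ _
    have h2 : N (w + t • y) ≤ N w + N (t • y) := map_add_le_add N _ _
    have h3 : N (t • y) ≤ N y := by
      rw [map_smul_eq_mul, Real.norm_eq_abs]
      nlinarith
    have := hR k
    rw [hB]
    linarith
  have hsq : ∀ k (s t : ℝ), |s| ≤ 1 → |t| ≤ 1 →
      |N (w + s • y - v k) ^ 2 - N (w + t • y - v k) ^ 2| ≤ 2 * B * N y * |s - t| := by
    intro k s t hs ht
    have ha := hbound k s hs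
    have hb := hbound k t ht
    have ha0 : 0 ≤ N (w + s • y - v k) := apply_nonneg N _
    have hb0 : 0 ≤ N (w + t • y - v k) := apply_nonneg N _
    have h1 : |N (w + s • y - v k) - N (w + t • y - v k)| ≤ |s - t| * N y := by
      have h2 : |N (w + s • y - v k) - N (w + t • y - v k)|
          ≤ N ((w + s • y - v k) - (w + t • y - v k)) := abs_sub_map_le_sub N _ _
      have h3 : (w + s • y - v k) - (w + t • y - v k) = (s - t) • y := by
        rw [sub_smul]; abel
      rw [h3, map_smul_eq_mul, Real.norm_eq_abs] at h2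
      exact h2
    have h4 : N (w + s • y - v k) ^ 2 - N (w + t • y - v k) ^ 2
        = (N (w + s • y - v k) - N (w + t • y - v k))
          * (N (w + s • y - v k) + N (w + t • y - v k)) := by ring
    rw [h4, abs_mul, abs_of_nonneg (add_nonneg ha0 hb0)]
    calc |N (w + s • y - v k) - N (w + t • y - v k)|
          * (N (w + s • y - v k) + N (w + t • y - v k)) ≤ (|s - t| * N y) * (B + B) :=
          mul_le_mul h1 (add_le_add ha hb) (add_nonneg ha0 hb0)
            (mul_nonneg (abs_nonneg _) hNy)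
      _ = 2 * B * N y * |s - t| := by ring
  set g : ℕ → ℝ → ℝ := fun k t => (1 / 2 : ℝ) ^ k * (N (w + t • y - v k)) ^ 2 with hg
  have hgd : ∀ k t, DifferentiableAt ℝ (g k) t := by
    intro k t
    have h1 : DifferentiableAt ℝ (fun t : ℝ => (N ((w - v k) + t • y)) ^ 2) t :=
      DER_all N hd (w - v k) y t
    have h2 : (fun t : ℝ => (N ((w - v k) + t • y)) ^ 2)
        = fun t : ℝ => (N (w + t • y - v k)) ^ 2 := by
      funext t
      congr 2
      abel
    rw [h2] at h1
    exact h1.const_mul _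
  have hmem : ∀ t : ℝ, t ∈ Ioo (-1 : ℝ) 1 → |t| ≤ 1 := fun t ht => (abs_lt.mpr ⟨ht.1, ht.2⟩).le
  have hu : Summable (fun k : ℕ => (1 / 2 : ℝ) ^ k * (2 * B * N y)) :=
    (summable_geometric_of_lt_one (by norm_num) (by norm_num)).mul_right _
  have hg' : ∀ k t, t ∈ Ioo (-1 : ℝ) 1 → ‖deriv (g k) t‖ ≤ (1 / 2 : ℝ) ^ k * (2 * B * N y) := by
    intro k t ht
    refine norm_deriv_le_of_lip' (by positivity) ?_
    filter_upwards [isOpen_Ioo.mem_nhds ht] with s hs
    have h1 := hsq k s t (hmem s hs) (hmem t ht)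
    rw [Real.norm_eq_abs, Real.norm_eq_abs]
    have h2 : g k s - g k t
        = (1 / 2 : ℝ) ^ k * (N (w + s • y - v k) ^ 2 - N (w + t • y - v k) ^ 2) := by
      rw [hg]; ring
    rw [h2, abs_mul, abs_of_nonneg (by positivity : (0 : ℝ) ≤ (1 / 2) ^ k), mul_assoc]
    exact mul_le_mul_of_nonneg_left h1 (by positivity)
  have h0mem : (0 : ℝ) ∈ Ioo (-1 : ℝ) 1 := by constructor <;> norm_num
  have hg0 : Summable (fun k => g k 0) := by
    refine Summable.of_nonneg_of_le (fun k => ?_) (fun k => ?_)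
      ((summable_geometric_of_lt_one (by norm_num) (by norm_num)).mul_right (B ^ 2) :
        Summable (fun k : ℕ => (1 / 2 : ℝ) ^ k * B ^ 2))
    · show 0 ≤ (1 / 2 : ℝ) ^ k * (N (w + (0 : ℝ) • y - v k)) ^ 2
      positivity
    · show (1 / 2 : ℝ) ^ k * (N (w + (0 : ℝ) • y - v k)) ^ 2 ≤ (1 / 2 : ℝ) ^ k * B ^ 2
      have h1 := hbound k 0 (by norm_num)
      have h2 : 0 ≤ N (w + (0 : ℝ) • y - v k) := apply_nonneg N _
      exact mul_le_mul_of_nonneg_left (pow_le_pow_left₀ h2 h1 2) (by positivity)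
  have hmain := hasDerivAt_tsum_of_isPreconnected (g := g) (g' := fun k t => deriv (g k) t)
    hu isOpen_Ioo isPreconnected_Ioo (fun k t _ => (hgd k t).hasDerivAt) hg' h0mem hg0 h0mem
  exact hmain.differentiableAt

end H857NC
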