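import Mathlib
import Pool.Agent.H857R2.NC.Stm

/-!
The dual of a uniformly smooth space is uniformly convex.
-/

set_option autoImplicit false

namespace H857NC

open Filter Topology Set

universe u

section

variable {X : Type u} [NormedAddCommGroup X] [NormedSpace ℝ X]

private lemma duc_bound {f : StrongDual ℝ X} (hf : ‖f‖ = 1) (x : X) : f x ≤ ‖x‖ := by
  calc f x ≤ |f x| := le_abs_self _
    _ ≤ ‖f‖ * ‖x‖ := f.le_opNorm _
    _ = ‖x‖ := by rw [hf, one_mul]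

private lemma duc_one {ε τ : ℝ} (hτ : 0 < τ)
    (h : ∀ x y : X, ‖x‖ = 1 → ‖y‖ ≤ τ → ‖x + y‖ + ‖x - y‖ ≤ 2 + (ε / 4) * ‖y‖) (hε : 0 < ε)
    {f g : StrongDual ℝ X} (hf : ‖f‖ = 1) (hg : ‖g‖ = 1) (hfg : ε ≤ ‖f - g‖) (x : X)
    (hx : ‖x‖ = 1) : f x + g x ≤ 2 - τ * ε / 2 := by
  have h1 : 3 / 4 * ε < ‖f - g‖ := by linarith
  obtain ⟨z0, hz0, hz1⟩ := ContinuousLinearMap.exists_lt_apply_of_lt_opNorm (f - g) h1
  have h2 : ∃ z : X, ‖z‖ ≤ 1 ∧ 3 / 4 * ε < f z - g z := by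
    rw [_root_.sub_apply] at hz1
    rcases le_total 0 (f z0 - g z0) with h0 | h0
    · exact ⟨z0, hz0.le, by rwa [Real.norm_eq_abs, abs_of_nonneg h0] at hz1⟩
    · refine ⟨-z0, by rw [norm_neg]; exact hz0.le, ?_⟩
      rw [map_neg, map_neg]
      rw [Real.norm_eq_abs, abs_of_nonpos h0] at hz1
      linarith
  obtain ⟨z, hz, hz'⟩ := h2
  have h3 : ‖τ • z‖ ≤ τ := by
    rw [norm_smul, Real.norm_eq_abs, abs_of_pos hτ]
    nlinarith
  have h4 := h x (τ • z) hx h3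
  have h5 := duc_bound hf (x + τ • z)
  have h6 := duc_bound hg (x - τ • z)
  rw [map_add, map_smul, smul_eq_mul] at h5
  rw [map_sub, map_smul, smul_eq_mul] at h6
  have h7 : τ * (3 / 4 * ε) ≤ τ * (f z - g z) := mul_le_mul_of_nonneg_left hz'.le hτ.le
  have h8 : ε / 4 * ‖τ • z‖ ≤ ε / 4 * τ := mul_le_mul_of_nonneg_left h3 (by linarith)
  linarith

end

theorem DUC : DUC_stm.{u} := by
  intro X _ _ h
  refine ⟨fun ε hε => ?_⟩
  obtain ⟨τ, hτ, h1⟩ := h (ε / 4) (by linarith)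
  refine ⟨min (τ * ε / 2) 1, lt_min (by positivity) one_pos, fun f hf g hg hfg => ?_⟩
  have h2 : min (τ * ε / 2) 1 ≤ τ * ε / 2 := min_le_left _ _
  have h3 : min (τ * ε / 2) 1 ≤ 1 := min_le_right _ _
  refine ContinuousLinearMap.opNorm_le_of_unit_norm (by linarith) fun x hx => ?_
  have h4 := duc_one hτ h1 hε hf hg hfg x hx
  have h5 := duc_one hτ h1 hε hf hg hfg (-x) (by rw [norm_neg]; exact hx)
  rw [map_neg, map_neg] at h5
  rw [_root_.add_apply, Real.norm_eq_abs, abs_le]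
  constructor <;> linarith

end H857NC
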