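import Mathlib
import Pool.Agent.H857R2.NC.Stm

set_option autoImplicit false

namespace H857NC

open Filter Topology Set

universe u

variable {X : Type u} [NormedAddCommGroup X] [NormedSpace ℝ X]

/-- non complete norm of class `C^k`, dominated by the given norm and not equivalent to it -/
def NonComplete (k : ℕ∞) (X : Type u) [NormedAddCommGroup X] [NormedSpace ℝ X] : Prop :=
  ∃ p : Seminorm ℝ X, (∀ x, p x = 0 → x = 0) ∧ ContDiffOn ℝ k p {x | x ≠ 0} ∧
    ∃ v : ℕ → X, (∀ ε : ℝ, 0 < ε → ∃ M, ∀ m ≥ M, ∀ n ≥ M, p (v m - v n) < ε) ∧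
      ¬ ∃ x, ∀ ε : ℝ, 0 < ε → ∃ M, ∀ n ≥ M, p (v n - x) < ε

lemma IsEquivNorm.eq_zero {N : Seminorm ℝ X} (hN : IsEquivNorm N) {x : X} (h : N x = 0) :
    x = 0 := by
  obtain ⟨a, ha, hl⟩ := hN.lower
  have := hl x
  rw [h] at this
  have h2 : ‖x‖ ≤ 0 := by
    by_contra hcon
    push Not at hcon
    have := mul_pos ha hcon
    linarith
  exact norm_le_zero_iff.1 h2

/-- from a projection with separable infinite dimensional range to the operator `T` -/
theorem exists_op [CompleteSpace X] (hTOT : TOT_stm.{u}) (hBIO : BIO_stm.{u}) (hOPT : OPT_stm.{u})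
    (hX : HasSepProj X) :
    ∃ T : X →L[ℝ] X, Function.Injective T ∧ ∀ a : ℝ, 0 < a → ∃ x, ‖T x‖ < a * ‖x‖ := by
  obtain ⟨P, hP, hsep, hinf⟩ := hX
  set E : Submodule ℝ X := LinearMap.range (P : X →ₗ[ℝ] X) with hE
  have hEm : ∀ x, x ∈ E ↔ P x = x := by
    intro x
    constructor
    · rintro ⟨y, rfl⟩
      exact hP y
    · intro h
      exact ⟨x, h⟩
  have hEs : TopologicalSpace.IsSeparable (E : Set X) := by
    have : (E : Set X) = Set.range P := by
      ext x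
      constructor
      · rintro ⟨y, rfl⟩; exact ⟨y, rfl⟩
      · rintro ⟨y, rfl⟩; exact ⟨y, rfl⟩
    rw [this]; exact hsep
  obtain ⟨f, v, hf, htot, hv, hfv⟩ := hTOT X E hEs hinf
  obtain ⟨e, g, he, hg⟩ := hBIO X E hinf
  refine hOPT X P hP f v e g hf (fun x hx => htot x ((hEm x).2 hx)) (fun n => ?_) hfv
    (fun n => ?_) hg
  · exact ⟨(hEm _).1 (hv n).1, (hv n).2⟩
  · exact ⟨(hEm _).1 (he n).1, (he n).2⟩

/-- from a projection to a non complete smooth norm -/
theorem nonComplete_of_proj [CompleteSpace X] (hNC : NC_stm.{u}) (hTOT : TOT_stm.{u})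
    (hBIO : BIO_stm.{u}) (hOPT : OPT_stm.{u}) (hX : HasSepProj X) (k : ℕ∞) (N : Seminorm ℝ X)
    (hN : IsEquivNorm N) (hs : ContDiffOn ℝ k N {x | x ≠ 0}) : NonComplete k X := by
  obtain ⟨T, hT, hTb⟩ := exists_op hTOT hBIO hOPT hX
  have h0 : ∀ x, T x = 0 → x = 0 := fun x h => hT (by rw [h, map_zero])
  refine ⟨N.comp (T : X →ₗ[ℝ] X), fun x hx => h0 x (hN.eq_zero hx), ?_, ?_⟩
  · have : (⇑(N.comp (T : X →ₗ[ℝ] X))) = N ∘ T := rfl
    rw [this]
    refine hs.comp T.contDiff.contDiffOn ?_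
    intro x hx
    exact fun h => hx (h0 x h)
  · obtain ⟨b, hb, hub⟩ := hN.upper
    refine hNC X _ (fun x hx => h0 x (hN.eq_zero hx)) ⟨b * ‖T‖, fun x => ?_⟩ fun a ha => ?_
    · calc N (T x) ≤ b * ‖T x‖ := hub _
        _ ≤ b * (‖T‖ * ‖x‖) := by gcongr; exact T.le_opNorm x
        _ = b * ‖T‖ * ‖x‖ := by ring
    · obtain ⟨x, hx⟩ := hTb (a / b) (by positivity)
      refine ⟨x, ?_⟩
      calc N (T x) ≤ b * ‖T x‖ := hub _
        _ < b * (a / b * ‖x‖) := by gcongr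
        _ = a * ‖x‖ := by field_simp

/-- Case A -/
theorem caseA [CompleteSpace X] (hSIG : SIG_stm.{u}) (hPRJ : PRJ_stm.{u}) (hSUB : SUB_stm.{u})
    (hSUP : SUP_stm.{u}) (hLIM : LIM_stm.{u}) (N : Seminorm ℝ X) (hN : IsEquivNorm N)
    (hd : ∀ z, z ≠ 0 → DifferentiableAt ℝ N z) (hX : HasC0Seq X) : HasSepProj X := by
  obtain ⟨h, δ, C, hδ, hlow, hC⟩ := hX
  obtain ⟨hsum, hcomb⟩ := hSIG X h C hC
  obtain ⟨a, ha, hl⟩ := hN.lower
  obtain ⟨b, hb, hu⟩ := hN.upper
  have hCn : ∀ n, ‖h n‖ ≤ C := by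
    intro n
    have := hcomb {n} (fun _ => 1) 1 zero_le_one (by simp)
    simpa using this
  have hC0 : 0 ≤ C := (norm_nonneg _).trans (hCn 0)
  set δ' := a * δ with hδ'
  have hδ'0 : 0 < δ' := mul_pos ha hδ
  have hlow' : ∀ n, δ' ≤ N (h n) := fun n =>
    (mul_le_mul_of_nonneg_left (hlow n) ha.le).trans (hl _)
  have hup' : ∀ n, N (h n) ≤ b * C := fun n =>
    (hu _).trans (mul_le_mul_of_nonneg_left (hCn n) hb.le)
  obtain ⟨w, Ψ, hw, hΨ, hΨd⟩ := hSUP X N hN hd h (b * C) hup' (δ' / 8) (by positivity)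
  obtain ⟨φ, f, hφ, hfN, hfh, hlim⟩ := hLIM X N hN h δ' (b * C) hδ'0 hlow' hup' w Ψ hw hΨ hΨd
  -- the pointwise limit
  choose l hl' using hlim
  -- weak null
  have hweak : ∀ f : StrongDual ℝ X, Tendsto (fun n => f (h n)) atTop (𝓝 0) := by
    intro f
    have hs : Summable fun n => |f (h n)| :=
      summable_of_sum_le (fun n => abs_nonneg _) (hsum f)
    exact (tendsto_zero_iff_abs_tendsto_zero _).2 hs.tendsto_atTop_zero
  -- limit functional
  have hfb : ∀ i x, |f i x| ≤ b * ‖x‖ := fun i x => (hfN i x).trans (hu x)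
  have hlb : ∀ x, |l x| ≤ b * ‖x‖ := fun x =>
    le_of_tendsto (hl' x).abs (Eventually.of_forall fun i => hfb i x)
  let L0 : X →ₗ[ℝ] ℝ :=
    { toFun := l
      map_add' := fun x y => tendsto_nhds_unique (hl' (x + y))
        (by simpa only [map_add] using (hl' x).add (hl' y))
      map_smul' := fun c x => tendsto_nhds_unique (hl' (c • x))
        (by simpa only [map_smul, smul_eq_mul, RingHom.id_apply] using (hl' x).const_mul c) }
  let L : StrongDual ℝ X := L0.mkContinuous b (fun x => by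
    rw [Real.norm_eq_abs]; exact hlb x)
  have hL : ∀ x, L x = l x := fun x => rfl
  -- g_i = f_i - L
  have hgh : ∀ᶠ i in atTop, δ' / 4 ≤ (f i - L) (h (φ i)) := by
    have h1 : Tendsto (fun i => L (h (φ i))) atTop (𝓝 0) := (hweak L).comp hφ.tendsto_atTop
    have h2 : ∀ᶠ i in atTop, L (h (φ i)) < δ' / 4 := h1.eventually (gt_mem_nhds (by positivity))
    filter_upwards [h2] with i hi
    have := hfh i
    rw [_root_.sub_apply]
    linarith
  obtain ⟨i0, hi0⟩ := eventually_atTop.1 hgh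
  set g : ℕ → StrongDual ℝ X := fun i => f (i + i0) - L with hg
  set h' : ℕ → X := fun i => h (φ (i + i0)) with hh'
  have hgd : ∀ i, δ' / 4 ≤ g i (h' i) := fun i => hi0 (i + i0) (by omega)
  have hg0 : ∀ x, Tendsto (fun i => g i x) atTop (𝓝 0) := by
    intro x
    have h1 : Tendsto (fun i => f (i + i0) x - L x) atTop (𝓝 (l x - l x)) := by
      refine Tendsto.sub ?_ (by rw [hL]; exact tendsto_const_nhds)
      exact (hl' x).comp (tendsto_add_atTop_nat i0)
    rw [sub_self] at h1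
    exact h1
  have hgb : ∀ i, ‖g i‖ ≤ b + b := by
    intro i
    refine (norm_sub_le _ _).trans (add_le_add ?_ ?_)
    · exact ContinuousLinearMap.opNorm_le_bound _ hb.le fun x => by
        rw [Real.norm_eq_abs]; exact hfb _ x
    · exact ContinuousLinearMap.opNorm_le_bound _ hb.le fun x => by
        rw [Real.norm_eq_abs]; exact hlb x
  have hφ' : StrictMono fun i => φ (i + i0) := fun i j hij => hφ (by omega)
  have hweak' : ∀ f : StrongDual ℝ X, Tendsto (fun n => f (h' n)) atTop (𝓝 0) := fun f =>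
    (hweak f).comp hφ'.tendsto_atTop
  -- normalise
  have hgpos : ∀ i, 0 < g i (h' i) := fun i => lt_of_lt_of_le (by positivity) (hgd i)
  set g1 : ℕ → StrongDual ℝ X := fun i => (g i (h' i))⁻¹ • g i with hg1
  set G : ℝ := 4 / δ' * (b + b) with hG
  have hinv : ∀ i, |(g i (h' i))⁻¹| ≤ 4 / δ' := by
    intro i
    rw [abs_of_pos (inv_pos.2 (hgpos i))]
    rw [inv_le_comm₀ (hgpos i) (by positivity), inv_div]
    exact hgd i
  have hg1b : ∀ i, ‖g1 i‖ ≤ G := by
    intro i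
    rw [hg1, hG, norm_smul, Real.norm_eq_abs]
    exact mul_le_mul (hinv i) (hgb i) (norm_nonneg _) (by positivity)
  have hg10 : ∀ x, Tendsto (fun i => g1 i x) atTop (𝓝 0) := by
    intro x
    have h1 : Tendsto (fun i => 4 / δ' * |g i x|) atTop (𝓝 0) := by
      simpa using ((hg0 x).abs.const_mul (4 / δ'))
    refine squeeze_zero_norm (fun i => ?_) h1
    rw [hg1, _root_.smul_apply, smul_eq_mul, norm_mul, Real.norm_eq_abs, Real.norm_eq_abs]
    exact mul_le_mul_of_nonneg_right (hinv i) (abs_nonneg _)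
  have hg11 : ∀ i, g1 i (h' i) = 1 := by
    intro i
    rw [hg1, _root_.smul_apply, smul_eq_mul, inv_mul_cancel₀ (hgpos i).ne']
  have hG0 : 0 ≤ G := by positivity
  set κ : ℝ := 1 / (16 * (C + 1) * (G + 1)) with hκ
  have hκ0 : 0 < κ := by positivity
  obtain ⟨ψ, hψ, hsmall⟩ := hSUB X h' g1 hg10 hweak' κ hκ0
  refine hPRJ X (fun n => h' (ψ n)) (fun n => g1 (ψ n)) C G κ ?_ (fun n => hg1b _)
    (fun x => (hg10 x).comp hψ.tendsto_atTop) (fun n => hg11 _) hκ0.le ?_ hsmall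
  · intro F t M hM ht
    -- reindex the sum
    set θ : ℕ → ℕ := fun n => φ (ψ n + i0) with hθ
    have hθi : Function.Injective θ := fun m n hmn => by
      have := hφ'.injective hmn
      exact hψ.injective this
    have hs : ∑ n ∈ F, t n • h' (ψ n) = ∑ m ∈ F.image θ, (t (Function.invFun θ m)) • h m := by
      rw [Finset.sum_image (fun x _ y _ hxy => hθi hxy)]
      refine Finset.sum_congr rfl fun n _ => ?_
      rw [Function.leftInverse_invFun hθi n]
    rw [hs]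
    refine hcomb _ _ M hM fun m hm => ?_
    obtain ⟨n, hn, rfl⟩ := Finset.mem_image.1 hm
    rw [Function.leftInverse_invFun hθi n]
    exact ht n hn
  · rw [hκ]
    have : (16 : ℝ) * (1 / (16 * (C + 1) * (G + 1))) * (C + 1) * (G + 1) = 1 := by
      field_simp
    exact this.le

/-- transfer of projections along an isomorphism -/
theorem hasSepProj_of_equiv {Y : Type u} [NormedAddCommGroup Y] [NormedSpace ℝ Y]
    (e : X ≃L[ℝ] Y) (hY : HasSepProj Y) : HasSepProj X := by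
  obtain ⟨P, hP, hsep, hinf⟩ := hY
  refine ⟨(e.symm : Y →L[ℝ] X).comp (P.comp (e : X →L[ℝ] Y)), fun x => ?_, ?_, ?_⟩
  · simp [hP]
  · have : Set.range ((e.symm : Y →L[ℝ] X).comp (P.comp (e : X →L[ℝ] Y))) =
        e.symm '' Set.range P := by
      ext x
      constructor
      · rintro ⟨y, rfl⟩
        exact ⟨P (e y), ⟨e y, rfl⟩, rfl⟩
      · rintro ⟨_, ⟨z, rfl⟩, rfl⟩
        exact ⟨e.symm z, by simp⟩
    rw [this]
    exact hsep.image e.symm.continuous
  · intro hfin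
    apply hinf
    have : LinearMap.range (P : Y →ₗ[ℝ] Y) =
        (LinearMap.range (((e.symm : Y →L[ℝ] X).comp (P.comp (e : X →L[ℝ] Y)) : X →L[ℝ] X) :
          X →ₗ[ℝ] X)).map (e.toLinearEquiv : X →ₗ[ℝ] Y) := by
      ext y
      constructor
      · rintro ⟨z, rfl⟩
        refine ⟨e.symm (P z), ⟨e.symm z, by simp⟩, by simp⟩
      · rintro ⟨_, ⟨z, rfl⟩, rfl⟩
        exact ⟨e z, by simp⟩
    rw [this]
    infer_instance

/-- a uniformly smooth infinite dimensional Banach space has a projection -/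
theorem proj_of_usmooth [CompleteSpace X] (hinf : ¬ FiniteDimensional ℝ X)
    (hDUC : DUC_stm.{u}) (hMPT : MPT_stm.{u}) (hLN1 : LN1_stm.{u}) (hLN2 : LN2_stm.{u})
    (hU : ∀ η : ℝ, 0 < η → ∃ τ > 0, ∀ x y : X, ‖x‖ = 1 → ‖y‖ ≤ τ →
      ‖x + y‖ + ‖x - y‖ ≤ 2 + η * ‖y‖) : HasSepProj X := by
  haveI hUC : UniformConvexSpace (StrongDual ℝ X) := hDUC X hU
  obtain ⟨E, G, hEc, hEs, hEi, hGc, hnorm, htot⟩ := hLN1 X hinf
  haveI : UniformConvexSpace G := by
    constructor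
    intro ε hε
    obtain ⟨δ, hδ, h⟩ := hUC.uniform_convex hε
    refine ⟨δ, hδ, fun x hx y hy hxy => ?_⟩
    exact h (x := (x : StrongDual ℝ X)) hx hy hxy
  haveI : CompleteSpace G := hGc.completeSpace_coe
  obtain ⟨P, hPE, hPid⟩ := hLN2 X E G hEc hnorm htot (hMPT G)
  have hrange : (LinearMap.range (P : X →ₗ[ℝ] X)) = E := by
    ext x
    constructor
    · rintro ⟨y, rfl⟩; exact hPE y
    · intro hx; exact ⟨x, hPid x hx⟩
  refine ⟨P, fun x => hPid _ (hPE x), ?_, ?_⟩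
  · have : Set.range P = (E : Set X) := by
      rw [← hrange]; rfl
    rw [this]; exact hEs
  · rw [hrange]; exact hEi

/-- Case B -/
theorem caseB [CompleteSpace X] (hinf : ¬ FiniteDimensional ℝ X) (hTR : TR_stm.{u})
    (hCB : CB_stm.{u}) (hPHI : PHI_stm.{u}) (hUST : UST_stm.{u})
    (hDUC : DUC_stm.{u}) (hMPT : MPT_stm.{u}) (hLN1 : LN1_stm.{u}) (hLN2 : LN2_stm.{u})
    (N : Seminorm ℝ X) (hN : IsEquivNorm N) (hd : ∀ z, z ≠ 0 → DifferentiableAt ℝ N z)
    (hL : LocUC N) (hX : ¬ HasC0Seq X) : HasSepProj X := by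
  haveI : Nontrivial X := by
    by_contra hcon
    rw [not_nontrivial_iff_subsingleton] at hcon
    exact hinf inferInstance
  obtain ⟨K, b, c, r, hc, hr, h1, h2, h3, h4⟩ := hCB X N hN hL hX
  obtain ⟨Φ, g1, g2, g3, g4, g5, g6, g7⟩ := hPHI X N hN hd K b c r hc hr h1 h2 h3 h4
  obtain ⟨M, hM, hMU⟩ := hUST X Φ c r hc hr g1 g2 g3 g4 g5 g6 g7
  obtain ⟨Y, _, _, e, he⟩ := hTR X M hM
  haveI : CompleteSpace Y := (completeSpace_congr (e := e.toEquiv)
    (e.isUniformEmbedding)).1 inferInstance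
  apply hasSepProj_of_equiv e
  refine proj_of_usmooth (fun hfin => hinf ?_) hDUC hMPT hLN1 hLN2 ?_
  · exact LinearEquiv.finiteDimensional e.symm.toLinearEquiv
  · intro η hη
    obtain ⟨τ, hτ, h⟩ := hMU η hη
    refine ⟨τ, hτ, fun x y hx hy => ?_⟩
    have hxy : ∀ z : Y, ‖z‖ = M (e.symm z) := fun z => by rw [← he, e.apply_symm_apply]
    rw [hxy, hxy, hxy y, map_add, map_sub]
    exact h _ _ (by rw [← hxy]; exact hx) (by rw [← hxy]; exact hy)

/-- a `C^2` norm has locally uniformly continuous derivative -/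
theorem locUC_of_contDiff (N : Seminorm ℝ X) (hs : ContDiffOn ℝ 2 N {x | x ≠ 0}) : LocUC N := by
  intro x hx
  have hopen : IsOpen {x : X | x ≠ 0} := isOpen_ne
  have h1 : ContDiffOn ℝ 1 (fderiv ℝ N) {x | x ≠ 0} :=
    hs.fderiv_of_isOpen hopen (by norm_num)
  have h2 : ContDiffAt ℝ 1 (fderiv ℝ N) x := h1.contDiffAt (hopen.mem_nhds hx)
  obtain ⟨K, t, ht, hK⟩ := h2.exists_lipschitzOnWith
  obtain ⟨r, hr, hrt⟩ := Metric.mem_nhds_iff.1 ht
  exact ⟨r, hr, (hK.mono hrt).uniformContinuousOn⟩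

end H857NC
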