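import Mathlib
import Pool.Agent.H857R2.NC.Asm

set_option autoImplicit false

namespace H857NC

open Filter Topology Set ZeroAtInfty

universe u

variable {X : Type u} [NormedAddCommGroup X] [NormedSpace ℝ X]

lemma isEquivNorm_continuous {N : Seminorm ℝ X} (hN : ∃ b : ℝ, ∀ x, N x ≤ b * ‖x‖) :
    Continuous N := by
  obtain ⟨b, hb⟩ := hN
  have : LipschitzWith (Real.toNNReal |b|) N := by
    apply LipschitzWith.of_dist_le_mul
    intro x y
    rw [Real.dist_eq, dist_eq_norm, Real.coe_toNNReal _ (abs_nonneg b)]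
    refine (abs_sub_map_le_sub N x y).trans ((hb _).trans ?_)
    exact mul_le_mul_of_nonneg_right (le_abs_self b) (norm_nonneg _)
  exact this.continuous

/-- from a differentiable norm to a `NonComplete 1` -/
theorem nonComplete_one [CompleteSpace X] (hNC : NC_stm.{u}) (hCD1 : CD1_stm.{u})
    (h : ∃ p : Seminorm ℝ X, (∀ x, p x = 0 → x = 0) ∧ (∃ b : ℝ, ∀ x, p x ≤ b * ‖x‖) ∧
      (∀ a : ℝ, 0 < a → ∃ x, p x < a * ‖x‖) ∧ ∀ x, x ≠ 0 → DifferentiableAt ℝ p x) :
    NonComplete 1 X := by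
  obtain ⟨p, hp0, hpb, hpa, hpd⟩ := h
  refine ⟨p, hp0, ?_, hNC X p hp0 hpb hpa⟩
  exact hCD1 X p {x | x ≠ 0} p.convexOn (isEquivNorm_continuous hpb) isOpen_ne hpd

/-- the case of a reflexive subspace -/
theorem nonComplete_of_reflexive [CompleteSpace X] (hNC : NC_stm.{u}) (hCD1 : CD1_stm.{u})
    (hTOT : TOT_stm.{u}) (hQUO : QUO_stm.{u}) (hRSB : RSB_stm.{u}) (hATT : ATT_stm.{u})
    (hQSN : QSN_stm.{u}) (N : Seminorm ℝ X) (hN : IsEquivNorm N)
    (hd : ∀ z, z ≠ 0 → DifferentiableAt ℝ N z) (E : Submodule ℝ X) (hEc : IsClosed (E : Set X))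
    (hEi : ¬ FiniteDimensional ℝ E)
    (hEr : Function.Surjective (NormedSpace.inclusionInDoubleDual ℝ E)) : NonComplete 1 X := by
  obtain ⟨E', hE'c, hE'i, hE's, hE'r⟩ := hRSB X E hEc hEi hEr
  obtain ⟨M, hMb, hM0, hMd⟩ := hQSN X N hN hd E' (hATT X N hN E' hE'r)
  obtain ⟨f, v, hf, htot, hv, hfv⟩ := hTOT X E' hE's hE'i
  exact nonComplete_one hNC hCD1 (hQUO X M hMb hMd f v hf
    (fun x hx => htot x ((hM0 x).1 hx)) (fun n => ⟨(hM0 _).2 (hv n).1, (hv n).2⟩) hfv)

/-- transfer -/
theorem nonComplete_of_equiv {Y : Type u} [NormedAddCommGroup Y] [NormedSpace ℝ Y]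
    (e : X ≃L[ℝ] Y) (k : ℕ∞) (hY : NonComplete k Y) : NonComplete k X := by
  obtain ⟨p, hp0, hps, v, hv, hv2⟩ := hY
  refine ⟨p.comp (e.toLinearEquiv : X →ₗ[ℝ] Y), fun x hx => ?_, ?_, fun n => e.symm (v n), ?_, ?_⟩
  · have := hp0 _ hx
    exact e.injective (by rw [map_zero]; exact this)
  · have : (⇑(p.comp (e.toLinearEquiv : X →ₗ[ℝ] Y))) = p ∘ (e : X →L[ℝ] Y) := rfl
    rw [this]
    refine hps.comp (e : X →L[ℝ] Y).contDiff.contDiffOn ?_
    intro x hx h
    exact hx (e.injective (by rw [map_zero]; exact h))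
  · intro ε hε
    obtain ⟨M, hM⟩ := hv ε hε
    refine ⟨M, fun m hm n hn => ?_⟩
    have := hM m hm n hn
    simpa [Seminorm.comp_apply] using this
  · rintro ⟨x, hx⟩
    apply hv2
    refine ⟨e x, fun ε hε => ?_⟩
    obtain ⟨M, hM⟩ := hx ε hε
    refine ⟨M, fun n hn => ?_⟩
    have := hM n hn
    simpa [Seminorm.comp_apply] using this

/-- the case of an LUR dual norm -/
theorem nonComplete_of_lur [CompleteSpace X] (hNC : NC_stm.{u}) (hCD1 : CD1_stm.{u})
    (hTOT : TOT_stm.{u}) (hLUR : LUR_stm.{u}) (hinf : ¬ FiniteDimensional ℝ X)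
    (hl : ∀ (g : StrongDual ℝ X) (gn : ℕ → StrongDual ℝ X),
      Tendsto (fun n => 2 * ‖g‖ ^ 2 + 2 * ‖gn n‖ ^ 2 - ‖g + gn n‖ ^ 2) atTop (𝓝 0) →
      Tendsto gn atTop (𝓝 g)) : NonComplete 1 X := by
  -- a separable closed infinite dimensional subspace
  have hli : ∃ b : ℕ → X, LinearIndependent ℝ b := by
    have h1 : ¬ (Module.rank ℝ X < Cardinal.aleph0) := fun h =>
      hinf (Module.rank_lt_aleph0_iff.1 h)
    push Not at h1
    obtain ⟨s, hs1, hs2⟩ := le_rank_iff_exists_linearIndependent.1 h1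
    haveI : Infinite s := by
      rw [Cardinal.infinite_iff, hs1]
    let φ := Infinite.natEmbedding s
    refine ⟨fun n => (φ n : X), ?_⟩
    have h3 : LinearIndependent ℝ (fun x : s => (x : X)) := hs2
    exact h3.comp φ φ.injective
  obtain ⟨b, hb⟩ := hli
  set E : Submodule ℝ X := (Submodule.span ℝ (Set.range b)).topologicalClosure with hE
  have hEc : IsClosed (E : Set X) := Submodule.isClosed_topologicalClosure _
  have hEs : TopologicalSpace.IsSeparable (E : Set X) := by
    have h1 : TopologicalSpace.IsSeparable ((Submodule.span ℝ (Set.range b) : Submodule ℝ X) : Set X) :=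
      (Set.countable_range b).isSeparable.span
    rw [hE, Submodule.topologicalClosure_coe]
    exact h1.closure
  have hEi : ¬ FiniteDimensional ℝ E := by
    intro hfin
    have hle : Submodule.span ℝ (Set.range b) ≤ E := Submodule.le_topologicalClosure _
    have h2 : LinearIndependent ℝ (fun n => (⟨b n, hle (Submodule.subset_span ⟨n, rfl⟩)⟩ : E)) := by
      apply LinearIndependent.of_comp E.subtype
      exact hb
    have h3 := h2.lt_aleph0_of_finiteDimensional
    simp at h3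
  obtain ⟨f, v, hf, htot, hv, hfv⟩ := hTOT X E hEs hEi
  exact nonComplete_one hNC hCD1 (hLUR X hl E hEc f v hf htot hv hfv)

/-- a copy of `c_0` gives a sequence -/
theorem hasC0Seq_of_embedding (J : C₀(ℕ, ℝ) →L[ℝ] X) (c : ℝ) (hc : 0 < c)
    (hJ : ∀ x, c * ‖x‖ ≤ ‖J x‖) : HasC0Seq X := by
  classical
  let e : ℕ → C₀(ℕ, ℝ) := fun n =>
    { toFun := fun m => if m = n then 1 else 0
      continuous_toFun := continuous_of_discreteTopology
      zero_at_infty' := by
        refine tendsto_const_nhds.congr' ?_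
        rw [cocompact_eq_cofinite]
        have : {n}ᶜ ∈ (cofinite : Filter ℕ) := (Set.finite_singleton n).compl_mem_cofinite
        filter_upwards [this] with m hm
        have : m ≠ n := hm
        simp [this] }
  have he : ∀ n m, e n m = if m = n then 1 else 0 := fun n m => rfl
  refine ⟨fun n => J (e n), c, ‖J‖, hc, fun n => ?_, ?_⟩
  · have h1 : 1 ≤ ‖e n‖ := by
      have := (e n).toBCF.norm_coe_le_norm n
      rw [ZeroAtInftyContinuousMap.norm_toBCF_eq_norm] at this
      have h2 : (e n).toBCF n = 1 := by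
        show e n n = 1
        rw [he]; simp
      rw [h2] at this
      simpa using this
    calc c = c * 1 := (mul_one c).symm
      _ ≤ c * ‖e n‖ := by gcongr
      _ ≤ ‖J (e n)‖ := hJ _
  · intro F σ hσ
    have h1 : ∑ n ∈ F, σ n • J (e n) = J (∑ n ∈ F, σ n • e n) := by
      rw [map_sum]; simp only [map_smul]
    rw [h1]
    have h2 : ‖∑ n ∈ F, σ n • e n‖ ≤ 1 := by
      rw [← ZeroAtInftyContinuousMap.norm_toBCF_eq_norm]
      refine (BoundedContinuousFunction.norm_le zero_le_one).2 fun m => ?_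
      have h3 : (∑ n ∈ F, σ n • e n) m = ∑ n ∈ F, σ n * (if m = n then 1 else 0) := by
        have : ∀ G : Finset ℕ, (∑ n ∈ G, σ n • e n) m = ∑ n ∈ G, σ n * (if m = n then 1 else 0) := by
          intro G
          induction G using Finset.induction_on with
          | empty => simp
          | insert a s ha ih =>
            rw [Finset.sum_insert ha, Finset.sum_insert ha, ZeroAtInftyContinuousMap.add_apply, ih]
            rfl
        exact this F
      show ‖(∑ n ∈ F, σ n • e n) m‖ ≤ 1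
      rw [h3]
      simp only [mul_ite, mul_one, mul_zero, Finset.sum_ite_eq]
      split
      · rcases hσ m with h | h <;> rw [h] <;> simp
      · simp
    calc ‖J (∑ n ∈ F, σ n • e n)‖ ≤ ‖J‖ * ‖∑ n ∈ F, σ n • e n‖ := J.le_opNorm _
      _ ≤ ‖J‖ * 1 := by gcongr
      _ = ‖J‖ := mul_one _

end H857NC
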