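import Mathlib
import Pool.Agent.H857R2.NC.Asm2

/-!
Assembly of the final theorem from the modules (as hypotheses).
-/

set_option autoImplicit false

namespace H857NC

open Filter Topology Set ZeroAtInfty

universe u

/-- all module statements together -/
structure AllStm : Prop where
  nc : NC_stm.{u}
  tr : TR_stm.{u}
  tot : TOT_stm.{u}
  bio : BIO_stm.{u}
  opt : OPT_stm.{u}
  sig : SIG_stm.{u}
  prj : PRJ_stm.{u}
  sub : SUB_stm.{u}
  sup : SUP_stm.{u}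
  lim : LIM_stm.{u}
  cb : CB_stm.{u}
  phi : PHI_stm.{u}
  ust : UST_stm.{u}
  duc : DUC_stm.{u}
  mpt : MPT_stm.{u}
  ln1 : LN1_stm.{u}
  ln2 : LN2_stm.{u}
  cd1 : CD1_stm.{u}
  quo : QUO_stm.{u}
  rsb : RSB_stm.{u}
  att : ATT_stm.{u}
  qsn : QSN_stm.{u}
  lur : LUR_stm.{u}

variable {X : Type u} [NormedAddCommGroup X] [NormedSpace ℝ X]

theorem proj_of_locUC (H : AllStm.{u}) [CompleteSpace X] (hinf : ¬ FiniteDimensional ℝ X)
    (N : Seminorm ℝ X) (hN : IsEquivNorm N) (hd : ∀ z, z ≠ 0 → DifferentiableAt ℝ N z)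
    (hL : LocUC N) : HasSepProj X := by
  by_cases hX : HasC0Seq X
  · exact caseA H.sig H.prj H.sub H.sup H.lim N hN hd hX
  · exact caseB hinf H.tr H.cb H.phi H.ust H.duc H.mpt H.ln1 H.ln2 N hN hd hL hX

lemma diff_of_contDiffOn {k : ℕ∞} (hk : 1 ≤ k) (N : Seminorm ℝ X)
    (hs : ContDiffOn ℝ k N {x | x ≠ 0}) : ∀ z, z ≠ 0 → DifferentiableAt ℝ N z := by
  intro z hz
  refine (hs.contDiffAt (isOpen_ne.mem_nhds hz)).differentiableAt ?_
  intro h
  have h1 : k = 0 := by exact_mod_cast h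
  rw [h1] at hk
  simp at hk

theorem part_ge_two (H : AllStm.{u}) (k : ℕ∞) (hk : 2 ≤ k) [CompleteSpace X]
    (hinf : ¬ FiniteDimensional ℝ X)
    (N : Seminorm ℝ X) (hN : IsEquivNorm N) (hs : ContDiffOn ℝ k N {x | x ≠ 0}) :
    NonComplete k X := by
  have hd := diff_of_contDiffOn (le_trans (by norm_num) hk) N hs
  have h2 : ContDiffOn ℝ 2 N {x | x ≠ 0} := hs.of_le (WithTop.coe_le_coe.2 hk)
  exact nonComplete_of_proj H.nc H.tot H.bio H.opt
    (proj_of_locUC H hinf N hN hd (locUC_of_contDiff N h2)) k N hN hs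

theorem part_locUC (H : AllStm.{u}) (k : ℕ∞) [CompleteSpace X]
    (hinf : ¬ FiniteDimensional ℝ X) (N' : Seminorm ℝ X) (hN' : IsEquivNorm N')
    (hd' : ∀ z, z ≠ 0 → DifferentiableAt ℝ N' z) (hL' : LocUC N')
    (N : Seminorm ℝ X) (hN : IsEquivNorm N) (hs : ContDiffOn ℝ k N {x | x ≠ 0}) :
    NonComplete k X :=
  nonComplete_of_proj H.nc H.tot H.bio H.opt
    (proj_of_locUC H hinf N' hN' hd' hL') k N hN hs

theorem part_c0 (H : AllStm.{u}) (k : ℕ∞) (hk : 1 ≤ k) [CompleteSpace X]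
    (N : Seminorm ℝ X) (hN : IsEquivNorm N) (hs : ContDiffOn ℝ k N {x | x ≠ 0})
    (J : C₀(ℕ, ℝ) →L[ℝ] X) (c : ℝ) (hc : 0 < c) (hJ : ∀ x, c * ‖x‖ ≤ ‖J x‖) :
    NonComplete k X :=
  nonComplete_of_proj H.nc H.tot H.bio H.opt
    (caseA H.sig H.prj H.sub H.sup H.lim N hN (diff_of_contDiffOn hk N hs)
      (hasC0Seq_of_embedding J c hc hJ)) k N hN hs

theorem part_proj (H : AllStm.{u}) (k : ℕ∞) [CompleteSpace X]
    (N : Seminorm ℝ X) (hN : IsEquivNorm N) (hs : ContDiffOn ℝ k N {x | x ≠ 0})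
    (hP : HasSepProj X) : NonComplete k X :=
  nonComplete_of_proj H.nc H.tot H.bio H.opt hP k N hN hs

theorem part_reflexive (H : AllStm.{u}) [CompleteSpace X]
    (N : Seminorm ℝ X) (hN : IsEquivNorm N) (hs : ContDiffOn ℝ 1 N {x | x ≠ 0})
    (E : Submodule ℝ X) (hEc : IsClosed (E : Set X)) (hEi : ¬ FiniteDimensional ℝ E)
    (hEr : Function.Surjective (NormedSpace.inclusionInDoubleDual ℝ E)) : NonComplete 1 X :=
  nonComplete_of_reflexive H.nc H.cd1 H.tot H.quo H.rsb H.att H.qsn N hN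
    (diff_of_contDiffOn (k := 1) le_rfl N hs) E hEc hEi hEr

theorem part_lur (H : AllStm.{u}) (hinf : ¬ FiniteDimensional ℝ X)
    (Y : Type u) [NormedAddCommGroup Y] [NormedSpace ℝ Y] [CompleteSpace Y] (e : X ≃L[ℝ] Y)
    (hl : ∀ (g : StrongDual ℝ Y) (gn : ℕ → StrongDual ℝ Y),
      Tendsto (fun n => 2 * ‖g‖ ^ 2 + 2 * ‖gn n‖ ^ 2 - ‖g + gn n‖ ^ 2) atTop (𝓝 0) →
      Tendsto gn atTop (𝓝 g)) : NonComplete 1 X := by
  apply nonComplete_of_equiv e
  refine nonComplete_of_lur H.nc H.cd1 H.tot H.lur (fun hfin => hinf ?_) hl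
  exact LinearEquiv.finiteDimensional e.symm.toLinearEquiv

end H857NC
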