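import Mathlib
import Pool.Agent.H857R2.NC.Stm2

/-! James' theorem: an unconditional basic sequence in a space without `c_0` and `l_1` spans a
reflexive space. -/

set_option autoImplicit false

namespace H857NC

open Filter Topology Set

universe u

namespace JAMaux

/-- selection of disjoint blocks -/
theorem select (Q : Finset ℕ → (ℕ → ℝ) → Prop)
    (H : ∀ N : ℕ, ∃ (I : Finset ℕ) (c : ℕ → ℝ), (∀ n ∈ I, N ≤ n) ∧ Q I c) :
    ∃ (I : ℕ → Finset ℕ) (c : ℕ → ℕ → ℝ), (∀ i j, i ≠ j → Disjoint (I i) (I j)) ∧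
      ∀ j, Q (I j) (c j) := by
  choose I c h1 h2 using H
  let N : ℕ → ℕ := fun j => Nat.rec 0 (fun _ k => max k ((I k).sup id + 1)) j
  have hN : ∀ j, N (j + 1) = max (N j) ((I (N j)).sup id + 1) := fun j => rfl
  have hmono : Monotone N := monotone_nat_of_le_succ fun j => by rw [hN]; exact le_max_left _ _
  have hlt : ∀ i j, i < j → Disjoint (I (N i)) (I (N j)) := by
    intro i j hij
    rw [Finset.disjoint_left]
    intro n hn hn'
    have a1 := h1 (N j) n hn'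
    have a2 : n ≤ (I (N i)).sup id := Finset.le_sup (f := id) hn
    have a3 : N (i + 1) ≤ N j := hmono hij
    rw [hN] at a3
    have a4 := le_max_right (N i) ((I (N i)).sup id + 1)
    omega
  refine ⟨fun j => I (N j), fun j => c (N j), ?_, fun j => h2 _⟩
  intro i j hij
  rcases lt_or_gt_of_ne hij with h | h
  · exact hlt i j h
  · exact (hlt j i h).symm

variable {E : Type u} [NormedAddCommGroup E] [NormedSpace ℝ E]

/-- sums of blocks -/
theorem blocks (e : ℕ → E) (I : ℕ → Finset ℕ) (c : ℕ → ℕ → ℝ)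
    (hI : ∀ i j, i ≠ j → Disjoint (I i) (I j)) (s σ : ℕ → ℝ) (hσ : ∀ n, σ n = 1 ∨ σ n = -1)
    (F : Finset ℕ) :
    ∃ t σ' : ℕ → ℝ, (∀ n, σ' n = 1 ∨ σ' n = -1) ∧
      (∀ j n, n ∈ I j → t n = s j * c j n ∧ σ' n = σ j) ∧
      ∑ j ∈ F, (σ j * s j) • ∑ n ∈ I j, c j n • e n =
        ∑ n ∈ F.biUnion I, (σ' n * t n) • e n ∧
      ∑ j ∈ F, s j • ∑ n ∈ I j, c j n • e n = ∑ n ∈ F.biUnion I, t n • e n := by
  classical
  let J : ℕ → ℕ := fun n => if h : ∃ j, n ∈ I j then h.choose else 0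
  have hJ : ∀ j n, n ∈ I j → J n = j := by
    intro j n hn
    have h : ∃ j, n ∈ I j := ⟨j, hn⟩
    have e1 : J n = h.choose := dif_pos h
    rw [e1]
    by_contra hne
    exact Finset.disjoint_left.1 (hI _ _ hne) h.choose_spec hn
  have hd : (F : Set ℕ).PairwiseDisjoint I := fun i _ j _ hij => hI i j hij
  refine ⟨fun n => s (J n) * c (J n) n, fun n => σ (J n), fun n => hσ _, ?_, ?_, ?_⟩
  · intro j n hn
    simp only [hJ j n hn, and_self]
  · rw [Finset.sum_biUnion hd]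
    refine Finset.sum_congr rfl fun j _ => ?_
    rw [Finset.smul_sum]
    refine Finset.sum_congr rfl fun n hn => ?_
    simp only [hJ j n hn, smul_smul]
    congr 1
    ring
  · rw [Finset.sum_biUnion hd]
    refine Finset.sum_congr rfl fun j _ => ?_
    rw [Finset.smul_sum]
    refine Finset.sum_congr rfl fun n hn => ?_
    simp only [hJ j n hn, smul_smul]

theorem const_pos {e : ℕ → E} {C : ℝ} (he : UncSeq e C) : 1 ≤ C := by
  have h := he.2 {0} (fun _ => 1) (fun _ => 1) (fun _ => Or.inl rfl)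
  simp only [Finset.sum_singleton, mul_one, one_smul] at h
  have h0 : 0 < ‖e 0‖ := norm_pos_iff.2 (he.1 0)
  by_contra hc
  push Not at hc
  nlinarith

/-- shrinking -/
theorem shrinking {e : ℕ → E} {C : ℝ} (he : UncSeq e C) (hl : ¬ HasL1Seq E) {K : ℝ} (hK : 0 < K)
    (a : ℕ → StrongDual ℝ E) (h1 : ∀ (x : E) (F : Finset ℕ), ‖∑ n ∈ F, a n x • e n‖ ≤ K * ‖x‖)
    (h2 : ∀ x : E, Tendsto (fun n => ∑ i ∈ Finset.range n, a i x • e i) atTop (𝓝 x))
    (f : StrongDual ℝ E) (ε : ℝ) (hε : 0 < ε) :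
    ∃ n0, ∀ m, n0 ≤ m → ∀ y : E, |f (y - ∑ i ∈ Finset.range m, a i y • e i)| ≤ ε * ‖y‖ := by
  by_contra hcon
  push Not at hcon
  apply hl
  have hC := const_pos he
  obtain ⟨I, c, hI, hQ⟩ := select
    (fun I c => ‖∑ n ∈ I, c n • e n‖ ≤ K ∧ ε ≤ f (∑ n ∈ I, c n • e n)) (by
      intro N
      obtain ⟨m, hm, y, hy⟩ := hcon N
      have hy0 : 0 < ‖y‖ := by
        rw [norm_pos_iff]
        rintro rfl
        simp at hy
      have ht : Tendsto (fun M => |f (∑ i ∈ Finset.range M, a i y • e i -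
          ∑ i ∈ Finset.range m, a i y • e i)|) atTop
          (𝓝 |f (y - ∑ i ∈ Finset.range m, a i y • e i)|) :=
        ((f.continuous.tendsto _).comp ((h2 y).sub_const _)).abs
      obtain ⟨M, hM1, hM2⟩ := ((ht.eventually (lt_mem_nhds hy)).and (eventually_ge_atTop m)).exists
      have hsub : ∑ i ∈ Finset.range M, a i y • e i - ∑ i ∈ Finset.range m, a i y • e i =
          ∑ i ∈ Finset.Ico m M, a i y • e i := (Finset.sum_Ico_eq_sub _ hM2).symm
      rw [hsub] at hM1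
      set w := ∑ i ∈ Finset.Ico m M, a i y • e i with hw
      obtain ⟨r, hr, hr'⟩ : ∃ r : ℝ, |r| = 1 ∧ r * f w = |f w| := by
        rcases le_total 0 (f w) with h | h
        · exact ⟨1, by simp, by rw [abs_of_nonneg h, one_mul]⟩
        · exact ⟨-1, by simp, by rw [abs_of_nonpos h]; ring⟩
      have hu : ∑ n ∈ Finset.Ico m M, (r * ‖y‖⁻¹ * a n y) • e n = (r * ‖y‖⁻¹) • w := by
        rw [hw, Finset.smul_sum]
        exact Finset.sum_congr rfl fun n _ => by rw [smul_smul]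
      refine ⟨Finset.Ico m M, fun n => r * ‖y‖⁻¹ * a n y, ?_, ?_, ?_⟩
      · intro n hn
        rw [Finset.mem_Ico] at hn
        omega
      · rw [hu, norm_smul, norm_mul, Real.norm_eq_abs, hr, one_mul, norm_inv, norm_norm]
        have := h1 y (Finset.Ico m M)
        rw [inv_mul_le_iff₀ hy0, mul_comm]
        exact this
      · rw [hu, map_smul, smul_eq_mul]
        have e1 : r * ‖y‖⁻¹ * f w = ‖y‖⁻¹ * |f w| := by rw [← hr']; ring
        rw [e1, le_inv_mul_iff₀ hy0]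
        rw [mul_comm]
        exact hM1.le)
  refine ⟨fun j => ∑ n ∈ I j, c j n • e n, ε / (C * (‖f‖ + 1)), K, ?_, fun j => (hQ j).1, ?_⟩
  · have : 0 ≤ ‖f‖ := norm_nonneg _
    positivity
  · intro F t
    have hf0 : 0 ≤ ‖f‖ := norm_nonneg _
    obtain ⟨σ, hσ, hσt⟩ : ∃ σ : ℕ → ℝ, (∀ n, σ n = 1 ∨ σ n = -1) ∧ ∀ n, σ n * t n = |t n| := by
      refine ⟨fun n => if 0 ≤ t n then 1 else -1, fun n => by by_cases h : 0 ≤ t n <;> simp [h],
        fun n => ?_⟩
      simp only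
      split_ifs with h
      · rw [abs_of_nonneg h, one_mul]
      · push Not at h
        rw [abs_of_neg h]; ring
    obtain ⟨t', σ', hs', -, e1, e2⟩ := blocks e I c hI t σ hσ F
    have k1 := he.2 (F.biUnion I) t' σ' hs'
    rw [← e1, ← e2] at k1
    have k2 : ε * ∑ j ∈ F, |t j| ≤ f (∑ j ∈ F, (σ j * t j) • ∑ n ∈ I j, c j n • e n) := by
      rw [map_sum, Finset.mul_sum]
      refine Finset.sum_le_sum fun j _ => ?_
      rw [map_smul, smul_eq_mul, hσt, mul_comm]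
      exact mul_le_mul_of_nonneg_left (hQ j).2 (abs_nonneg _)
    have k3 : f (∑ j ∈ F, (σ j * t j) • ∑ n ∈ I j, c j n • e n) ≤
        ‖f‖ * ‖∑ j ∈ F, (σ j * t j) • ∑ n ∈ I j, c j n • e n‖ :=
      (le_abs_self _).trans (f.le_opNorm _)
    have k4 : ε * ∑ j ∈ F, |t j| ≤ (‖f‖ + 1) * (C * ‖∑ j ∈ F, t j • ∑ n ∈ I j, c j n • e n‖) := by
      calc _ ≤ ‖f‖ * ‖∑ j ∈ F, (σ j * t j) • ∑ n ∈ I j, c j n • e n‖ := k2.trans k3
        _ ≤ (‖f‖ + 1) * (C * ‖∑ j ∈ F, t j • ∑ n ∈ I j, c j n • e n‖) := by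
            gcongr
            linarith
    rw [div_mul_eq_mul_div, div_le_iff₀ (by positivity)]
    linarith

/-- boundedly complete -/
theorem bddComplete [CompleteSpace E] {e : ℕ → E} (hc : ¬ HasC0Seq E) {K : ℝ}
    (a : ℕ → StrongDual ℝ E) (h1 : ∀ (x : E) (F : Finset ℕ) (σ : ℕ → ℝ),
      (∀ n, σ n = 1 ∨ σ n = -1) → ‖∑ n ∈ F, (σ n * a n x) • e n‖ ≤ K * ‖x‖)
    (h3 : ∀ (m : ℕ) (F : Finset ℕ) (t : ℕ → ℝ), a m (∑ n ∈ F, t n • e n) = if m ∈ F then t m else 0)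
    (hK : 0 < K) (b : ℕ → ℝ) (B : ℝ) (hB : ∀ m, ‖∑ n ∈ Finset.range m, b n • e n‖ ≤ B) :
    ∃ x, Tendsto (fun m => ∑ n ∈ Finset.range m, b n • e n) atTop (𝓝 x) := by
  classical
  apply cauchySeq_tendsto_of_complete
  rw [Metric.cauchySeq_iff']
  by_contra hcon
  push Not at hcon
  obtain ⟨δ, hδ, hcon⟩ := hcon
  apply hc
  obtain ⟨I, c, hI, hQ⟩ := select
    (fun I c => (∀ n, c n = b n) ∧ δ ≤ ‖∑ n ∈ I, c n • e n‖) (by
      intro N
      obtain ⟨m, hm, hd⟩ := hcon N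
      refine ⟨Finset.Ico N m, b, fun n hn => (Finset.mem_Ico.1 hn).1, fun n => rfl, ?_⟩
      rw [Finset.sum_Ico_eq_sub _ hm, ← dist_eq_norm]
      exact hd)
  refine ⟨fun j => ∑ n ∈ I j, c j n • e n, δ, K * B, hδ, fun j => (hQ j).2, ?_⟩
  intro F σ hσ
  obtain ⟨t', σ', hs', ht', e1, e2⟩ := blocks e I c hI (fun _ => 1) σ hσ F
  simp only [mul_one] at e1
  rw [e1]
  obtain ⟨M, hM⟩ : ∃ M, F.biUnion I ⊆ Finset.range M := by
    refine ⟨(F.biUnion I).sup id + 1, fun n hn => ?_⟩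
    have : n ≤ (F.biUnion I).sup id := Finset.le_sup (f := id) hn
    rw [Finset.mem_range]
    omega
  set x := ∑ n ∈ Finset.range M, b n • e n with hx
  have e3 : ∑ n ∈ F.biUnion I, (σ' n * t' n) • e n = ∑ n ∈ F.biUnion I, (σ' n * a n x) • e n := by
    refine Finset.sum_congr rfl fun n hn => ?_
    have h4 : a n x = b n := by
      rw [hx, h3, if_pos (hM hn)]
    obtain ⟨j, _, hj⟩ := Finset.mem_biUnion.1 hn
    rw [h4, (ht' j n hj).1, (hQ j).1 n, one_mul]
  rw [e3]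
  refine (h1 x _ σ' hs').trans ?_
  gcongr
  exact hB M

/-- the abstract version of James' theorem -/
theorem james [CompleteSpace E] {e : ℕ → E} {C : ℝ} (he : UncSeq e C) (hc : ¬ HasC0Seq E)
    (hl : ¬ HasL1Seq E) {K : ℝ} (hK : 0 < K)
    (a : ℕ → StrongDual ℝ E) (h1 : ∀ (x : E) (F : Finset ℕ) (σ : ℕ → ℝ),
      (∀ n, σ n = 1 ∨ σ n = -1) → ‖∑ n ∈ F, (σ n * a n x) • e n‖ ≤ K * ‖x‖)
    (h2 : ∀ x : E, Tendsto (fun n => ∑ i ∈ Finset.range n, a i x • e i) atTop (𝓝 x))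
    (h3 : ∀ (m : ℕ) (F : Finset ℕ) (t : ℕ → ℝ),
      a m (∑ n ∈ F, t n • e n) = if m ∈ F then t m else 0) :
    Function.Surjective (NormedSpace.inclusionInDoubleDual ℝ E) := by
  have h1' : ∀ (x : E) (F : Finset ℕ), ‖∑ n ∈ F, a n x • e n‖ ≤ K * ‖x‖ := by
    intro x F
    have := h1 x F (fun _ => 1) (fun _ => Or.inl rfl)
    simpa using this
  intro ξ
  -- the functionals `f ∘ P_m`
  have hg : ∀ (f : StrongDual ℝ E) (m : ℕ) (y : E),
      (∑ n ∈ Finset.range m, f (e n) • a n) y = f (∑ n ∈ Finset.range m, a n y • e n) := by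
    intro f m y
    rw [ContinuousLinearMap.sum_apply, map_sum]
    refine Finset.sum_congr rfl fun n _ => ?_
    rw [ContinuousLinearMap.smul_apply, map_smul, smul_eq_mul, smul_eq_mul, mul_comm]
  have hgn : ∀ (f : StrongDual ℝ E) (m : ℕ), ‖∑ n ∈ Finset.range m, f (e n) • a n‖ ≤ K * ‖f‖ := by
    intro f m
    apply ContinuousLinearMap.opNorm_le_bound _ (by positivity)
    intro y
    rw [hg]
    calc ‖f (∑ n ∈ Finset.range m, a n y • e n)‖ ≤ ‖f‖ * ‖∑ n ∈ Finset.range m, a n y • e n‖ :=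
          f.le_opNorm _
      _ ≤ ‖f‖ * (K * ‖y‖) := by
          gcongr
          exact h1' y _
      _ = K * ‖f‖ * ‖y‖ := by ring
  have hS : ∀ (f : StrongDual ℝ E) (m : ℕ), f (∑ n ∈ Finset.range m, ξ (a n) • e n) =
      ξ (∑ n ∈ Finset.range m, f (e n) • a n) := by
    intro f m
    rw [map_sum, map_sum]
    refine Finset.sum_congr rfl fun n _ => ?_
    rw [map_smul, map_smul, smul_eq_mul, smul_eq_mul, mul_comm]
  have hB : ∀ m, ‖∑ n ∈ Finset.range m, ξ (a n) • e n‖ ≤ ‖ξ‖ * K := by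
    intro m
    apply NormedSpace.norm_le_dual_bound ℝ _ (by positivity)
    intro f
    rw [hS]
    calc ‖ξ (∑ n ∈ Finset.range m, f (e n) • a n)‖ ≤ ‖ξ‖ * ‖∑ n ∈ Finset.range m, f (e n) • a n‖ :=
          ξ.le_opNorm _
      _ ≤ ‖ξ‖ * (K * ‖f‖) := by
          gcongr
          exact hgn f m
      _ = ‖ξ‖ * K * ‖f‖ := by ring
  obtain ⟨x, hx⟩ := bddComplete hc a h1 h3 hK (fun n => ξ (a n)) _ hB
  refine ⟨x, ?_⟩
  ext f
  rw [NormedSpace.dual_def]
  have t1 : Tendsto (fun m => f (∑ n ∈ Finset.range m, ξ (a n) • e n)) atTop (𝓝 (f x)) :=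
    (f.continuous.tendsto _).comp hx
  have t2 : Tendsto (fun m => f (∑ n ∈ Finset.range m, ξ (a n) • e n)) atTop (𝓝 (ξ f)) := by
    rw [Metric.tendsto_atTop]
    intro ε hε
    obtain ⟨n0, hn0⟩ := shrinking he hl hK a h1' h2 f (ε / (2 * (‖ξ‖ + 1)))
      (by have := norm_nonneg ξ; positivity)
    refine ⟨n0, fun m hm => ?_⟩
    rw [hS, dist_comm, dist_eq_norm, ← map_sub]
    have h5 : ‖f - ∑ n ∈ Finset.range m, f (e n) • a n‖ ≤ ε / (2 * (‖ξ‖ + 1)) := by
      apply ContinuousLinearMap.opNorm_le_bound _ (by have := norm_nonneg ξ; positivity)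
      intro y
      rw [ContinuousLinearMap.sub_apply, hg, ← map_sub]
      exact hn0 m hm y
    have h6 := norm_nonneg ξ
    calc ‖ξ (f - ∑ n ∈ Finset.range m, f (e n) • a n)‖ ≤
          ‖ξ‖ * ‖f - ∑ n ∈ Finset.range m, f (e n) • a n‖ := ξ.le_opNorm _
      _ ≤ ‖ξ‖ * (ε / (2 * (‖ξ‖ + 1))) := by gcongr
      _ < ε := by
          rw [mul_div_assoc', div_lt_iff₀ (by positivity)]
          nlinarith
  exact tendsto_nhds_unique t1 t2

end JAMaux

open JAMaux in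
theorem JAM (hCOO : COO_stm.{u}) : JAM_stm.{u} := by
  intro X _ _ _ e C he hc hl
  have hCOO' := hCOO X e C he
  haveI hcomp : CompleteSpace (Submodule.span ℝ (Set.range e)).topologicalClosure :=
    (Submodule.isClosed_topologicalClosure _).completeSpace_coe
  have hmem : ∀ n, e n ∈ (Submodule.span ℝ (Set.range e)).topologicalClosure := fun n =>
    Submodule.le_topologicalClosure _ (Submodule.subset_span (Set.mem_range_self n))
  generalize hE : (Submodule.span ℝ (Set.range e)).topologicalClosure = E at hCOO' hmem hcomp ⊢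
  obtain ⟨K, a, hK, h1, h2, h3⟩ := hCOO'
  let e' : ℕ → E := fun n => ⟨e n, hmem n⟩
  have hcoe : ∀ (F : Finset ℕ) (t : ℕ → ℝ), ((∑ n ∈ F, t n • e' n : E) : X) = ∑ n ∈ F, t n • e n := by
    intro F t
    rw [Submodule.coe_sum]
    exact Finset.sum_congr rfl fun n _ => rfl
  have hnorm : ∀ (F : Finset ℕ) (t : ℕ → ℝ), ‖∑ n ∈ F, t n • e' n‖ = ‖∑ n ∈ F, t n • e n‖ := by
    intro F t
    rw [← hcoe]; rfl
  have he' : UncSeq e' C := by
    refine ⟨fun n h => he.1 n (congrArg Subtype.val h), fun F t σ hσ => ?_⟩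
    rw [hnorm F (fun n => σ n * t n), hnorm]
    exact he.2 F t σ hσ
  have hc' : ¬ HasC0Seq E := by
    rintro ⟨h, δ, B, hδ, hh, hb⟩
    apply hc
    refine ⟨fun n => (h n : X), δ, B, hδ, fun n => hh n, fun F σ hσ => ?_⟩
    have := hb F σ hσ
    have e1 : ((∑ n ∈ F, σ n • h n : E) : X) = ∑ n ∈ F, σ n • (h n : X) := by
      rw [Submodule.coe_sum]
      exact Finset.sum_congr rfl fun n _ => rfl
    rw [← e1]
    exact this
  have hl' : ¬ HasL1Seq E := by
    rintro ⟨h, c, B, hc, hh, hb⟩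
    apply hl
    refine ⟨fun n => (h n : X), c, B, hc, fun n => hh n, fun F t => ?_⟩
    have := hb F t
    have e1 : ((∑ n ∈ F, t n • h n : E) : X) = ∑ n ∈ F, t n • (h n : X) := by
      rw [Submodule.coe_sum]
      exact Finset.sum_congr rfl fun n _ => rfl
    rw [← e1]
    exact this
  apply james he' hc' hl' hK a
  · intro x F σ hσ
    rw [hnorm F (fun n => σ n * a n x)]
    exact h1 x F σ hσ
  · intro x
    have := h2 x
    rw [tendsto_subtype_rng]
    refine this.congr fun n => ?_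
    rw [hcoe]
  · intro m F t
    exact h3 m F t _ (hcoe F t)

end H857NC
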