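import Mathlib
import Pool.Agent.H857R2.NC.Stm

/-!
Module LIM: from the support to a pointwise convergent sequence of norming functionals.
-/

set_option autoImplicit false

namespace H857NC

open Filter Topology Set

universe u

/-- a bounded sequence has a subsequence converging to its limsup -/
theorem lim_subseq (u : ℕ → ℝ) (A B : ℝ) (hA : ∀ n, A ≤ u n) (hB : ∀ n, u n ≤ B) :
    ∃ φ : ℕ → ℕ, StrictMono φ ∧ Tendsto (fun i => u (φ i)) atTop (𝓝 (limsup u atTop)) := by
  have hbdd : IsBoundedUnder (· ≤ ·) atTop u := ⟨B, by simp [hB]⟩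
  have hbdd' : IsCoboundedUnder (· ≤ ·) atTop u :=
    (IsBoundedUnder.isCoboundedUnder_flip ⟨A, by simp [hA]⟩)
  have hf : ∀ i : ℕ, ∃ᶠ n in atTop, |u n - limsup u atTop| < 1 / ((i : ℝ) + 1) := by
    intro i
    have hi : (0 : ℝ) < 1 / ((i : ℝ) + 1) := by positivity
    have h1 : ∃ᶠ n in atTop, limsup u atTop - 1 / ((i : ℝ) + 1) < u n :=
      frequently_lt_of_lt_limsup hbdd' (by linarith)
    have h2 : ∀ᶠ n in atTop, u n < limsup u atTop + 1 / ((i : ℝ) + 1) :=
      eventually_lt_of_limsup_lt (by linarith) hbdd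
    refine (h1.and_eventually h2).mono ?_
    rintro n ⟨h3, h4⟩
    rw [abs_lt]
    constructor <;> linarith
  obtain ⟨φ, hφ, h1⟩ := extraction_forall_of_frequently hf
  refine ⟨φ, hφ, ?_⟩
  rw [tendsto_iff_dist_tendsto_zero]
  refine squeeze_zero (fun _ => dist_nonneg) (fun i => ?_) tendsto_one_div_add_atTop_nhds_zero_nat
  rw [Real.dist_eq]
  exact (h1 i).le

/-- norming functionals -/
theorem lim_norming {X : Type u} [NormedAddCommGroup X] [NormedSpace ℝ X]
    (N : Seminorm ℝ X) (hN : IsEquivNorm N) (z : X) :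
    ∃ f : StrongDual ℝ X, f z = N z ∧ ∀ x, |f x| ≤ N x := by
  obtain ⟨b, -, hb⟩ := hN.upper
  by_cases hz : z = 0
  · refine ⟨0, ?_, fun x => ?_⟩
    · rw [hz]; simp
    · simp
  · obtain ⟨g, hg1, hg2⟩ := exists_extension_of_le_sublinear
      (LinearPMap.mkSpanSingleton z (N z) hz) N
      (fun c hc x => by rw [map_smul_eq_mul, Real.norm_eq_abs, abs_of_pos hc])
      (fun x y => map_add_le_add N x y)
      (by
        rintro ⟨x, hx⟩
        obtain ⟨c, rfl⟩ := Submodule.mem_span_singleton.1 hx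
        have h0 : (LinearPMap.mkSpanSingleton z (N z) hz : X →ₗ.[ℝ] ℝ) ⟨c • z, hx⟩ = c • N z :=
          LinearPMap.mkSpanSingleton'_apply _ _ _ _ _
        refine h0.le.trans ?_
        show c • N z ≤ N (c • z)
        rw [map_smul_eq_mul, smul_eq_mul, Real.norm_eq_abs]
        exact mul_le_mul_of_nonneg_right (le_abs_self c) (apply_nonneg N z))
    have habs : ∀ x, |g x| ≤ N x := by
      intro x
      rw [abs_le]
      constructor
      · have := hg2 (-x)
        rw [map_neg, map_neg_eq_map] at this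
        linarith
      · exact hg2 x
    refine ⟨g.mkContinuous b (fun x => ?_), ?_, fun x => ?_⟩
    · rw [Real.norm_eq_abs]
      exact (habs x).trans (hb x)
    · have hzm : z ∈ Submodule.span ℝ {z} := Submodule.mem_span_singleton_self z
      have h1 := hg1 ⟨z, hzm⟩
      have h2 : (LinearPMap.mkSpanSingleton z (N z) hz : X →ₗ.[ℝ] ℝ) ⟨z, hzm⟩ = N z :=
        LinearPMap.mkSpanSingleton'_apply_self _ _ _ _
      rw [LinearMap.mkContinuous_apply]
      rw [← h2, ← h1]
    · rw [LinearMap.mkContinuous_apply]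
      exact habs x

theorem LIM : LIM_stm.{u} := by
  intro X _ _ N hN h δ C hδ hδh hC w Ψ hw hΨ hd
  have hNn : ∀ x, 0 ≤ N x := fun x => apply_nonneg N x
  have hub : ∀ y n, N (w + y + h n) ≤ N w + N y + C := by
    intro y n
    have h1 := map_add_le_add N (w + y) (h n)
    have h2 := map_add_le_add N w y
    linarith [hC n]
  obtain ⟨φ, hφ, hlim⟩ := lim_subseq (fun n => N (w + h n)) 0 (N w + N 0 + C) (fun n => hNn _)
    (fun n => by have := hub 0 n; rwa [add_zero] at this)
  choose f hf1 hf2 using fun i => lim_norming N hN (w + h (φ i))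
  have key : ∀ (y : X) (t : ℝ), 0 < t → ∀ ε > 0, ∀ᶠ i in atTop,
      f i y ≤ (Ψ (w + t • y) - Ψ w) / t + ε := by
    intro y t ht ε hε
    have h1 : ∀ᶠ n in atTop, N (w + t • y + h n) <
        limsup (fun n => N (w + t • y + h n)) atTop + t * ε / 2 :=
      eventually_lt_of_limsup_lt (by linarith [mul_pos ht hε])
        ⟨N w + N (t • y) + C, by simp [hub]⟩
    have h2 : ∀ᶠ i in atTop, N (w + t • y + h (φ i)) <
        limsup (fun n => N (w + t • y + h n)) atTop + t * ε / 2 :=
      hφ.tendsto_atTop.eventually h1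
    have h3 : ∀ᶠ i in atTop, limsup (fun n => N (w + h n)) atTop - t * ε / 2 <
        N (w + h (φ i)) :=
      hlim.eventually (lt_mem_nhds (by linarith [mul_pos ht hε]))
    filter_upwards [h2, h3] with i h4 h5
    have h6 : f i (w + t • y + h (φ i)) ≤ N (w + t • y + h (φ i)) :=
      (le_abs_self _).trans (hf2 i _)
    have h7 : f i (w + t • y + h (φ i)) = N (w + h (φ i)) + t * f i y := by
      rw [← hf1 i, map_add, map_add, map_add, map_smul, smul_eq_mul]; ring
    have h8 := hΨ (t • y)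
    have h9 : t * f i y ≤ Ψ (w + t • y) - Ψ w + t * ε := by linarith
    have h10 : f i y ≤ (Ψ (w + t • y) - Ψ w + t * ε) / t := by
      rw [le_div_iff₀ ht]; linarith
    have h11 : (Ψ (w + t • y) - Ψ w + t * ε) / t = (Ψ (w + t • y) - Ψ w) / t + ε := by
      field_simp
    linarith
  refine ⟨φ, f, hφ, fun i x => hf2 i x, fun i => ?_, fun y => ?_⟩
  · have h1 := hf1 i
    rw [map_add] at h1
    have h2 := (abs_le.1 (hf2 i w)).2
    have h3 : N (h (φ i)) ≤ N (w + h (φ i)) + N w := by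
      have := map_add_le_add N (w + h (φ i)) (-w)
      rw [map_neg_eq_map] at this
      rwa [show w + h (φ i) + -w = h (φ i) by abel] at this
    have h4 := hδh (φ i)
    linarith
  · obtain ⟨d, hdd⟩ : ∃ d, HasDerivAt (fun t : ℝ => Ψ (w + t • y)) d 0 :=
      ⟨_, (hd y).hasDerivAt⟩
    refine ⟨d, ?_⟩
    rw [hasDerivAt_iff_tendsto_slope_zero] at hdd
    simp only [zero_add, zero_smul, add_zero] at hdd
    rw [Metric.tendsto_atTop']
    intro ε hε
    have h1 : ∀ᶠ t in 𝓝[≠] (0 : ℝ), dist (t⁻¹ • (Ψ (w + t • y) - Ψ w)) d < ε / 2 :=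
      hdd.eventually (Metric.ball_mem_nhds d (by positivity))
    rw [eventually_nhdsWithin_iff, Metric.eventually_nhds_iff] at h1
    obtain ⟨r, hr, h1⟩ := h1
    have hr2 : 0 < r / 2 := by positivity
    have h2 : dist ((r / 2)⁻¹ • (Ψ (w + (r / 2) • y) - Ψ w)) d < ε / 2 :=
      h1 (by rw [Real.dist_eq, sub_zero, abs_of_pos hr2]; linarith) hr2.ne'
    have h3 : dist ((-(r / 2))⁻¹ • (Ψ (w + (-(r / 2)) • y) - Ψ w)) d < ε / 2 :=
      h1 (by rw [Real.dist_eq, sub_zero, abs_neg, abs_of_pos hr2]; linarith)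
        (by simp only [mem_compl_iff, mem_singleton_iff]; linarith)
    rw [Real.dist_eq, abs_lt, smul_eq_mul] at h2 h3
    have h4 := key y (r / 2) hr2 (ε / 4) (by positivity)
    have h5 := key (-y) (r / 2) hr2 (ε / 4) (by positivity)
    obtain ⟨n0, hn0⟩ := (h4.and h5).exists_forall_of_atTop
    refine ⟨n0, fun n hn => ?_⟩
    obtain ⟨h6, h7⟩ := hn0 n hn.le
    rw [map_neg, smul_neg, ← neg_smul] at h7
    have e1 : (Ψ (w + (r / 2) • y) - Ψ w) / (r / 2) = (r / 2)⁻¹ * (Ψ (w + (r / 2) • y) - Ψ w) := by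
      rw [div_eq_inv_mul]
    have e2 : (Ψ (w + (-(r / 2)) • y) - Ψ w) / (r / 2) =
        -((-(r / 2))⁻¹ * (Ψ (w + (-(r / 2)) • y) - Ψ w)) := by
      rw [div_eq_inv_mul, inv_neg, neg_mul, neg_neg]
    rw [e1] at h6
    rw [e2] at h7
    rw [Real.dist_eq, abs_lt]
    constructor <;> linarith [h2.1, h2.2, h3.1, h3.2]

end H857NC
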