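import Mathlib
import Pool.Agent.H857R2.NC.Stm

set_option autoImplicit false

namespace H857NC

open Filter Topology Set

universe u

namespace LN1aux

variable {X : Type u} [NormedAddCommGroup X] [NormedSpace ℝ X]

lemma exists_almost_norming (d : StrongDual ℝ X) {η : ℝ} (hη : 0 < η) :
    ∃ x : X, ‖x‖ ≤ 1 ∧ ‖d‖ - η ≤ d x := by
  obtain ⟨x, hx, hx2⟩ := ContinuousLinearMap.exists_lt_apply_of_lt_opNorm d
    (show ‖d‖ - η < ‖d‖ by linarith)
  rw [Real.norm_eq_abs] at hx2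
  rcases le_total 0 (d x) with h | h
  · refine ⟨x, hx.le, ?_⟩
    rw [abs_of_nonneg h] at hx2
    exact hx2.le
  · refine ⟨-x, by rw [norm_neg]; exact hx.le, ?_⟩
    rw [abs_of_nonpos h] at hx2
    rw [map_neg]; exact hx2.le

lemma lemA (E : Submodule ℝ X) (hE : TopologicalSpace.IsSeparable (E : Set X)) :
    ∃ G : Submodule ℝ (StrongDual ℝ X), TopologicalSpace.IsSeparable (G : Set (StrongDual ℝ X)) ∧
      ∀ e ∈ E, ∀ ε : ℝ, 0 < ε → ∃ g ∈ G, ‖g‖ ≤ 1 ∧ ‖e‖ - ε ≤ g e := by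
  obtain ⟨c, hc, hEc⟩ := hE
  choose g hg1 hg2 using fun d : X => exists_dual_vector'' (𝕜 := ℝ) d
  refine ⟨Submodule.span ℝ (g '' c), (hc.image g).isSeparable.span, fun e he ε hε => ?_⟩
  obtain ⟨d, hd, hed⟩ := Metric.mem_closure_iff.1 (hEc he) (ε / 2) (by positivity)
  refine ⟨g d, Submodule.subset_span ⟨d, hd, rfl⟩, hg1 d, ?_⟩
  rw [dist_eq_norm] at hed
  have e1 : g d e = g d d + g d (e - d) := by rw [← map_add]; congr 1; abel
  have e2 : |g d (e - d)| ≤ ‖e - d‖ := by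
    have := (g d).le_opNorm (e - d)
    rw [Real.norm_eq_abs] at this
    refine this.trans ?_
    have := mul_le_mul_of_nonneg_right (hg1 d) (norm_nonneg (e - d))
    linarith
  have e3 : g d d = ‖d‖ := by simpa using hg2 d
  have e4 : ‖e‖ ≤ ‖d‖ + ‖e - d‖ := by
    calc ‖e‖ = ‖d + (e - d)‖ := by congr 1; abel
      _ ≤ _ := norm_add_le _ _
  have e5 := neg_abs_le (g d (e - d))
  rw [e1, e3]
  linarith

lemma lemB (G : Submodule ℝ (StrongDual ℝ X))
    (hG : TopologicalSpace.IsSeparable (G : Set (StrongDual ℝ X))) :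
    ∃ E : Submodule ℝ X, TopologicalSpace.IsSeparable (E : Set X) ∧
      ∀ g ∈ G, ∀ ε : ℝ, 0 < ε → ∃ x ∈ E, ‖x‖ ≤ 1 ∧ ‖g‖ - ε ≤ g x := by
  obtain ⟨c, hc, hGc⟩ := hG
  choose x hx1 hx2 using fun p : StrongDual ℝ X × ℕ =>
    exists_almost_norming p.1 (η := 1 / ((p.2 : ℝ) + 1)) (by positivity)
  refine ⟨Submodule.span ℝ (x '' (c ×ˢ (univ : Set ℕ))),
    ((hc.prod countable_univ).image x).isSeparable.span, fun g hg ε hε => ?_⟩
  obtain ⟨d, hd, hgd⟩ := Metric.mem_closure_iff.1 (hGc hg) (ε / 3) (by positivity)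
  obtain ⟨n, hn⟩ := exists_nat_one_div_lt (show 0 < ε / 3 by positivity)
  refine ⟨x (d, n), Submodule.subset_span ⟨(d, n), ⟨hd, mem_univ _⟩, rfl⟩, hx1 _, ?_⟩
  rw [dist_eq_norm] at hgd
  have e1 := hx2 (d, n)
  simp only at e1
  have e2 : |(g - d) (x (d, n))| ≤ ‖g - d‖ := by
    have := (g - d).le_opNorm (x (d, n))
    rw [Real.norm_eq_abs] at this
    refine this.trans ?_
    have := mul_le_mul_of_nonneg_left (hx1 (d, n)) (norm_nonneg (g - d))
    linarith
  rw [_root_.sub_apply] at e2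
  have e3 := neg_abs_le (g (x (d, n)) - d (x (d, n)))
  have e4 : ‖g‖ ≤ ‖d‖ + ‖g - d‖ := by
    calc ‖g‖ = ‖d + (g - d)‖ := by congr 1; abel
      _ ≤ _ := norm_add_le _ _
  linarith

lemma exists_linInd (hinf : ¬ FiniteDimensional ℝ X) : ∃ b : ℕ → X, LinearIndependent ℝ b := by
  have h1 : ¬ (Module.rank ℝ X < Cardinal.aleph0) := fun h =>
    hinf (Module.rank_lt_aleph0_iff.1 h)
  push Not at h1
  obtain ⟨s, hs1, hs2⟩ := le_rank_iff_exists_linearIndependent.1 h1
  have : Infinite s := by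
    rw [Cardinal.infinite_iff, hs1]
  let φ := Infinite.natEmbedding s
  refine ⟨fun n => (φ n : X), ?_⟩
  have h3 : LinearIndependent ℝ (fun x : s => (x : X)) := hs2
  exact h3.comp φ φ.injective

lemma not_fd_of_linInd {b : ℕ → X} (hb : LinearIndependent ℝ b) (E : Submodule ℝ X)
    (h : ∀ n, b n ∈ E) : ¬ FiniteDimensional ℝ E := by
  intro hfin
  have h2 : LinearIndependent ℝ (fun n => (⟨b n, h n⟩ : E)) := by
    apply LinearIndependent.of_comp E.subtype
    exact hb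
  have h3 := h2.lt_aleph0_of_finiteDimensional
  simp at h3

lemma sep_sup {V : Type u} [NormedAddCommGroup V] [NormedSpace ℝ V] {A B : Submodule ℝ V}
    (hA : TopologicalSpace.IsSeparable (A : Set V)) (hB : TopologicalSpace.IsSeparable (B : Set V)) :
    TopologicalSpace.IsSeparable ((A ⊔ B : Submodule ℝ V) : Set V) := by
  rw [← Submodule.span_eq A, ← Submodule.span_eq B, ← Submodule.span_union]
  exact (hA.union hB).span

end LN1aux

open LN1aux

theorem LN1 : LN1_stm.{u} := by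
  intro X _ _ hinf
  obtain ⟨b, hb⟩ := exists_linInd hinf
  choose A hA1 hA2 using fun E : {E : Submodule ℝ X // TopologicalSpace.IsSeparable (E : Set X)} =>
    lemA E.1 E.2
  choose B hB1 hB2 using fun G : {G : Submodule ℝ (StrongDual ℝ X) //
    TopologicalSpace.IsSeparable (G : Set (StrongDual ℝ X))} => lemB G.1 G.2
  let st : ℕ → {E : Submodule ℝ X // TopologicalSpace.IsSeparable (E : Set X)} ×
      {G : Submodule ℝ (StrongDual ℝ X) // TopologicalSpace.IsSeparable (G : Set (StrongDual ℝ X))} :=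
    fun n => Nat.rec
      (⟨⟨Submodule.span ℝ (Set.range b), (countable_range b).isSeparable.span⟩,
        ⟨⊥, by
          rw [Submodule.bot_coe]
          exact (Set.countable_singleton _).isSeparable⟩⟩)
      (fun _ p => (⟨p.1.1 ⊔ B p.2, sep_sup p.1.2 (hB1 _)⟩, ⟨p.2.1 ⊔ A p.1, sep_sup p.2.2 (hA1 _)⟩)) n
  set E : ℕ → Submodule ℝ X := fun n => (st n).1.1 with hE
  set G : ℕ → Submodule ℝ (StrongDual ℝ X) := fun n => (st n).2.1 with hG
  have hE1 : ∀ n, E (n + 1) = E n ⊔ B (st n).2 := fun n => rfl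
  have hG1 : ∀ n, G (n + 1) = G n ⊔ A (st n).1 := fun n => rfl
  have hEm : Monotone E := monotone_nat_of_le_succ fun n => by rw [hE1]; exact le_sup_left
  have hGm : Monotone G := monotone_nat_of_le_succ fun n => by rw [hG1]; exact le_sup_left
  have hEs : ∀ n, TopologicalSpace.IsSeparable (E n : Set X) := fun n => (st n).1.2
  have hGs : ∀ n, TopologicalSpace.IsSeparable (G n : Set (StrongDual ℝ X)) := fun n => (st n).2.2
  set Ei : Submodule ℝ X := ⨆ n, E n with hEi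
  set Gi : Submodule ℝ (StrongDual ℝ X) := ⨆ n, G n with hGi
  have hEmem : ∀ x, x ∈ Ei ↔ ∃ n, x ∈ E n := fun x =>
    Submodule.mem_iSup_of_directed E hEm.directed_le
  have hGmem : ∀ x, x ∈ Gi ↔ ∃ n, x ∈ G n := fun x =>
    Submodule.mem_iSup_of_directed G hGm.directed_le
  have hEisep : TopologicalSpace.IsSeparable (Ei : Set X) := by
    have : (Ei : Set X) = ⋃ n, (E n : Set X) := by
      ext x; simp only [SetLike.mem_coe, mem_iUnion]; exact hEmem x
    rw [this]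
    exact TopologicalSpace.IsSeparable.iUnion hEs
  -- norming
  have hn1 : ∀ e ∈ Ei, ∀ ε : ℝ, 0 < ε → ∃ g ∈ Gi, ‖g‖ ≤ 1 ∧ ‖e‖ - ε ≤ g e := by
    intro e he ε hε
    obtain ⟨n, hn⟩ := (hEmem e).1 he
    obtain ⟨g, hg, hg1, hg2⟩ := hA2 (st n).1 e hn ε hε
    refine ⟨g, (hGmem g).2 ⟨n + 1, ?_⟩, hg1, hg2⟩
    rw [hG1]
    exact (le_sup_right : A (st n).1 ≤ G n ⊔ A (st n).1) hg
  have hn2 : ∀ g ∈ Gi, ∀ ε : ℝ, 0 < ε → ∃ x ∈ Ei, ‖x‖ ≤ 1 ∧ ‖g‖ - ε ≤ g x := by
    intro g hg ε hε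
    obtain ⟨n, hn⟩ := (hGmem g).1 hg
    obtain ⟨x, hx, hx1, hx2⟩ := hB2 (st n).2 g hn ε hε
    refine ⟨x, (hEmem x).2 ⟨n + 1, ?_⟩, hx1, hx2⟩
    rw [hE1]
    exact (le_sup_right : B (st n).2 ≤ E n ⊔ B (st n).2) hx
  refine ⟨Ei.topologicalClosure, Gi.topologicalClosure, Ei.isClosed_topologicalClosure, ?_, ?_,
    Gi.isClosed_topologicalClosure, ?_, ?_⟩
  · rw [Submodule.topologicalClosure_coe]
    exact hEisep.closure
  · refine not_fd_of_linInd hb _ fun n => Ei.le_topologicalClosure ?_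
    exact (hEmem _).2 ⟨0, Submodule.subset_span ⟨n, rfl⟩⟩
  · intro e he c hc
    refine le_of_forall_pos_le_add fun ε hε => ?_
    have he' : e ∈ closure (Ei : Set X) := by
      rw [← Submodule.topologicalClosure_coe]; exact he
    obtain ⟨d, hd, hed⟩ := Metric.mem_closure_iff.1 he' (ε / 3) (by positivity)
    rw [dist_eq_norm] at hed
    obtain ⟨g, hg, hg1, hg2⟩ := hn1 d hd (ε / 3) (by positivity)
    have e1 := hc g (Gi.le_topologicalClosure hg) hg1
    have e2 : |g (e - d)| ≤ ‖e - d‖ := by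
      have := g.le_opNorm (e - d)
      rw [Real.norm_eq_abs] at this
      refine this.trans ?_
      have := mul_le_mul_of_nonneg_right hg1 (norm_nonneg (e - d))
      linarith
    rw [map_sub] at e2
    have e3 := neg_abs_le (g e - g d)
    have e4 : ‖e‖ ≤ ‖d‖ + ‖e - d‖ := by
      calc ‖e‖ = ‖d + (e - d)‖ := by congr 1; abel
        _ ≤ _ := norm_add_le _ _
    linarith
  · intro g hg h0
    have hg' : g ∈ closure (Gi : Set (StrongDual ℝ X)) := by
      rw [← Submodule.topologicalClosure_coe]; exact hg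
    rw [← norm_le_zero_iff]
    refine le_of_forall_pos_le_add fun ε hε => ?_
    obtain ⟨d, hd, hgd⟩ := Metric.mem_closure_iff.1 hg' (ε / 3) (by positivity)
    rw [dist_eq_norm] at hgd
    obtain ⟨x, hx, hx1, hx2⟩ := hn2 d hd (ε / 3) (by positivity)
    have e1 : g x = 0 := h0 x (Ei.le_topologicalClosure hx)
    have e2 : |(g - d) x| ≤ ‖g - d‖ := by
      have := (g - d).le_opNorm x
      rw [Real.norm_eq_abs] at this
      refine this.trans ?_
      have := mul_le_mul_of_nonneg_left hx1 (norm_nonneg (g - d))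
      linarith
    rw [_root_.sub_apply, e1, zero_sub, abs_neg] at e2
    have e3 := le_abs_self (d x)
    have e4 : ‖g‖ ≤ ‖d‖ + ‖g - d‖ := by
      calc ‖g‖ = ‖d + (g - d)‖ := by congr 1; abel
        _ ≤ _ := norm_add_le _ _
    linarith

end H857NC
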