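import Mathlib
import Pool.Agent.H857R2.NC.Stm

/-!
A projection onto a subspace which is mutually norming with a reflexive space of functionals.
-/

set_option autoImplicit false

namespace H857NC

open Filter Topology Set

universe u

section

private lemma ln2_sep {V : Type u} [NormedAddCommGroup V] [NormedSpace ℝ V] (S : Submodule ℝ V)
    (hS : IsClosed (S : Set V)) (y : V) (hy : y ∉ S) :
    ∃ z : StrongDual ℝ V, z y ≠ 0 ∧ ∀ s ∈ S, z s = 0 := by
  obtain ⟨f, u, hf, hu⟩ := geometric_hahn_banach_closed_point S.convex hS hy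
  have h0 : 0 < u := by
    have := hf 0 S.zero_mem
    rwa [map_zero] at this
  refine ⟨f, by intro h; rw [h] at hu; linarith, fun s hs => ?_⟩
  by_contra hne
  have h1 := hf ((u / f s) • s) (S.smul_mem _ hs)
  rw [map_smul, smul_eq_mul, div_mul_cancel₀ _ hne] at h1
  exact lt_irrefl _ h1

private lemma ln2_aux {X V G : Type u} [NormedAddCommGroup X] [NormedSpace ℝ X] [CompleteSpace X]
    [NormedAddCommGroup V] [NormedSpace ℝ V] [NormedAddCommGroup G] [NormedSpace ℝ G]
    (ev : X →L[ℝ] StrongDual ℝ V) (i : G →L[ℝ] V) (E : Submodule ℝ X) (hE : IsClosed (E : Set X))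
    (hnorm : ∀ e ∈ E, ∀ c : ℝ, (∀ g : G, ‖g‖ ≤ 1 → ev e (i g) ≤ c) → ‖e‖ ≤ c)
    (hG : ∀ g : G, (∀ e ∈ E, ev e (i g) = 0) → g = 0)
    (hrefl : Function.Surjective (NormedSpace.inclusionInDoubleDual ℝ G)) :
    ∃ P : X →L[ℝ] X, (∀ x, P x ∈ E) ∧ ∀ x ∈ E, P x = x := by
  have : CompleteSpace E := hE.completeSpace_coe
  set R : X →L[ℝ] StrongDual ℝ G := ((ContinuousLinearMap.compL ℝ G V ℝ).flip i).comp ev with hR
  have hRa : ∀ (x : X) (g : G), R x g = ev x (i g) := fun x g => rfl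
  set T : E →L[ℝ] StrongDual ℝ G := R.comp E.subtypeL with hT
  have hTa : ∀ (x : E) (g : G), T x g = ev x (i g) := fun x g => rfl
  have hbelow : ∀ e : E, ‖e‖ ≤ ‖T e‖ := by
    intro e
    refine hnorm e e.2 _ fun g hg1 => ?_
    calc ev e (i g) = T e g := rfl
      _ ≤ ‖T e g‖ := le_abs_self _
      _ ≤ ‖T e‖ * ‖g‖ := (T e).le_opNorm _
      _ ≤ ‖T e‖ * 1 := mul_le_mul_of_nonneg_left hg1 (norm_nonneg _)
      _ = ‖T e‖ := mul_one _
  have hanti : AntilipschitzWith 1 T := by
    refine AddMonoidHomClass.antilipschitz_of_bound T (K := 1) fun x => ?_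
    simpa using hbelow x
  have hker : LinearMap.ker (T : E →ₗ[ℝ] StrongDual ℝ G) = ⊥ := LinearMap.ker_eq_bot.2 hanti.injective
  have hclosed : IsClosed (Set.range T) := hanti.isClosed_range T.uniformContinuous
  have hrange : LinearMap.range (T : E →ₗ[ℝ] StrongDual ℝ G) = ⊤ := by
    rw [Submodule.eq_top_iff']
    intro y
    by_contra hy
    obtain ⟨z, hz1, hz2⟩ := ln2_sep (LinearMap.range (T : E →ₗ[ℝ] StrongDual ℝ G))
      (by rw [LinearMap.coe_range]; exact hclosed) y hy
    obtain ⟨g, hg⟩ := hrefl z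
    have h3 : g = 0 := by
      refine hG g fun e he => ?_
      have h2 := hz2 (T ⟨e, he⟩) ⟨_, rfl⟩
      rw [← hg, NormedSpace.dual_def] at h2
      exact h2
    apply hz1
    rw [← hg, h3, map_zero]
    rfl
  set e := ContinuousLinearEquiv.ofBijective T hker hrange with he
  refine ⟨E.subtypeL.comp ((e.symm : StrongDual ℝ G →L[ℝ] E).comp R), fun x => ?_, fun x hx => ?_⟩
  · exact (e.symm (R x)).2
  · have h1 : R x = e ⟨x, hx⟩ := rfl
    change ((e.symm (R x) : E) : X) = x
    rw [h1, ContinuousLinearEquiv.symm_apply_apply]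

end

theorem LN2 : LN2_stm.{u} := by
  intro X _ _ _ E G hE hnorm hG hrefl
  refine ln2_aux (G := G) (NormedSpace.inclusionInDoubleDual ℝ X) G.subtypeL E hE ?_ ?_ hrefl
  · intro e he c hc
    exact hnorm e he c fun g hg hg1 => hc ⟨g, hg⟩ hg1
  · intro g hg
    exact Subtype.ext (hG g g.2 hg)

end H857NC
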