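import Mathlib
import Pool.Agent.H857R2.NC.Stm

set_option autoImplicit false
set_option linter.all false

namespace H857NC

open Filter Topology Set

universe u

section LURaux

variable {X : Type u} [NormedAddCommGroup X] [NormedSpace ℝ X]

/-- truncated square -/
noncomputable def LUR_q (v : ℕ → X) (m : ℕ) (g : StrongDual ℝ X) : ℝ :=
  ‖g‖ ^ 2 + ∑ n ∈ Finset.range m, (4 : ℝ) ^ n * (g (v n)) ^ 2

/-- the dual unit ball -/
def LUR_K (v : ℕ → X) : Set (StrongDual ℝ X) := {g | ∀ m, LUR_q v m g ≤ 1}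

/-- the norm -/
noncomputable def LUR_p (v : ℕ → X) (x : X) : ℝ := sSup ((fun g : StrongDual ℝ X => g x) '' LUR_K v)

theorem LUR_q_smul (v : ℕ → X) (m : ℕ) (a : ℝ) (g : StrongDual ℝ X) :
    LUR_q v m (a • g) = a ^ 2 * LUR_q v m g := by
  unfold LUR_q
  rw [norm_smul, mul_add, Finset.mul_sum, mul_pow, Real.norm_eq_abs, sq_abs]
  congr 1
  refine Finset.sum_congr rfl (fun n _ => ?_)
  rw [ContinuousLinearMap.smul_apply, smul_eq_mul]; ring

theorem LUR_zero (v : ℕ → X) : (0 : StrongDual ℝ X) ∈ LUR_K v := by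
  intro m
  unfold LUR_q
  simp

theorem LUR_neg (v : ℕ → X) {g : StrongDual ℝ X} (hg : g ∈ LUR_K v) : -g ∈ LUR_K v := by
  intro m
  have h1 := LUR_q_smul v m (-1) g
  have e : (-1 : ℝ) • g = -g := by
    ext y
    rw [ContinuousLinearMap.smul_apply, ContinuousLinearMap.neg_apply, smul_eq_mul]; ring
  rw [e] at h1
  rw [h1]
  have h2 := hg m
  linarith

theorem LUR_norm (v : ℕ → X) {g : StrongDual ℝ X} (hg : g ∈ LUR_K v) : ‖g‖ ≤ 1 := by
  have h := hg 0
  unfold LUR_q at h
  simp only [Finset.range_zero, Finset.sum_empty, add_zero] at h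
  nlinarith [norm_nonneg g]

theorem LUR_le_norm (v : ℕ → X) {g : StrongDual ℝ X} (hg : g ∈ LUR_K v) (x : X) : g x ≤ ‖x‖ := by
  calc g x ≤ ‖g x‖ := Real.le_norm_self _
    _ ≤ ‖g‖ * ‖x‖ := g.le_opNorm _
    _ ≤ 1 * ‖x‖ := mul_le_mul_of_nonneg_right (LUR_norm v hg) (norm_nonneg _)
    _ = ‖x‖ := one_mul _

theorem LUR_bdd (v : ℕ → X) (x : X) :
    BddAbove ((fun g : StrongDual ℝ X => g x) '' LUR_K v) := by
  refine ⟨‖x‖, ?_⟩
  rintro _ ⟨g, hg, rfl⟩
  exact LUR_le_norm v hg x

theorem LUR_le (v : ℕ → X) {g : StrongDual ℝ X} (hg : g ∈ LUR_K v) (x : X) : g x ≤ LUR_p v x :=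
  le_csSup (LUR_bdd v x) ⟨g, hg, rfl⟩

theorem LUR_sup_le (v : ℕ → X) (x : X) {c : ℝ} (h : ∀ g ∈ LUR_K v, g x ≤ c) : LUR_p v x ≤ c := by
  refine csSup_le ⟨_, ⟨0, LUR_zero v, rfl⟩⟩ ?_
  rintro _ ⟨g, hg, rfl⟩
  exact h g hg

theorem LUR_nonneg (v : ℕ → X) (x : X) : 0 ≤ LUR_p v x := by
  have := LUR_le v (LUR_zero v) x
  simpa using this

theorem LUR_p_le (v : ℕ → X) (x : X) : LUR_p v x ≤ ‖x‖ :=
  LUR_sup_le v x (fun g hg => LUR_le_norm v hg x)

/-- the `κ`-lemma -/
theorem LUR_kappa (v : ℕ → X) {u : StrongDual ℝ X} {B : ℝ} (h : ∀ m, LUR_q v m u ≤ B) (x : X) :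
    u x ≤ Real.sqrt B * LUR_p v x := by
  have hB : 0 ≤ B := by
    refine le_trans ?_ (h 0)
    unfold LUR_q
    simp
  rcases hB.eq_or_lt with h0 | h0
  · have h1 := h 0
    unfold LUR_q at h1
    simp only [Finset.range_zero, Finset.sum_empty, add_zero] at h1
    rw [← h0] at h1
    have h2 : ‖u‖ = 0 := by nlinarith [norm_nonneg u]
    rw [norm_eq_zero] at h2
    rw [h2, ← h0]; simp
  · have hs : 0 < Real.sqrt B := Real.sqrt_pos.mpr h0
    have h1 : ((Real.sqrt B)⁻¹ • u) ∈ LUR_K v := by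
      intro m
      rw [LUR_q_smul, inv_pow, Real.sq_sqrt hB, inv_mul_le_iff₀ h0, mul_one]
      exact h m
    have h2 := LUR_le v h1 x
    rw [ContinuousLinearMap.smul_apply, smul_eq_mul, inv_mul_le_iff₀ hs] at h2
    exact h2

theorem LUR_add (v : ℕ → X) (x y : X) : LUR_p v (x + y) ≤ LUR_p v x + LUR_p v y := by
  refine LUR_sup_le v _ (fun g hg => ?_)
  rw [map_add]
  exact add_le_add (LUR_le v hg x) (LUR_le v hg y)

theorem LUR_smul (v : ℕ → X) (a : ℝ) (x : X) : LUR_p v (a • x) ≤ ‖a‖ * LUR_p v x := by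
  refine LUR_sup_le v _ (fun g hg => ?_)
  rw [map_smul, smul_eq_mul, Real.norm_eq_abs]
  rcases le_total 0 a with ha | ha
  · rw [abs_of_nonneg ha]
    exact mul_le_mul_of_nonneg_left (LUR_le v hg x) ha
  · rw [abs_of_nonpos ha]
    have := LUR_le v (LUR_neg v hg) x
    rw [ContinuousLinearMap.neg_apply] at this
    nlinarith

/-- attained maximum -/
theorem LUR_att (v : ℕ → X) (x : X) : ∃ g ∈ LUR_K v, g x = LUR_p v x := by
  have hcomp : IsCompact ((WeakDual.toStrongDual (𝕜 := ℝ) (E := X)) ⁻¹' (LUR_K v)) := by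
    have hcl : IsClosed ((WeakDual.toStrongDual (𝕜 := ℝ) (E := X)) ⁻¹' (LUR_K v)) := by
      have e : (WeakDual.toStrongDual (𝕜 := ℝ) (E := X)) ⁻¹' (LUR_K v) =
          ⋂ (m : ℕ) (y : X) (_ : ‖y‖ ≤ 1), {g : WeakDual ℝ X |
            (g y) ^ 2 + ∑ n ∈ Finset.range m, (4 : ℝ) ^ n * (g (v n)) ^ 2 ≤ 1} := by
        ext g
        simp only [mem_preimage, mem_iInter, mem_setOf_eq]
        constructor
        · intro h m y hy
          have h1 := h m
          unfold LUR_q at h1
          have h2 : ‖(WeakDual.toStrongDual g) y‖ ≤ ‖WeakDual.toStrongDual g‖ := by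
            calc ‖(WeakDual.toStrongDual g) y‖ ≤ ‖WeakDual.toStrongDual g‖ * ‖y‖ :=
                  (WeakDual.toStrongDual g).le_opNorm _
              _ ≤ ‖WeakDual.toStrongDual g‖ * 1 := mul_le_mul_of_nonneg_left hy (norm_nonneg _)
              _ = _ := mul_one _
          have h3 := pow_le_pow_left₀ (norm_nonneg _) h2 2
          rw [Real.norm_eq_abs, sq_abs] at h3
          have h4 : (WeakDual.toStrongDual g) y = g y := rfl
          rw [h4] at h3
          have h5 : ∀ n, (WeakDual.toStrongDual g) (v n) = g (v n) := fun n => rfl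
          simp only [h5] at h1
          linarith
        · intro h m
          unfold LUR_q
          have h5 : ∀ n, (WeakDual.toStrongDual g) (v n) = g (v n) := fun n => rfl
          simp only [h5]
          set S : ℝ := ∑ n ∈ Finset.range m, (4 : ℝ) ^ n * (g (v n)) ^ 2 with hS
          have hS1 : S ≤ 1 := by
            have := h m 0 (by simp)
            rw [map_zero] at this
            linarith
          have h6 : ‖WeakDual.toStrongDual g‖ ≤ Real.sqrt (1 - S) := by
            refine ContinuousLinearMap.opNorm_le_of_unit_norm (Real.sqrt_nonneg _) (fun y hy => ?_)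
            have h7 := h m y hy.le
            have h8 : (WeakDual.toStrongDual g) y = g y := rfl
            rw [h8, Real.norm_eq_abs]
            apply Real.abs_le_sqrt
            linarith
          have h9 := pow_le_pow_left₀ (norm_nonneg _) h6 2
          rw [Real.sq_sqrt (by linarith)] at h9
          linarith
      rw [e]
      refine isClosed_iInter (fun m => isClosed_iInter (fun y => isClosed_iInter (fun _ => ?_)))
      refine isClosed_le ?_ continuous_const
      refine ((WeakDual.eval_continuous y).pow 2).add ?_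
      refine continuous_finset_sum _ (fun n _ => ?_)
      exact continuous_const.mul ((WeakDual.eval_continuous (v n)).pow 2)
    refine (WeakDual.isCompact_closedBall (𝕜 := ℝ) (E := X) 0 1).of_isClosed_subset hcl ?_
    intro g hg
    simp only [mem_preimage] at hg ⊢
    rw [mem_closedBall_zero_iff]
    exact LUR_norm v hg
  obtain ⟨g, hg, hmax⟩ := hcomp.exists_isMaxOn (f := fun g : WeakDual ℝ X => g x)
    ⟨0, LUR_zero v⟩ (WeakDual.eval_continuous x).continuousOn
  refine ⟨WeakDual.toStrongDual g, hg, le_antisymm (LUR_le v hg x) ?_⟩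
  refine LUR_sup_le v x (fun u hu => ?_)
  exact hmax (a := (WeakDual.toStrongDual (𝕜 := ℝ) (E := X)).symm u) hu

/-- the key convergence -/
theorem LUR_conv (hLUR : ∀ (g : StrongDual ℝ X) (gn : ℕ → StrongDual ℝ X),
      Tendsto (fun n => 2 * ‖g‖ ^ 2 + 2 * ‖gn n‖ ^ 2 - ‖g + gn n‖ ^ 2) atTop (𝓝 0) →
      Tendsto gn atTop (𝓝 g)) (v : ℕ → X) (x : X) (hx : 0 < LUR_p v x) {g : StrongDual ℝ X}
    (hg : g ∈ LUR_K v) (hgx : g x = LUR_p v x) (gn : ℕ → StrongDual ℝ X)
    (hgn : ∀ n, gn n ∈ LUR_K v) (hlim : Tendsto (fun n => gn n x) atTop (𝓝 (LUR_p v x))) :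
    Tendsto gn atTop (𝓝 g) := by
  apply hLUR
  have hupper : ∀ n, 0 ≤ LUR_p v x + gn n x →
      2 * ‖g‖ ^ 2 + 2 * ‖gn n‖ ^ 2 - ‖g + gn n‖ ^ 2 ≤
        4 - ((LUR_p v x + gn n x) / LUR_p v x) ^ 2 := by
    intro n hn
    set D : ℝ := 2 * ‖g‖ ^ 2 + 2 * ‖gn n‖ ^ 2 - ‖g + gn n‖ ^ 2 with hD
    have h1 : ∀ m, LUR_q v m (g + gn n) ≤ 4 - D := by
      intro m
      have h2 := hg m
      have h3 := hgn n m
      unfold LUR_q at h2 h3 ⊢
      have h4 : ∑ j ∈ Finset.range m, (4 : ℝ) ^ j * ((g + gn n) (v j)) ^ 2 ≤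
          2 * ∑ j ∈ Finset.range m, (4 : ℝ) ^ j * (g (v j)) ^ 2 +
          2 * ∑ j ∈ Finset.range m, (4 : ℝ) ^ j * (gn n (v j)) ^ 2 := by
        rw [Finset.mul_sum, Finset.mul_sum, ← Finset.sum_add_distrib]
        refine Finset.sum_le_sum (fun j _ => ?_)
        rw [ContinuousLinearMap.add_apply]
        have : (0:ℝ) ≤ (4 : ℝ) ^ j * (g (v j) - gn n (v j)) ^ 2 := by positivity
        nlinarith
      linarith
    have h5 := LUR_kappa v h1 x
    rw [ContinuousLinearMap.add_apply, hgx] at h5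
    have h6 : 0 ≤ 4 - D := by
      refine le_trans ?_ (h1 0)
      unfold LUR_q; simp
    have h7 : (LUR_p v x + gn n x) / LUR_p v x ≤ Real.sqrt (4 - D) := by
      rw [div_le_iff₀ hx]; exact h5
    have h8 := pow_le_pow_left₀ (div_nonneg hn hx.le) h7 2
    rw [Real.sq_sqrt h6] at h8
    linarith
  have hlow : ∀ n, 0 ≤ 2 * ‖g‖ ^ 2 + 2 * ‖gn n‖ ^ 2 - ‖g + gn n‖ ^ 2 := by
    intro n
    have h1 := norm_add_le g (gn n)
    have h2 := pow_le_pow_left₀ (norm_nonneg _) h1 2
    nlinarith [sq_nonneg (‖g‖ - ‖gn n‖)]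
  have hev : ∀ᶠ n in atTop, 0 ≤ LUR_p v x + gn n x := by
    have h1 : Tendsto (fun n => LUR_p v x + gn n x) atTop (𝓝 (LUR_p v x + LUR_p v x)) :=
      tendsto_const_nhds.add hlim
    exact (h1.eventually (lt_mem_nhds (show (0:ℝ) < LUR_p v x + LUR_p v x by linarith))).mono
      (fun n hn => hn.le)
  have hl2 : Tendsto (fun n => 4 - ((LUR_p v x + gn n x) / LUR_p v x) ^ 2) atTop (𝓝 0) := by
    have h1 : Tendsto (fun n => 4 - ((LUR_p v x + gn n x) / LUR_p v x) ^ 2) atTop
        (𝓝 (4 - ((LUR_p v x + LUR_p v x) / LUR_p v x) ^ 2)) :=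
      tendsto_const_nhds.sub (((tendsto_const_nhds.add hlim).div_const _).pow 2)
    have h2 : (4 : ℝ) - ((LUR_p v x + LUR_p v x) / LUR_p v x) ^ 2 = 0 := by
      have : (LUR_p v x + LUR_p v x) / LUR_p v x = 2 := by field_simp; ring
      rw [this]; norm_num
    rw [h2] at h1
    exact h1
  refine tendsto_of_tendsto_of_tendsto_of_le_of_le' tendsto_const_nhds hl2
    (Eventually.of_forall hlow) ?_
  filter_upwards [hev] with n hn
  exact hupper n hn

/-- differentiability -/
theorem LUR_diff (hLUR : ∀ (g : StrongDual ℝ X) (gn : ℕ → StrongDual ℝ X),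
      Tendsto (fun n => 2 * ‖g‖ ^ 2 + 2 * ‖gn n‖ ^ 2 - ‖g + gn n‖ ^ 2) atTop (𝓝 0) →
      Tendsto gn atTop (𝓝 g)) (v : ℕ → X) (x : X) (hx : 0 < LUR_p v x) :
    DifferentiableAt ℝ (LUR_p v) x := by
  obtain ⟨g, hg, hgx⟩ := LUR_att v x
  have hex : ∀ h : X, ∃ u ∈ LUR_K v, u (x + h) = LUR_p v (x + h) := fun h => LUR_att v (x + h)
  choose G hGK hG using hex
  have hGt : Tendsto G (𝓝 0) (𝓝 g) := by
    apply tendsto_of_seq_tendsto
    intro hn hn0
    refine LUR_conv hLUR v x hx hg hgx (G ∘ hn) (fun n => hGK _) ?_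
    have hn1 : Tendsto (fun n => ‖hn n‖) atTop (𝓝 0) := by
      have := hn0.norm
      rwa [norm_zero] at this
    have hl : Tendsto (fun n => LUR_p v x - 2 * ‖hn n‖) atTop (𝓝 (LUR_p v x)) := by
      have := (tendsto_const_nhds (x := LUR_p v x)).sub (hn1.const_mul 2)
      rwa [mul_zero, sub_zero] at this
    refine tendsto_of_tendsto_of_tendsto_of_le_of_le hl tendsto_const_nhds (fun n => ?_)
      (fun n => LUR_le v (hGK _) x)
    have h1 := hG (hn n)
    rw [map_add] at h1
    have h2 := LUR_le_norm v (hGK (hn n)) (hn n)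
    have h3 : LUR_p v x ≤ LUR_p v (x + hn n) + ‖hn n‖ := by
      have h4 := LUR_add v (x + hn n) (-hn n)
      rw [add_neg_cancel_right] at h4
      have h5 := LUR_p_le v (-hn n)
      rw [norm_neg] at h5
      linarith
    simp only [Function.comp]
    linarith
  have hder : HasFDerivAt (LUR_p v) g x := by
    rw [hasFDerivAt_iff_isLittleO_nhds_zero, Asymptotics.isLittleO_iff]
    intro c hc
    have h1 : ∀ᶠ h in 𝓝 (0 : X), ‖G h - g‖ < c := by
      have h2 : Tendsto (fun h => ‖G h - g‖) (𝓝 0) (𝓝 0) := by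
        have := (hGt.sub_const g).norm
        rwa [sub_self, norm_zero] at this
      exact h2.eventually (gt_mem_nhds hc)
    filter_upwards [h1] with h hh
    have e1 : LUR_p v (x + h) = G h x + G h h := by rw [← hG h, map_add]
    have e2 : g x + g h ≤ LUR_p v (x + h) := by
      have := LUR_le v hg (x + h)
      rwa [map_add] at this
    have e3 : G h x ≤ LUR_p v x := LUR_le v (hGK h) x
    have e4 : G h h - g h ≤ c * ‖h‖ := by
      calc G h h - g h = (G h - g) h := by rw [ContinuousLinearMap.sub_apply]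
        _ ≤ ‖(G h - g) h‖ := Real.le_norm_self _
        _ ≤ ‖G h - g‖ * ‖h‖ := (G h - g).le_opNorm _
        _ ≤ c * ‖h‖ := mul_le_mul_of_nonneg_right hh.le (norm_nonneg _)
    rw [Real.norm_eq_abs, abs_of_nonneg (by linarith)]
    linarith
  exact hder.differentiableAt

end LURaux

theorem LUR : LUR_stm.{u} := by
  intro X _ _ _ hLUR E hE f v hf htot hv hfv
  have hp0 : ∀ x, LUR_p v x = 0 → x = 0 := by
    intro x hx
    have key : ∀ (u : StrongDual ℝ X) (B : ℝ), (∀ m, LUR_q v m u ≤ B) → u x ≤ 0 := by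
      intro u B hB
      have := LUR_kappa v hB x
      rwa [hx, mul_zero] at this
    have hxE : x ∈ E := by
      by_contra hxE
      obtain ⟨u, c, h1, h2⟩ := geometric_hahn_banach_point_closed (E.convex) hE hxE
      have h3 : ∀ b ∈ E, u b = 0 := by
        intro b hb
        by_contra hne
        have h4 := h2 (((c - 1) / u b) • b) (E.smul_mem _ hb)
        rw [map_smul, smul_eq_mul, div_mul_cancel₀ _ hne] at h4
        linarith
      have h5 : c < 0 := by
        have := h2 0 E.zero_mem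
        rwa [map_zero] at this
      have h6 : (-u) x ≤ 0 := by
        refine key (-u) (‖u‖ ^ 2) (fun m => ?_)
        unfold LUR_q
        rw [norm_neg]
        have : ∑ n ∈ Finset.range m, (4 : ℝ) ^ n * ((-u) (v n)) ^ 2 = 0 := by
          refine Finset.sum_eq_zero (fun n _ => ?_)
          rw [ContinuousLinearMap.neg_apply, h3 _ (hv n).1]
          simp
        rw [this, add_zero]
      rw [ContinuousLinearMap.neg_apply] at h6
      linarith
    refine htot x hxE (fun m => ?_)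
    have hB : ∀ s : ℝ, s ^ 2 = 1 → ∀ k, LUR_q v k (s • f m) ≤
        1 + ∑ n ∈ Finset.range (m + 1), (4 : ℝ) ^ n := by
      intro s hs k
      rw [LUR_q_smul, hs, one_mul]
      unfold LUR_q
      have h1 : ‖f m‖ ^ 2 ≤ 1 := by
        have := pow_le_pow_left₀ (norm_nonneg _) (hf m) 2
        simpa using this
      have h2 : ∑ n ∈ Finset.range k, (4 : ℝ) ^ n * (f m (v n)) ^ 2 ≤
          ∑ n ∈ Finset.range (m + 1), (4 : ℝ) ^ n := by
        calc ∑ n ∈ Finset.range k, (4 : ℝ) ^ n * (f m (v n)) ^ 2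
            ≤ ∑ n ∈ Finset.range k ∩ Finset.range (m + 1), (4 : ℝ) ^ n * (f m (v n)) ^ 2 := by
              apply le_of_eq
              symm
              apply Finset.sum_subset Finset.inter_subset_left
              intro n hn1 hn2
              have : m < n := by
                by_contra hcon
                exact hn2 (Finset.mem_inter.mpr ⟨hn1, Finset.mem_range.mpr (by omega)⟩)
              rw [hfv m n this]; simp
          _ ≤ ∑ n ∈ Finset.range k ∩ Finset.range (m + 1), (4 : ℝ) ^ n := by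
              refine Finset.sum_le_sum (fun n _ => ?_)
              have h3 : |f m (v n)| ≤ 1 := by
                calc |f m (v n)| = ‖f m (v n)‖ := (Real.norm_eq_abs _).symm
                  _ ≤ ‖f m‖ * ‖v n‖ := (f m).le_opNorm _
                  _ ≤ 1 := by rw [(hv n).2, mul_one]; exact hf m
              have h4 : (f m (v n)) ^ 2 ≤ 1 := by
                rw [← sq_abs]
                have := pow_le_pow_left₀ (abs_nonneg _) h3 2
                simpa using this
              have h5 : (0:ℝ) < (4 : ℝ) ^ n := by positivity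
              nlinarith
          _ ≤ ∑ n ∈ Finset.range (m + 1), (4 : ℝ) ^ n :=
              Finset.sum_le_sum_of_subset_of_nonneg Finset.inter_subset_right
                (fun _ _ _ => by positivity)
      linarith
    have h1 := key _ _ (hB 1 (by norm_num))
    have h2 := key _ _ (hB (-1) (by norm_num))
    rw [ContinuousLinearMap.smul_apply, smul_eq_mul] at h1 h2
    linarith
  have hp00 : LUR_p v 0 = 0 := by
    refine le_antisymm ?_ (LUR_nonneg v 0)
    have := LUR_p_le v 0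
    rwa [norm_zero] at this
  refine ⟨Seminorm.ofSMulLE (LUR_p v) hp00 (LUR_add v) (LUR_smul v), hp0, ?_, ?_, ?_⟩
  · exact ⟨1, fun x => by rw [one_mul]; exact LUR_p_le v x⟩
  · intro a ha
    obtain ⟨n, hn⟩ := exists_pow_lt_of_lt_one ha (show (1 / 2 : ℝ) < 1 by norm_num)
    refine ⟨v n, ?_⟩
    change LUR_p v (v n) < _
    rw [(hv n).2, mul_one]
    refine lt_of_le_of_lt (LUR_sup_le v _ (fun g hg => ?_)) hn
    have h1 := hg (n + 1)
    unfold LUR_q at h1
    rw [Finset.sum_range_succ] at h1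
    have h2 : 0 ≤ ∑ j ∈ Finset.range n, (4 : ℝ) ^ j * (g (v j)) ^ 2 :=
      Finset.sum_nonneg (fun _ _ => by positivity)
    have h3 : (4 : ℝ) ^ n * (g (v n)) ^ 2 ≤ 1 := by nlinarith [sq_nonneg ‖g‖]
    have h4 : ((1 / 2 : ℝ) ^ n) ^ 2 * (4 : ℝ) ^ n = 1 := by
      rw [← pow_mul, mul_comm n 2, pow_mul, ← mul_pow]
      norm_num
    have h5 : (g (v n)) ^ 2 ≤ ((1 / 2 : ℝ) ^ n) ^ 2 := by
      have h6 : 0 ≤ ((1 / 2 : ℝ) ^ n) ^ 2 := by positivity
      calc (g (v n)) ^ 2 = ((1 / 2 : ℝ) ^ n) ^ 2 * (4 : ℝ) ^ n * (g (v n)) ^ 2 := by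
            rw [h4, one_mul]
        _ = ((1 / 2 : ℝ) ^ n) ^ 2 * ((4 : ℝ) ^ n * (g (v n)) ^ 2) := by ring
        _ ≤ ((1 / 2 : ℝ) ^ n) ^ 2 * 1 := mul_le_mul_of_nonneg_left h3 h6
        _ = _ := mul_one _
    exact le_of_sq_le_sq h5 (by positivity)
  · intro x hx
    change DifferentiableAt ℝ (LUR_p v) x
    refine LUR_diff hLUR v x ?_
    exact lt_of_le_of_ne (LUR_nonneg v x) (fun h => hx (hp0 x h.symm))

end H857NC
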