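import Mathlib
import Pool.Agent.H857R2.NC.Stm

set_option autoImplicit false

namespace H857NC

open Filter Topology Set

universe u

/-- type synonym, to carry the second norm -/
def NCY (X : Type u) : Type u := X

instance (X : Type u) [AddCommGroup X] : AddCommGroup (NCY X) := inferInstanceAs (AddCommGroup X)

instance (X : Type u) [AddCommGroup X] [Module ℝ X] : Module ℝ (NCY X) :=
  inferInstanceAs (Module ℝ X)

/-- the second norm as a norm of the additive group -/
def NCnorm {X : Type u} [NormedAddCommGroup X] [NormedSpace ℝ X] (p : Seminorm ℝ X)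
    (hp : ∀ x, p x = 0 → x = 0) : AddGroupNorm (NCY X) where
  toFun := fun x => p x
  map_zero' := map_zero p
  add_le' := map_add_le_add p
  neg' := map_neg_eq_map p
  eq_zero_of_map_eq_zero' := hp

theorem NC : NC_stm.{u} := by
  intro X _ _ _ p hp hb ha
  by_contra hcon
  push Not at hcon
  letI iG : NormedAddCommGroup (NCY X) := (NCnorm p hp).toNormedAddCommGroup
  have hnorm : ∀ x : NCY X, ‖x‖ = p x := fun x => rfl
  letI iS : NormedSpace ℝ (NCY X) :=
    { norm_smul_le := fun c x => by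
        rw [hnorm, hnorm]
        exact (map_smul_eq_mul p c x).le }
  have hcomp : CompleteSpace (NCY X) := by
    refine Metric.complete_of_cauchySeq_tendsto fun v hv => ?_
    rw [Metric.cauchySeq_iff] at hv
    obtain ⟨x, hx⟩ := hcon v (fun ε hε => by
      obtain ⟨M, hM⟩ := hv ε hε
      refine ⟨M, fun m hm n hn => ?_⟩
      have h1 := hM m hm n hn
      rw [dist_eq_norm, hnorm] at h1
      exact h1)
    refine ⟨x, ?_⟩
    rw [Metric.tendsto_atTop]
    intro ε hε
    obtain ⟨M, hM⟩ := hx ε hε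
    refine ⟨M, fun n hn => ?_⟩
    rw [dist_eq_norm, hnorm]
    exact hM n hn
  obtain ⟨b, hb⟩ := hb
  let f0 : X →ₗ[ℝ] NCY X :=
    { toFun := fun x => x
      map_add' := fun _ _ => rfl
      map_smul' := fun _ _ => rfl }
  let f : X →L[ℝ] NCY X := f0.mkContinuous b (fun x => hb x)
  have hinj : LinearMap.ker (f : X →ₗ[ℝ] NCY X) = ⊥ := by
    rw [LinearMap.ker_eq_bot]
    intro x y hxy
    exact hxy
  have hsurj : LinearMap.range (f : X →ₗ[ℝ] NCY X) = ⊤ := by
    rw [LinearMap.range_eq_top]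
    intro y
    exact ⟨y, rfl⟩
  let e := ContinuousLinearEquiv.ofBijective f hinj hsurj
  have hle : ∀ x : X, ‖x‖ ≤ ‖(e.symm : NCY X →L[ℝ] X)‖ * p x := by
    intro x
    have h1 := (e.symm : NCY X →L[ℝ] X).le_opNorm (e x)
    have h2 : (e.symm : NCY X →L[ℝ] X) (e x) = x := e.symm_apply_apply x
    rw [h2] at h1
    exact h1
  set K := ‖(e.symm : NCY X →L[ℝ] X)‖ with hK
  have hK0 : 0 ≤ K := norm_nonneg _
  obtain ⟨x, hx⟩ := ha (1 / (K + 1)) (by positivity)
  have h1 := hle x
  have h2 : 0 ≤ p x := apply_nonneg p x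
  have h3 : K * p x ≤ K * (1 / (K + 1) * ‖x‖) := mul_le_mul_of_nonneg_left hx.le hK0
  have h4 : K * (1 / (K + 1) * ‖x‖) = ‖x‖ - ‖x‖ / (K + 1) := by
    field_simp
    ring
  have h5 : ‖x‖ / (K + 1) ≤ 0 := by linarith
  have h6 : 1 / (K + 1) * ‖x‖ = ‖x‖ / (K + 1) := by ring
  linarith

end H857NC
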