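import Mathlib
import Pool.Agent.H857R2.NC.Stm2

set_option autoImplicit false

namespace H857NC

open Filter Topology Set

universe u

namespace NOL1aux

variable {X : Type u} [NormedAddCommGroup X] [NormedSpace ℝ X]

/-- functionals with prescribed values on an `l_1` sequence -/
lemma ext (h : ℕ → X) (c : ℝ) (hc : 0 < c)
    (hl : ∀ (F : Finset ℕ) (t : ℕ → ℝ), c * ∑ n ∈ F, |t n| ≤ ‖∑ n ∈ F, t n • h n‖)
    (v : ℕ → ℝ) (hv : ∀ n, |v n| ≤ 1) :
    ∃ f : StrongDual ℝ X, ‖f‖ ≤ 1 / c ∧ ∀ n, f (h n) = v n := by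
  have hli : LinearIndependent ℝ h := by
    rw [linearIndependent_iff']
    intro F t h0 i hi
    have h1 := hl F t
    rw [h0, norm_zero] at h1
    have h2 : ∑ n ∈ F, |t n| ≤ 0 := by
      by_contra hcon
      push Not at hcon
      have := mul_pos hc hcon
      linarith
    have h3 : |t i| ≤ ∑ n ∈ F, |t n| := Finset.single_le_sum (f := fun n => |t n|)
      (fun n _ => abs_nonneg _) hi
    have h4 : |t i| ≤ 0 := h3.trans h2
    exact abs_nonpos_iff.1 h4
  set b := Module.Basis.span hli with hb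
  set φ : Submodule.span ℝ (Set.range h) →ₗ[ℝ] ℝ := b.constr ℝ v with hφ
  have hbd : ∀ x, ‖φ x‖ ≤ 1 / c * ‖x‖ := by
    intro x
    have e1 : φ x = ∑ n ∈ (b.repr x).support, (b.repr x) n * v n := by
      rw [hφ, Module.Basis.constr_apply, Finsupp.sum]
      rfl
    have e2 : (x : X) = ∑ n ∈ (b.repr x).support, (b.repr x) n • h n := by
      have e3 := b.linearCombination_repr x
      rw [Finsupp.linearCombination_apply, Finsupp.sum] at e3
      have e4 : ∀ n, ((b n : Submodule.span ℝ (Set.range h)) : X) = h n := fun n => by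
        rw [hb, Module.Basis.span_apply]
      calc (x : X) = ((∑ n ∈ (b.repr x).support, (b.repr x) n • b n :
            Submodule.span ℝ (Set.range h)) : X) := by rw [e3]
        _ = _ := by
          rw [Submodule.coe_sum]
          exact Finset.sum_congr rfl fun n _ => by rw [Submodule.coe_smul, e4]
    have e5 : |φ x| ≤ ∑ n ∈ (b.repr x).support, |(b.repr x) n| := by
      rw [e1]
      refine (Finset.abs_sum_le_sum_abs _ _).trans (Finset.sum_le_sum fun n _ => ?_)
      rw [abs_mul]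
      calc |(b.repr x) n| * |v n| ≤ |(b.repr x) n| * 1 := by gcongr; exact hv n
        _ = _ := mul_one _
    have e6 := hl (b.repr x).support (b.repr x)
    rw [← e2] at e6
    rw [Real.norm_eq_abs, one_div, inv_mul_eq_div, le_div_iff₀ hc]
    calc |φ x| * c ≤ (∑ n ∈ (b.repr x).support, |(b.repr x) n|) * c := by gcongr
      _ = c * ∑ n ∈ (b.repr x).support, |(b.repr x) n| := mul_comm _ _
      _ ≤ ‖x‖ := e6
  obtain ⟨f, hf1, hf2⟩ := exists_extension_norm_eq (𝕜 := ℝ) (Submodule.span ℝ (Set.range h))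
    (φ.mkContinuous (1 / c) hbd)
  refine ⟨f, ?_, fun n => ?_⟩
  · rw [hf2]
    exact LinearMap.mkContinuous_norm_le _ (by positivity) _
  · have hm : h n ∈ Submodule.span ℝ (Set.range h) := Submodule.subset_span ⟨n, rfl⟩
    have e1 := hf1 ⟨h n, hm⟩
    have e2 : (⟨h n, hm⟩ : Submodule.span ℝ (Set.range h)) = b n := by
      apply Subtype.ext
      rw [hb, Module.Basis.span_apply]
    rw [e2] at e1
    have e3 : ((b n : Submodule.span ℝ (Set.range h)) : X) = h n := by
      rw [hb, Module.Basis.span_apply]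
    rw [e3] at e1
    rw [e1]
    show φ (b n) = v n
    rw [hφ, Module.Basis.constr_basis]

/-- second differences of `N^2` are `o(|y|)` -/
lemma secdiff (N : Seminorm ℝ X) (hN : IsEquivNorm N)
    (hd : ∀ z, z ≠ 0 → DifferentiableAt ℝ N z) (z : X) (ε : ℝ) (hε : 0 < ε) :
    ∃ ρ > 0, ∀ y : X, ‖y‖ ≤ ρ →
      (N (z + y)) ^ 2 + (N (z - y)) ^ 2 - 2 * (N z) ^ 2 ≤ ε * ‖y‖ := by
  obtain ⟨b, hb, hu⟩ := hN.upper
  by_cases hz : z = 0
  · subst hz
    refine ⟨ε / (2 * b ^ 2), by positivity, fun y hy => ?_⟩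
    simp only [zero_add, zero_sub, map_neg_eq_map, map_zero]
    have e1 : N y ≤ b * ‖y‖ := hu y
    have e2 : 0 ≤ N y := apply_nonneg N y
    have e3 : (N y) ^ 2 ≤ (b * ‖y‖) ^ 2 := by gcongr
    rw [le_div_iff₀ (by positivity)] at hy
    have e4 : 0 ≤ ‖y‖ := norm_nonneg y
    nlinarith
  · have h1 : HasFDerivAt (fun x => (N x) ^ 2) ((2 * N z) • fderiv ℝ N z) z := by
      have := (hd z hz).hasFDerivAt.pow 2
      simpa using this
    set L := (2 * N z) • fderiv ℝ N z with hL
    have h2 := h1.isLittleO.def (show 0 < ε / 2 by positivity)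
    obtain ⟨ρ, hρ, h3⟩ := Metric.eventually_nhds_iff.1 h2
    refine ⟨ρ / 2, by positivity, fun y hy => ?_⟩
    have e1 := h3 (y := z + y) (by rw [dist_eq_norm]; simp; linarith)
    have e2 := h3 (y := z - y) (by rw [dist_eq_norm]; simp; linarith)
    simp only [add_sub_cancel_left, Real.norm_eq_abs, sub_sub_cancel_left, map_neg, norm_neg,
      sub_neg_eq_add] at e1 e2
    have e3 := (abs_le.1 e1).2
    have e4 := (abs_le.1 e2).2
    linarith

lemma core (hBP : BP_stm.{u}) [CompleteSpace X] (N : Seminorm ℝ X) (hN : IsEquivNorm N)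
    (hd : ∀ z, z ≠ 0 → DifferentiableAt ℝ N z) (h : ℕ → X) (c B : ℝ) (hc : 0 < c)
    (hB : ∀ n, ‖h n‖ ≤ B)
    (hl : ∀ (F : Finset ℕ) (t : ℕ → ℝ), c * ∑ n ∈ F, |t n| ≤ ‖∑ n ∈ F, t n • h n‖)
    (hdense : ∀ x : X, x ∈ closure ((Submodule.span ℝ (Set.range h) : Submodule ℝ X) : Set X)) :
    False := by
  classical
  obtain ⟨a, ha, hlow⟩ := hN.lower
  obtain ⟨b, hb, hu⟩ := hN.upper
  have hB0 : 0 < B := by
    have := hl {0} (fun _ => 1)
    simp at this
    exact lt_of_lt_of_le hc (this.trans (hB 0))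
  set Φ : Set (StrongDual ℝ X) := {f | ‖f‖ ≤ 1 / c ∧ ∀ n, |f (h n)| ≤ 1} with hΦ
  have hΦ0 : (0 : StrongDual ℝ X) ∈ Φ := ⟨by rw [norm_zero]; positivity, fun n => by simp⟩
  haveI : Nonempty Φ := ⟨⟨0, hΦ0⟩⟩
  have hfb : ∀ f ∈ Φ, ∀ x, |f x| ≤ 1 / c * ‖x‖ := fun f hf x => by
    rw [← Real.norm_eq_abs]
    exact (f.le_opNorm x).trans (mul_le_mul_of_nonneg_right hf.1 (norm_nonneg _))
  set g : X → ℝ := fun x => ⨆ f : Φ, (f : StrongDual ℝ X) x with hg
  have hbdd : ∀ x, BddAbove (Set.range fun f : Φ => (f : StrongDual ℝ X) x) := by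
    intro x
    refine ⟨1 / c * ‖x‖, ?_⟩
    rintro _ ⟨f, rfl⟩
    exact (le_abs_self _).trans (hfb f f.2 x)
  have hge : ∀ x, ∀ f ∈ Φ, f x ≤ g x := fun x f hf => le_ciSup (hbdd x) ⟨f, hf⟩
  have hgle : ∀ x r, (∀ f ∈ Φ, f x ≤ r) → g x ≤ r := fun x r h => ciSup_le fun f => h f f.2
  have hgL : ∀ x y, g x ≤ g y + 1 / c * ‖x - y‖ := by
    intro x y
    refine hgle x _ fun f hf => ?_
    have e1 := hge y f hf
    have e2 := hfb f hf (x - y)
    rw [map_sub] at e2
    have e3 := le_abs_self (f x - f y)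
    linarith
  have hgc : Continuous g := by
    have : LipschitzWith (Real.toNNReal (1 / c)) g := by
      apply LipschitzWith.of_dist_le_mul
      intro x y
      rw [Real.dist_eq, dist_eq_norm, Real.coe_toNNReal _ (by positivity)]
      rw [abs_le]
      have e1 := hgL x y
      have e2 := hgL y x
      rw [norm_sub_rev y x] at e2
      constructor <;> linarith
    exact this.continuous
  have hNc : Continuous N := by
    have : LipschitzWith (Real.toNNReal b) N := by
      apply LipschitzWith.of_dist_le_mul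
      intro x y
      rw [Real.dist_eq, dist_eq_norm, Real.coe_toNNReal _ hb.le]
      exact (abs_sub_map_le_sub N x y).trans (hu _)
    exact this.continuous
  -- bounded above
  set F : X → ℝ := fun x => g x - (N x) ^ 2 with hF
  have hFb : ∀ x, F x ≤ (1 / (c * a)) ^ 2 := by
    intro x
    have e1 : g x ≤ 1 / c * ‖x‖ := hgle x _ fun f hf => (le_abs_self _).trans (hfb f hf x)
    have e2 : ‖x‖ ≤ N x / a := by rw [le_div_iff₀' ha]; exact hlow x
    have e3 : 1 / c * ‖x‖ ≤ 1 / c * (N x / a) := by gcongr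
    have e4 : 1 / c * (N x / a) = 1 / (c * a) * N x := by field_simp
    show g x - (N x) ^ 2 ≤ _
    nlinarith [sq_nonneg (N x - 1 / (c * a)), sq_nonneg (N x), sq_nonneg (1 / (c * a))]
  have hFbdd : BddAbove (Set.range F) := ⟨_, by rintro _ ⟨x, rfl⟩; exact hFb x⟩
  obtain ⟨_, ⟨x0, rfl⟩, hx0⟩ := exists_lt_of_lt_csSup (Set.range_nonempty F)
    (show sSup (Set.range F) - 1 < sSup (Set.range F) by linarith)
  obtain ⟨w, v, hw, hv, hmax⟩ := hBP X N hN F (by fun_prop) x0 (fun x => by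
    have := le_csSup hFbdd ⟨x, rfl⟩
    linarith)
  -- the error functions
  set D : ℕ → X → ℝ := fun k y =>
    (N (w - v k + y)) ^ 2 + (N (w - v k - y)) ^ 2 - 2 * (N (w - v k)) ^ 2 with hD
  have hwv : ∀ k, N (w - v k) ≤ 8 := by
    intro k
    have : w - v k = (w - x0) - (v k - x0) := by abel
    rw [this]
    exact (map_sub_le_add N _ _).trans (by linarith [hv k])
  have hNb : ∀ k y, ‖y‖ ≤ 1 → D k y ≤ (16 + 2 * b) * (2 * b) * ‖y‖ := by
    intro k y hy
    have e1 : N y ≤ b * ‖y‖ := hu y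
    have e0 : N y ≤ b := e1.trans (by nlinarith)
    have e2 : N (w - v k + y) ≤ N (w - v k) + N y := map_add_le_add N _ _
    have e3 : N (w - v k - y) ≤ N (w - v k) + N y := map_sub_le_add N _ _
    have e4 : 0 ≤ N (w - v k) := apply_nonneg N _
    have e5 : 0 ≤ N y := apply_nonneg N _
    have e6 : (N (w - v k + y)) ^ 2 ≤ (N (w - v k) + N y) ^ 2 := by gcongr
    have e7 : (N (w - v k - y)) ^ 2 ≤ (N (w - v k) + N y) ^ 2 := by gcongr
    have e8 := hwv k
    show (N (w - v k + y)) ^ 2 + (N (w - v k - y)) ^ 2 - 2 * (N (w - v k)) ^ 2 ≤ _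
    have e9 : (N (w - v k + y)) ^ 2 + (N (w - v k - y)) ^ 2 - 2 * (N (w - v k)) ^ 2 ≤
        (4 * N (w - v k) + 2 * N y) * N y := by nlinarith
    have e10 : (4 * N (w - v k) + 2 * N y) * N y ≤ (32 + 2 * b) * (b * ‖y‖) := by
      apply mul_le_mul _ e1 e5 (by positivity)
      linarith
    have e11 : 0 ≤ b * ‖y‖ := by positivity
    nlinarith
  have hDconv : ∀ k y, 0 ≤ D k y := by
    intro k y
    have e1 : 2 * N (w - v k) ≤ N (w - v k + y) + N (w - v k - y) := by
      have : (2 : ℝ) • (w - v k) = (w - v k + y) + (w - v k - y) := by rw [two_smul]; abel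
      have e2 : N ((2 : ℝ) • (w - v k)) ≤ N (w - v k + y) + N (w - v k - y) := by
        rw [this]; exact map_add_le_add N _ _
      rw [map_smul_eq_mul] at e2
      norm_num at e2
      exact e2
    show 0 ≤ (N (w - v k + y)) ^ 2 + (N (w - v k - y)) ^ 2 - 2 * (N (w - v k)) ^ 2
    have e4 : 0 ≤ N (w - v k) := apply_nonneg N _
    have e5 : 0 ≤ N (w - v k + y) := apply_nonneg N _
    have e6 : 0 ≤ N (w - v k - y) := apply_nonneg N _
    nlinarith [sq_nonneg (N (w - v k + y) - N (w - v k - y))]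
  -- the main inequality
  have hsumm : ∀ x, Summable fun k : ℕ => (1 / 2 : ℝ) ^ k * (N (x - v k)) ^ 2 := by
    intro x
    have e1 : ∀ k, (1 / 2 : ℝ) ^ k * (N (x - v k)) ^ 2 ≤ (1 / 2 : ℝ) ^ k * (N (x - x0) + 4) ^ 2 := by
      intro k
      have e2 : N (x - v k) ≤ N (x - x0) + 4 := by
        have : x - v k = (x - x0) - (v k - x0) := by abel
        rw [this]
        exact (map_sub_le_add N _ _).trans (by linarith [hv k])
      have e3 : 0 ≤ N (x - v k) := apply_nonneg N _
      gcongr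
    exact Summable.of_nonneg_of_le (fun k => by positivity) e1
      (summable_geometric_two.mul_right _)
  have hDs : ∀ y, Summable fun k : ℕ => (1 / 2 : ℝ) ^ k * D k y := by
    intro y
    have e1 := ((hsumm (w + y)).add (hsumm (w - y))).sub ((hsumm w).mul_left 2)
    refine e1.congr fun k => ?_
    have f1 : w + y - v k = w - v k + y := by abel
    have f2 : w - y - v k = w - v k - y := by abel
    simp only [hD, f1, f2]
    ring
  have hmain : ∀ y, g (w + y) + g (w - y) - 2 * g w ≤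
      ((N (w + y)) ^ 2 + (N (w - y)) ^ 2 - 2 * (N w) ^ 2) + ∑' k, (1 / 2 : ℝ) ^ k * D k y := by
    intro y
    have e1 := hmax (w + y)
    have e2 := hmax (w - y)
    have e3 : ∑' k, (1 / 2 : ℝ) ^ k * D k y = (∑' k, (1 / 2 : ℝ) ^ k * (N (w + y - v k)) ^ 2) +
        (∑' k, (1 / 2 : ℝ) ^ k * (N (w - y - v k)) ^ 2) -
        2 * ∑' k, (1 / 2 : ℝ) ^ k * (N (w - v k)) ^ 2 := by
      rw [← tsum_mul_left, ← (hsumm (w + y)).tsum_add (hsumm (w - y)),
        ← ((hsumm (w + y)).add (hsumm (w - y))).tsum_sub ((hsumm w).mul_left 2)]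
      refine tsum_congr fun k => ?_
      have f1 : w + y - v k = w - v k + y := by abel
      have f2 : w - y - v k = w - v k - y := by abel
      simp only [hD, f1, f2]
      ring
    rw [e3]
    simp only [hF] at e1 e2
    linarith
  -- smallness
  set ε : ℝ := 1 / (4 * B) with hε
  have hε0 : 0 < ε := by positivity
  obtain ⟨K, hK⟩ : ∃ K : ℕ, (1 / 2 : ℝ) ^ K * (2 * ((16 + 2 * b) * (2 * b))) ≤ ε := by
    have h1 : Tendsto (fun K : ℕ => (1 / 2 : ℝ) ^ K * (2 * ((16 + 2 * b) * (2 * b)))) atTop (𝓝 0) := by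
      have := (tendsto_pow_atTop_nhds_zero_of_lt_one (r := (1 / 2 : ℝ)) (by norm_num)
        (by norm_num)).mul_const (2 * ((16 + 2 * b) * (2 * b)))
      simpa using this
    exact (h1.eventually (ge_mem_nhds hε0)).exists
  choose ρ hρ hρD using fun k : ℕ => secdiff N hN hd (w - v k) (ε / 2) (by positivity)
  obtain ⟨ρ', hρ', hρ'D⟩ := secdiff N hN hd w ε hε0
  obtain ⟨r, hr0, hr1, hr2, hr3⟩ : ∃ r : ℝ, 0 < r ∧ r ≤ 1 ∧ r ≤ ρ' ∧ ∀ k < K, r ≤ ρ k := by
    have h1 : ∃ r : ℝ, 0 < r ∧ ∀ k < K, r ≤ ρ k := by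
      clear hK
      induction K with
      | zero => exact ⟨1, one_pos, by simp⟩
      | succ m ih =>
        obtain ⟨r, hr, h⟩ := ih
        refine ⟨min r (ρ m), lt_min hr (hρ m), fun k hk => ?_⟩
        rcases Nat.lt_succ_iff_lt_or_eq.1 hk with h' | h'
        · exact (min_le_left _ _).trans (h k h')
        · subst h'; exact min_le_right _ _
    obtain ⟨r, hr, h⟩ := h1
    refine ⟨min (min r 1) ρ', lt_min (lt_min hr one_pos) hρ', ?_, min_le_right _ _, fun k hk => ?_⟩
    · exact (min_le_left _ _).trans (min_le_right _ _)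
    · exact ((min_le_left _ _).trans (min_le_left _ _)).trans (h k hk)
  have hsmall : ∀ y : X, ‖y‖ ≤ r → g (w + y) + g (w - y) - 2 * g w ≤ 3 * ε * ‖y‖ := by
    intro y hy
    refine (hmain y).trans ?_
    have e1 := hρ'D y (hy.trans hr2)
    have e2 : ∑' k, (1 / 2 : ℝ) ^ k * D k y ≤ 2 * ε * ‖y‖ := by
      rw [← (hDs y).sum_add_tsum_nat_add K]
      have e3 : ∑ k ∈ Finset.range K, (1 / 2 : ℝ) ^ k * D k y ≤ ε * ‖y‖ := by
        calc ∑ k ∈ Finset.range K, (1 / 2 : ℝ) ^ k * D k y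
            ≤ ∑ k ∈ Finset.range K, (1 / 2 : ℝ) ^ k * (ε / 2 * ‖y‖) := by
              refine Finset.sum_le_sum fun k hk => ?_
              exact mul_le_mul_of_nonneg_left
                (hρD k y (hy.trans (hr3 k (Finset.mem_range.1 hk)))) (by positivity)
          _ = (∑ k ∈ Finset.range K, (1 / 2 : ℝ) ^ k) * (ε / 2 * ‖y‖) := by
              rw [Finset.sum_mul]
          _ ≤ 2 * (ε / 2 * ‖y‖) := by
              refine mul_le_mul_of_nonneg_right ?_ (by positivity)
              have := summable_geometric_two.sum_le_tsum (Finset.range K)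
                (fun k _ => by positivity)
              rw [tsum_geometric_two] at this
              exact this
          _ = ε * ‖y‖ := by ring
      have e4 : ∑' k, (1 / 2 : ℝ) ^ (k + K) * D (k + K) y ≤ ε * ‖y‖ := by
        have f1 : ∀ k : ℕ, (1 / 2 : ℝ) ^ (k + K) * D (k + K) y ≤
            (1 / 2 : ℝ) ^ k * ((1 / 2 : ℝ) ^ K * ((16 + 2 * b) * (2 * b) * ‖y‖)) := by
          intro k
          rw [pow_add, mul_assoc]
          refine mul_le_mul_of_nonneg_left ?_ (by positivity)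
          exact mul_le_mul_of_nonneg_left (hNb _ y (hy.trans hr1)) (by positivity)
        have f2 : Summable fun k : ℕ => (1 / 2 : ℝ) ^ (k + K) * D (k + K) y :=
          (summable_nat_add_iff K).2 (hDs y)
        have f3 := f2.tsum_le_tsum f1 (summable_geometric_two.mul_right _)
        rw [tsum_mul_right, tsum_geometric_two] at f3
        refine f3.trans ?_
        have f4 : 0 ≤ ‖y‖ := norm_nonneg y
        calc 2 * ((1 / 2 : ℝ) ^ K * ((16 + 2 * b) * (2 * b) * ‖y‖)) =
            ((1 / 2 : ℝ) ^ K * (2 * ((16 + 2 * b) * (2 * b)))) * ‖y‖ := by ring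
          _ ≤ ε * ‖y‖ := by gcongr
      linarith
    linarith
  -- contradiction
  set t : ℝ := r / B with ht
  have ht0 : 0 < t := by positivity
  obtain ⟨w', hw', hww'⟩ := Metric.mem_closure_iff.1 (hdense w) (c * t / 8) (by positivity)
  rw [dist_eq_norm] at hww'
  rw [SetLike.mem_coe, Finsupp.mem_span_range_iff_exists_finsupp] at hw'
  obtain ⟨q, hq⟩ := hw'
  obtain ⟨n, hn⟩ : ∃ n, n ∉ q.support := Infinite.exists_notMem_finset q.support
  have hq' : w' = ∑ i ∈ q.support, q i • h i := hq.symm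
  have key : ∀ s : ℝ, (s = 1 ∨ s = -1) → g w' + t ≤ g (w' + (s * t) • h n) := by
    intro s hs
    rw [← le_sub_iff_add_le]
    refine hgle _ _ fun f hf => ?_
    obtain ⟨f1, hf1, hf1v⟩ := ext h c hc hl (fun i => if i = n then s else f (h i)) (by
      intro i
      split
      · rcases hs with h | h <;> rw [h] <;> simp
      · exact hf.2 i)
    have hf1Φ : f1 ∈ Φ := by
      refine ⟨hf1, fun i => ?_⟩
      rw [hf1v i]
      split
      · rcases hs with h | h <;> rw [h] <;> simp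
      · exact hf.2 i
    have e1 := hge (w' + (s * t) • h n) f1 hf1Φ
    have e2 : f1 w' = f w' := by
      rw [hq', map_sum, map_sum]
      refine Finset.sum_congr rfl fun i hi => ?_
      have hin : i ≠ n := fun h => hn (h ▸ hi)
      rw [map_smul, map_smul, hf1v i, if_neg hin]
    have e3 : f1 ((s * t) • h n) = t := by
      rw [map_smul, hf1v n, if_pos rfl, smul_eq_mul]
      rcases hs with h | h <;> rw [h] <;> ring
    rw [map_add, e2, e3] at e1
    linarith
  have k1 := key 1 (Or.inl rfl)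
  have k2 := key (-1) (Or.inr rfl)
  have hyn : ‖t • h n‖ ≤ r := by
    rw [norm_smul, Real.norm_eq_abs, abs_of_pos ht0]
    calc t * ‖h n‖ ≤ t * B := by gcongr; exact hB n
      _ = r := by rw [ht]; field_simp
  have k3 := hsmall (t • h n) hyn
  have k4 : 3 * ε * ‖t • h n‖ ≤ 3 / 4 * t := by
    have : ‖t • h n‖ ≤ t * B := by
      rw [norm_smul, Real.norm_eq_abs, abs_of_pos ht0]
      gcongr; exact hB n
    calc 3 * ε * ‖t • h n‖ ≤ 3 * ε * (t * B) := by gcongr
      _ = 3 / 4 * t := by rw [hε]; field_simp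
  have k5 := hgL w w'
  have k6 := hgL (w' + (1 * t) • h n) (w + t • h n)
  have k7 := hgL (w' + (-1 * t) • h n) (w - t • h n)
  have k8 : ‖w' + (1 * t) • h n - (w + t • h n)‖ = ‖w - w'‖ := by
    rw [one_mul, add_sub_add_right_eq_sub, norm_sub_rev]
  have k9 : ‖w' + (-1 * t) • h n - (w - t • h n)‖ = ‖w - w'‖ := by
    have : w' + (-1 * t) • h n - (w - t • h n) = w' - w := by
      rw [neg_one_mul, neg_smul]; abel
    rw [this, norm_sub_rev]
  rw [k8] at k6
  rw [k9] at k7
  have k10 : 1 / c * ‖w - w'‖ ≤ t / 8 := by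
    rw [one_div, inv_mul_eq_div, div_le_iff₀ hc]
    linarith
  linarith

end NOL1aux

open NOL1aux

theorem NOL1 (hBP : BP_stm.{u}) : NOL1_stm.{u} := by
  intro X _ _ _ N hN hd hX
  obtain ⟨h, c, B, hc, hB, hl⟩ := hX
  obtain ⟨a, ha, hlow⟩ := hN.lower
  obtain ⟨b, hb, hu⟩ := hN.upper
  set E : Submodule ℝ X := (Submodule.span ℝ (Set.range h)).topologicalClosure with hE
  have hsub : Submodule.span ℝ (Set.range h) ≤ E := Submodule.le_topologicalClosure _
  have hEc : IsClosed (E : Set X) := Submodule.isClosed_topologicalClosure _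
  haveI : CompleteSpace E := hEc.completeSpace_coe
  let h' : ℕ → E := fun n => ⟨h n, hsub (Submodule.subset_span ⟨n, rfl⟩)⟩
  have hsum : ∀ (F : Finset ℕ) (t : ℕ → ℝ), ((∑ n ∈ F, t n • h' n : E) : X) =
      ∑ n ∈ F, t n • h n := by
    intro F t
    rw [Submodule.coe_sum]
    rfl
  refine core hBP (X := E) (N.comp E.subtype) ⟨⟨b, hb, fun x => hu x⟩, ⟨a, ha, fun x => hlow x⟩⟩
    (fun z hz => ?_) h' c B hc (fun n => hB n) (fun F t => ?_) (fun x => ?_)
  · have hz' : (z : X) ≠ 0 := fun h => hz (Subtype.ext h)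
    exact (hd z hz').comp z (E.subtypeL.differentiableAt)
  · have := hl F t
    rw [← hsum] at this
    exact this
  · -- density
    rw [Metric.mem_closure_iff]
    intro ε hε
    have hx : (x : X) ∈ closure ((Submodule.span ℝ (Set.range h) : Submodule ℝ X) : Set X) := by
      rw [← Submodule.topologicalClosure_coe]; exact x.2
    obtain ⟨y, hy, hxy⟩ := Metric.mem_closure_iff.1 hx ε hε
    refine ⟨⟨y, hsub hy⟩, ?_, hxy⟩
    rw [SetLike.mem_coe, Finsupp.mem_span_range_iff_exists_finsupp] at hy ⊢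
    obtain ⟨q, hq⟩ := hy
    refine ⟨q, Subtype.ext ?_⟩
    exact (hsum q.support q).trans hq

end H857NC
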