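import Mathlib
import Pool.Agent.H857R2.NC.Stm

set_option autoImplicit false
set_option linter.all false

namespace H857NC

open Filter Topology Set

universe u

theorem OPT : OPT_stm.{u} := by
  intro X _ _ _ P hP f v e g hf htot hv hfv he hg
  set A : ℕ → X →L[ℝ] X := fun n =>
    ((1 / 2 : ℝ) ^ n) • ((f n).comp P).smulRight (e n) with hA
  have hAx : ∀ n x, A n x = ((1 / 2 : ℝ) ^ n * f n (P x)) • e n := by
    intro n x
    simp only [hA, ContinuousLinearMap.smul_apply, ContinuousLinearMap.smulRight_apply,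
      ContinuousLinearMap.comp_apply, smul_smul]
  have hgeo : Summable (fun j : ℕ => (1 / 2 : ℝ) ^ j) :=
    summable_geometric_of_lt_one (by norm_num) (by norm_num)
  have hAn : ∀ n, ‖A n‖ ≤ (1 / 2 : ℝ) ^ n * ‖P‖ := by
    intro n
    refine ContinuousLinearMap.opNorm_le_bound _ (by positivity) (fun x => ?_)
    rw [hAx, norm_smul, (he n).2, mul_one, norm_mul, Real.norm_eq_abs, abs_of_pos (by positivity),
      mul_assoc]
    refine mul_le_mul_of_nonneg_left ?_ (by positivity)
    calc ‖f n (P x)‖ ≤ ‖f n‖ * ‖P x‖ := (f n).le_opNorm _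
      _ ≤ 1 * ‖P x‖ := mul_le_mul_of_nonneg_right (hf n) (norm_nonneg _)
      _ = ‖P x‖ := one_mul _
      _ ≤ ‖P‖ * ‖x‖ := P.le_opNorm _
  have hs : Summable A := Summable.of_norm_bounded (hgeo.mul_right ‖P‖) hAn
  clear_value A
  obtain ⟨C, hCs⟩ := hs
  have hCx : ∀ x, HasSum (fun n => A n x) (C x) := by
    intro x
    have h := hCs.mapL (ContinuousLinearMap.apply ℝ X x)
    simpa only [ContinuousLinearMap.apply_apply] using h
  have hPC : ∀ x, P (C x) = C x := by
    intro x
    have h1 : HasSum (fun n => P (A n x)) (P (C x)) := P.hasSum (hCx x)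
    have h2 : (fun n => P (A n x)) = fun n => A n x := by
      funext n
      rw [hAx, map_smul, (he n).1]
    rw [h2] at h1
    exact h1.unique (hCx x)
  have hgC : ∀ m x, g m (C x) = (1 / 2 : ℝ) ^ m * f m (P x) := by
    intro m x
    have h1 : HasSum (fun n => g m (A n x)) (g m (C x)) := (g m).hasSum (hCx x)
    have h2 : HasSum (fun n => g m (A n x)) ((1 / 2 : ℝ) ^ m * f m (P x)) := by
      have h3 : (fun n => g m (A n x)) =
          fun n => if n = m then (1 / 2 : ℝ) ^ m * f m (P x) else 0 := by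
        funext n
        rw [hAx, map_smul, smul_eq_mul, hg m n]
        by_cases h : n = m
        · subst h; simp
        · rw [if_neg (fun h' => h h'.symm), if_neg h, mul_zero]
      rw [h3]
      exact hasSum_ite_eq m _
    exact h1.unique h2
  refine ⟨ContinuousLinearMap.id ℝ X - P + C, ?_, ?_⟩
  · rw [injective_iff_map_eq_zero]
    intro x hx
    simp only [ContinuousLinearMap.add_apply, ContinuousLinearMap.sub_apply,
      ContinuousLinearMap.id_apply] at hx
    have h1 : P (x - P x + C x) = 0 := by rw [hx, map_zero]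
    rw [map_add, map_sub, hP, sub_self, zero_add, hPC] at h1
    have h2 : P x = 0 := by
      refine htot (P x) (hP x) (fun m => ?_)
      have h3 := hgC m x
      rw [h1, map_zero] at h3
      exact ((mul_eq_zero.mp h3.symm).resolve_left (by positivity))
    rw [h2, h1, sub_zero, add_zero] at hx
    exact hx
  · intro a ha
    obtain ⟨n, hn⟩ := exists_pow_lt_of_lt_one (show (0:ℝ) < a / 2 by positivity)
      (show (1 / 2 : ℝ) < 1 by norm_num)
    refine ⟨v n, ?_⟩
    rw [(hv n).2, mul_one]
    simp only [ContinuousLinearMap.add_apply, ContinuousLinearMap.sub_apply,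
      ContinuousLinearMap.id_apply]
    rw [(hv n).1, sub_self, zero_add]
    have h1 := hCx (v n)
    have h2 : C (v n) = ∑' j, A (j + n) (v n) := by
      rw [← h1.tsum_eq, ← h1.summable.sum_add_tsum_nat_add n]
      have : ∑ i ∈ Finset.range n, A i (v n) = 0 := by
        refine Finset.sum_eq_zero (fun i hi => ?_)
        rw [hAx, (hv n).1, hfv i n (Finset.mem_range.mp hi), mul_zero, zero_smul]
      rw [this, zero_add]
    have h3 : HasSum (fun j : ℕ => (1 / 2 : ℝ) ^ n * (1 / 2 : ℝ) ^ j) ((1 / 2 : ℝ) ^ n * 2) := by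
      have := hasSum_geometric_of_lt_one (show (0:ℝ) ≤ 1 / 2 by norm_num)
        (show (1 / 2 : ℝ) < 1 by norm_num)
      have h4 := this.mul_left ((1 / 2 : ℝ) ^ n)
      norm_num at h4 ⊢
      exact h4
    have h5 : ‖∑' j, A (j + n) (v n)‖ ≤ (1 / 2 : ℝ) ^ n * 2 := by
      refine tsum_of_norm_bounded h3 (fun j => ?_)
      rw [hAx, norm_smul, (he _).2, mul_one, norm_mul, Real.norm_eq_abs,
        abs_of_pos (by positivity), (hv n).1]
      have h6 : ‖f (j + n) (v n)‖ ≤ 1 := by
        calc ‖f (j + n) (v n)‖ ≤ ‖f (j + n)‖ * ‖v n‖ := (f (j + n)).le_opNorm _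
          _ ≤ 1 := by rw [(hv n).2, mul_one]; exact hf _
      calc (1 / 2 : ℝ) ^ (j + n) * ‖f (j + n) (v n)‖ ≤ (1 / 2 : ℝ) ^ (j + n) * 1 :=
            mul_le_mul_of_nonneg_left h6 (by positivity)
        _ = (1 / 2 : ℝ) ^ n * (1 / 2 : ℝ) ^ j := by rw [pow_add]; ring
    rw [h2]
    linarith

end H857NC
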