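import Mathlib
import Pool.Agent.H857R2.NC.Stm

set_option autoImplicit false

namespace H857NC

open Filter Topology Set

universe u

namespace PHIaux

variable {X : Type u} [NormedAddCommGroup X] [NormedSpace ℝ X]

lemma hasDerivAt_phi (s : ℝ) : HasDerivAt (fun t : ℝ => (max t 0) ^ 2) (2 * max s 0) s := by
  rcases lt_trichotomy s 0 with hs | hs | hs
  · rw [max_eq_right hs.le, mul_zero]
    have : (fun t : ℝ => (max t 0) ^ 2) =ᶠ[𝓝 s] fun _ => (0 : ℝ) := by
      filter_upwards [gt_mem_nhds hs] with t ht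
      rw [max_eq_right (le_of_lt ht)]; norm_num
    exact (hasDerivAt_const s (0 : ℝ)).congr_of_eventuallyEq this
  · subst hs
    rw [max_self, mul_zero]
    rw [hasDerivAt_iff_isLittleO_nhds_zero]
    have h1 : (fun h : ℝ => (max (0 + h) 0) ^ 2 - (max (0 : ℝ) 0) ^ 2 - h • (0 : ℝ)) =O[𝓝 0]
        fun h : ℝ => h ^ 2 := by
      apply Asymptotics.IsBigO.of_bound 1
      refine Eventually.of_forall fun h => ?_
      simp only [zero_add, max_self, smul_zero, sub_zero, one_mul, Real.norm_eq_abs]
      norm_num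
      rcases le_total h 0 with h' | h'
      · rw [max_eq_right h']; nlinarith [sq_nonneg h]
      · rw [max_eq_left h']
    refine h1.trans_isLittleO ?_
    exact Asymptotics.isLittleO_pow_id one_lt_two
  · rw [max_eq_left hs.le]
    have : (fun t : ℝ => (max t 0) ^ 2) =ᶠ[𝓝 s] fun t => t ^ 2 := by
      filter_upwards [lt_mem_nhds hs] with t ht
      rw [max_eq_left (le_of_lt ht)]
    have h2 := (hasDerivAt_pow 2 s)
    simp only [Nat.cast_ofNat, Nat.add_one_sub_one, pow_one] at h2
    exact h2.congr_of_eventuallyEq this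

/-- the package of properties -/
structure Good (ψ : X → ℝ) (r : ℝ) : Prop where
  conv : ConvexOn ℝ univ ψ
  cont : Continuous ψ
  diff : ∀ x ∈ Metric.ball (0 : X) r, DifferentiableAt ℝ ψ x
  uc : UniformContinuousOn (fderiv ℝ ψ) (Metric.ball (0 : X) r)

lemma Good.congr_uc {D D' : X → X →L[ℝ] ℝ} {s : Set X} (h : UniformContinuousOn D s)
    (hD : ∀ x ∈ s, D' x = D x) : UniformContinuousOn D' s := by
  rw [Metric.uniformContinuousOn_iff] at h ⊢
  intro ε hε
  obtain ⟨δ, hδ, h⟩ := h ε hε
  refine ⟨δ, hδ, fun x hx y hy hxy => ?_⟩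
  rw [hD x hx, hD y hy]
  exact h x hx y hy hxy

lemma Good.add {ψ χ : X → ℝ} {r : ℝ} (h1 : Good ψ r) (h2 : Good χ r) :
    Good (fun x => ψ x + χ x) r := by
  refine ⟨h1.conv.add h2.conv, h1.cont.add h2.cont, fun x hx => (h1.diff x hx).add (h2.diff x hx),
    ?_⟩
  refine Good.congr_uc (D := fun x => fderiv ℝ ψ x + fderiv ℝ χ x) ?_ ?_
  · have h1' := h1.uc
    have h2' := h2.uc
    rw [Metric.uniformContinuousOn_iff] at h1' h2' ⊢
    intro ε hε
    obtain ⟨δ1, hδ1, e1⟩ := h1' (ε / 2) (by positivity)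
    obtain ⟨δ2, hδ2, e2⟩ := h2' (ε / 2) (by positivity)
    refine ⟨min δ1 δ2, lt_min hδ1 hδ2, fun x hx y hy hxy => ?_⟩
    have f1 := e1 x hx y hy (hxy.trans_le (min_le_left _ _))
    have f2 := e2 x hx y hy (hxy.trans_le (min_le_right _ _))
    calc dist (fderiv ℝ ψ x + fderiv ℝ χ x) (fderiv ℝ ψ y + fderiv ℝ χ y)
        ≤ dist (fderiv ℝ ψ x) (fderiv ℝ ψ y) + dist (fderiv ℝ χ x) (fderiv ℝ χ y) :=
          dist_add_add_le _ _ _ _
      _ < ε := by linarith
  · intro x hx
    exact fderiv_fun_add (h1.diff x hx) (h2.diff x hx)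

lemma Good.zero (r : ℝ) : Good (fun _ : X => (0 : ℝ)) r := by
  refine ⟨convexOn_const 0 convex_univ, continuous_const, fun x _ => differentiableAt_const _, ?_⟩
  refine Good.congr_uc (D := fun _ => 0) uniformContinuous_const.uniformContinuousOn ?_
  intro x _
  simp

lemma Good.sum {ι : Type*} (K : Finset ι) (ψ : ι → X → ℝ) {r : ℝ} (h : ∀ k ∈ K, Good (ψ k) r) :
    Good (fun x => ∑ k ∈ K, ψ k x) r := by
  classical
  induction K using Finset.induction_on with
  | empty => simpa using Good.zero r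
  | insert a s ha ih =>
    simp only [Finset.sum_insert ha]
    exact (h a (Finset.mem_insert_self _ _)).add
      (ih fun k hk => h k (Finset.mem_insert_of_mem hk))

lemma Good.neg {ψ : X → ℝ} {r : ℝ} (h1 : Good ψ r) : Good (fun x => ψ (-x)) r := by
  have hball : ∀ x ∈ Metric.ball (0 : X) r, -x ∈ Metric.ball (0 : X) r := by
    intro x hx
    simpa using hx
  refine ⟨?_, h1.cont.comp continuous_neg, fun x hx => ?_, ?_⟩
  · have := h1.conv.comp_linearMap (-LinearMap.id : X →ₗ[ℝ] X)
    simpa [Function.comp_def] using this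
  · have := (h1.diff _ (hball x hx)).comp x (differentiableAt_id.neg (𝕜 := ℝ) (f := id) (x := x))
    exact this
  · refine Good.congr_uc (D := fun x => - fderiv ℝ ψ (-x)) ?_ ?_
    · have h1' := h1.uc
      rw [Metric.uniformContinuousOn_iff] at h1' ⊢
      intro ε hε
      obtain ⟨δ1, hδ1, e1⟩ := h1' ε hε
      refine ⟨δ1, hδ1, fun x hx y hy hxy => ?_⟩
      rw [dist_neg_neg]
      exact e1 _ (hball x hx) _ (hball y hy) (by rwa [dist_neg_neg])
    · intro x hx
      have e1 : HasFDerivAt ψ (fderiv ℝ ψ (-x)) (-x) := (h1.diff _ (hball x hx)).hasFDerivAt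
      have e2 : HasFDerivAt (fun y : X => -y) (-ContinuousLinearMap.id ℝ X) x :=
        (hasFDerivAt_id x).neg
      have e3 := e1.comp x e2
      have e4 : (fderiv ℝ ψ (-x)).comp (-ContinuousLinearMap.id ℝ X) = - fderiv ℝ ψ (-x) := by
        ext y; simp
      rw [e4] at e3
      exact e3.fderiv

lemma good_term (N : Seminorm ℝ X) (hN : IsEquivNorm N)
    (hd : ∀ z, z ≠ 0 → DifferentiableAt ℝ N z) (k : X) (b r : ℝ) (hr : 0 < r)
    (h0 : ∀ z ∈ Metric.ball k r, z ≠ 0)
    (hu : UniformContinuousOn (fderiv ℝ N) (Metric.ball k r)) :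
    Good (fun h => (max (N (k + h) - b) 0) ^ 2) r := by
  obtain ⟨B, hB, hub⟩ := hN.upper
  have hLip : LipschitzWith (Real.toNNReal B) N := by
    apply LipschitzWith.of_dist_le_mul
    intro x y
    rw [Real.dist_eq, dist_eq_norm, Real.coe_toNNReal _ hB.le]
    exact (abs_sub_map_le_sub N x y).trans (hub _)
  have hNc : Continuous N := hLip.continuous
  have hbd : ∀ z, ‖fderiv ℝ N z‖ ≤ B := by
    intro z
    have := norm_fderiv_le_of_lipschitz ℝ hLip (x₀ := z)
    rwa [Real.coe_toNNReal _ hB.le] at this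
  have hball : ∀ x ∈ Metric.ball (0 : X) r, k + x ∈ Metric.ball k r := by
    intro x hx
    simpa [Metric.mem_ball, dist_eq_norm] using hx
  have hfd : ∀ x ∈ Metric.ball (0 : X) r, HasFDerivAt (fun h => (max (N (k + h) - b) 0) ^ 2)
      ((2 * max (N (k + x) - b) 0) • fderiv ℝ N (k + x)) x := by
    intro x hx
    have e1 : HasFDerivAt (fun h => N (k + h) - b) (fderiv ℝ N (k + x)) x := by
      have e2 := (hd (k + x) (h0 _ (hball x hx))).hasFDerivAt
      have e3 : HasFDerivAt (fun h : X => k + h) (ContinuousLinearMap.id ℝ X) x :=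
        (hasFDerivAt_id x).const_add k
      have e4 := e2.comp x e3
      rw [ContinuousLinearMap.comp_id] at e4
      exact e4.sub_const b
    exact (hasDerivAt_phi (N (k + x) - b)).comp_hasFDerivAt x e1
  refine ⟨?_, by fun_prop, fun x hx => (hfd x hx).differentiableAt, ?_⟩
  · -- convexity
    have c1 : ConvexOn ℝ univ (fun h => N (k + h) - b) := by
      refine ⟨convex_univ, fun x _ y _ s t hs ht hst => ?_⟩
      have e1 : k + (s • x + t • y) = s • (k + x) + t • (k + y) := by
        have : k = s • k + t • k := by rw [← add_smul, hst, one_smul]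
        nth_rewrite 1 [this]
        rw [smul_add, smul_add]; abel
      have e2 : N (s • (k + x) + t • (k + y)) ≤ s * N (k + x) + t * N (k + y) := by
        refine (map_add_le_add N _ _).trans ?_
        rw [map_smul_eq_mul, map_smul_eq_mul, Real.norm_eq_abs, Real.norm_eq_abs,
          abs_of_nonneg hs, abs_of_nonneg ht]
      simp only [smul_eq_mul]
      rw [e1]
      have : b = s * b + t * b := by rw [← add_mul, hst, one_mul]
      linarith
    have c2 : ConvexOn ℝ univ (fun h => max (N (k + h) - b) 0) :=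
      c1.sup (convexOn_const 0 convex_univ)
    exact c2.pow (fun x _ => le_max_right _ _) 2
  · refine Good.congr_uc (D := fun x => (2 * max (N (k + x) - b) 0) • fderiv ℝ N (k + x)) ?_
      (fun x hx => (hfd x hx).fderiv)
    rw [Metric.uniformContinuousOn_iff] at hu ⊢
    intro ε hε
    set M : ℝ := 2 * (B * (‖k‖ + r) + |b|) + 1 with hM
    have hM0 : 0 < M := by positivity
    have hcb : ∀ x ∈ Metric.ball (0 : X) r, |2 * max (N (k + x) - b) 0| ≤ M := by
      intro x hx
      have e0 : ‖x‖ < r := by simpa using hx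
      have e1 : N (k + x) ≤ B * (‖k‖ + r) := by
        refine (hub _).trans (mul_le_mul_of_nonneg_left ?_ hB.le)
        exact (norm_add_le _ _).trans (by linarith)
      rw [abs_of_nonneg (by positivity)]
      have e2 : max (N (k + x) - b) 0 ≤ B * (‖k‖ + r) + |b| := by
        apply max_le
        · have := neg_abs_le b; linarith
        · positivity
      linarith
    have hcl : ∀ x y, |2 * max (N (k + x) - b) 0 - 2 * max (N (k + y) - b) 0| ≤
        2 * B * dist x y := by
      intro x y
      have e1 : |max (N (k + x) - b) 0 - max (N (k + y) - b) 0| ≤ |N (k + x) - N (k + y)| := by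
        refine (abs_max_sub_max_le_abs _ _ _).trans (le_of_eq ?_)
        congr 1; ring
      have e2 : |N (k + x) - N (k + y)| ≤ B * dist x y := by
        have := hLip.dist_le_mul (k + x) (k + y)
        rw [Real.dist_eq, Real.coe_toNNReal _ hB.le, dist_add_left] at this
        exact this
      rw [← mul_sub, abs_mul, abs_two]
      linarith
    obtain ⟨δ, hδ, hu⟩ := hu (ε / (2 * M)) (by positivity)
    refine ⟨min δ (ε / (4 * (B * B + 1))), lt_min hδ (by positivity), fun x hx y hy hxy => ?_⟩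
    have f1 := hu (k + x) (hball x hx) (k + y) (hball y hy)
      (by rw [dist_add_left]; exact hxy.trans_le (min_le_left _ _))
    have f2 : dist x y < ε / (4 * (B * B + 1)) := hxy.trans_le (min_le_right _ _)
    rw [dist_eq_norm] at f1 ⊢
    set cx := 2 * max (N (k + x) - b) 0
    set cy := 2 * max (N (k + y) - b) 0
    have e1 : cx • fderiv ℝ N (k + x) - cy • fderiv ℝ N (k + y) =
        (cx - cy) • fderiv ℝ N (k + x) + cy • (fderiv ℝ N (k + x) - fderiv ℝ N (k + y)) := by
      rw [sub_smul, smul_sub]; abel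
    rw [e1]
    have g1 : ‖(cx - cy) • fderiv ℝ N (k + x)‖ ≤ 2 * B * dist x y * B := by
      rw [norm_smul, Real.norm_eq_abs]
      exact mul_le_mul (hcl x y) (hbd _) (norm_nonneg _) (by positivity)
    have g2 : ‖cy • (fderiv ℝ N (k + x) - fderiv ℝ N (k + y))‖ ≤ M * (ε / (2 * M)) := by
      rw [norm_smul, Real.norm_eq_abs]
      exact mul_le_mul (hcb y hy) f1.le (norm_nonneg _) hM0.le
    have g3 : M * (ε / (2 * M)) = ε / 2 := by field_simp
    have g4 : 2 * B * dist x y * B < ε / 2 := by
      have g5 : dist x y * (4 * (B * B + 1)) < ε := by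
        rwa [lt_div_iff₀ (by positivity)] at f2
      have g6 : 0 ≤ dist x y := dist_nonneg
      nlinarith
    calc _ ≤ ‖(cx - cy) • fderiv ℝ N (k + x)‖ +
        ‖cy • (fderiv ℝ N (k + x) - fderiv ℝ N (k + y))‖ := norm_add_le _ _
      _ < ε := by linarith

end PHIaux

open PHIaux

theorem PHI : PHI_stm.{u} := by
  intro X _ _ N hN hd K b c r hc hr hb h0 hu hsep
  have hG : ∀ k ∈ K, Good (fun h => (max (N (k + h) - b) 0) ^ 2 + (max (N (k - h) - b) 0) ^ 2) r := by
    intro k hk
    have g1 := good_term N hN hd k b r hr (h0 k hk) (hu k hk)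
    have g2 := g1.neg
    have g3 := g1.add g2
    refine ⟨?_, ?_, ?_, ?_⟩
    · simpa only [← sub_eq_add_neg] using g3.conv
    · simpa only [← sub_eq_add_neg] using g3.cont
    · simpa only [← sub_eq_add_neg] using g3.diff
    · simpa only [← sub_eq_add_neg] using g3.uc
  have hS := Good.sum K (fun k h => (max (N (k + h) - b) 0) ^ 2 + (max (N (k - h) - b) 0) ^ 2) hG
  refine ⟨_, hS.conv, hS.cont, fun x => ?_, ?_, hS.diff, hS.uc, fun h hh => ?_⟩
  · refine Finset.sum_congr rfl fun k _ => ?_
    simp only [sub_neg_eq_add, ← sub_eq_add_neg]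
    ring
  · refine Finset.sum_eq_zero fun k hk => ?_
    simp only [add_zero, sub_zero]
    rw [max_eq_right (by linarith [hb k hk])]
    norm_num
  · obtain ⟨k, hk, hor⟩ := hsep h hh
    have e1 : (max (N (k + h) - b) 0) ^ 2 + (max (N (k - h) - b) 0) ^ 2 ≤
        ∑ k ∈ K, ((max (N (k + h) - b) 0) ^ 2 + (max (N (k - h) - b) 0) ^ 2) :=
      Finset.single_le_sum (f := fun k => (max (N (k + h) - b) 0) ^ 2 +
        (max (N (k - h) - b) 0) ^ 2) (fun i _ => by positivity) hk
    refine le_trans ?_ e1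
    rcases hor with h1 | h1
    · have e2 : c ≤ max (N (k + h) - b) 0 := le_trans (by linarith) (le_max_left _ _)
      have e3 : c ^ 2 ≤ (max (N (k + h) - b) 0) ^ 2 := by gcongr
      have e4 : 0 ≤ (max (N (k - h) - b) 0) ^ 2 := by positivity
      linarith
    · have e2 : c ≤ max (N (k - h) - b) 0 := le_trans (by linarith) (le_max_left _ _)
      have e3 : c ^ 2 ≤ (max (N (k - h) - b) 0) ^ 2 := by gcongr
      have e4 : 0 ≤ (max (N (k + h) - b) 0) ^ 2 := by positivity
      linarith

end H857NC
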