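import Mathlib
import Pool.Agent.H857R2.NC.Stm

/-!
# A projection from an almost biorthogonal system (task PRJ, helper439)

Through `c_0`: `S t = ∑ t_n h_n`, `Q x = (g_n x)_n`; `Q S` is close to the identity, and the
projection is `S (Q S)⁻¹ Q`.
-/

set_option autoImplicit false

namespace H857NC

open Filter Topology Set
open scoped ZeroAtInfty

universe u

namespace PRJ

theorem c0_norm_le (f : C₀(ℕ, ℝ)) (M : ℝ) (hM : 0 ≤ M) (h : ∀ n, |f n| ≤ M) : ‖f‖ ≤ M := by
  rw [← ZeroAtInftyContinuousMap.norm_toBCF_eq_norm]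
  rw [BoundedContinuousFunction.norm_le hM]
  intro n
  exact h n

theorem c0_le_norm (f : C₀(ℕ, ℝ)) (n : ℕ) : |f n| ≤ ‖f‖ := by
  rw [← ZeroAtInftyContinuousMap.norm_toBCF_eq_norm]
  exact BoundedContinuousFunction.norm_coe_le_norm f.toBCF n

theorem c0_tendsto (f : C₀(ℕ, ℝ)) : Tendsto (fun n => f n) atTop (𝓝 0) := by
  have h := f.zero_at_infty'
  rw [cocompact_eq_atTop (α := ℕ)] at h
  exact h

section

variable {X : Type u} [NormedAddCommGroup X] [NormedSpace ℝ X] [CompleteSpace X]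

theorem summ (h : ℕ → X) (C : ℝ) (hC : 0 ≤ C)
    (ha : ∀ (F : Finset ℕ) (t : ℕ → ℝ) (M : ℝ), 0 ≤ M → (∀ n ∈ F, |t n| ≤ M) →
      ‖∑ n ∈ F, t n • h n‖ ≤ C * M) (t : C₀(ℕ, ℝ)) : Summable fun n => t n • h n := by
  rw [summable_iff_vanishing_norm]
  intro ε hε
  have hε' : 0 < ε / (C + 1) := by positivity
  have h1 := (c0_tendsto t).eventually (Metric.ball_mem_nhds (0 : ℝ) hε')
  rw [eventually_atTop] at h1
  obtain ⟨N, hN⟩ := h1
  refine ⟨Finset.range N, fun F hF => ?_⟩
  have h2 : ∀ n ∈ F, |t n| ≤ ε / (C + 1) := by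
    intro n hn
    have h3 : N ≤ n := by
      by_contra hcon
      push Not at hcon
      exact (Finset.disjoint_left.1 hF hn) (Finset.mem_range.2 hcon)
    have h4 := hN n h3
    rw [dist_zero_right, Real.norm_eq_abs] at h4
    exact h4.le
  refine lt_of_le_of_lt (ha F (fun n => t n) _ hε'.le h2) ?_
  calc C * (ε / (C + 1)) < (C + 1) * (ε / (C + 1)) :=
        mul_lt_mul_of_pos_right (by linarith) hε'
    _ = ε := by
        field_simp

/-- the operator `S` -/
noncomputable def S (h : ℕ → X) (C : ℝ) (hC : 0 ≤ C)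
    (ha : ∀ (F : Finset ℕ) (t : ℕ → ℝ) (M : ℝ), 0 ≤ M → (∀ n ∈ F, |t n| ≤ M) →
      ‖∑ n ∈ F, t n • h n‖ ≤ C * M) : C₀(ℕ, ℝ) →L[ℝ] X :=
  LinearMap.mkContinuous
    { toFun := fun t => ∑' n, t n • h n
      map_add' := by
        intro s t
        rw [← (summ h C hC ha s).tsum_add (summ h C hC ha t)]
        apply tsum_congr
        intro n
        rw [ZeroAtInftyContinuousMap.add_apply, add_smul]
      map_smul' := by
        intro c t
        rw [RingHom.id_apply, ← (summ h C hC ha t).tsum_const_smul]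
        apply tsum_congr
        intro n
        rw [ZeroAtInftyContinuousMap.smul_apply, smul_eq_mul, mul_smul] }
    C (by
      intro t
      have h1 := (summ h C hC ha t).hasSum
      refine le_of_tendsto h1.norm (Eventually.of_forall (fun F => ?_))
      exact ha F (fun n => t n) _ (norm_nonneg t) (fun n _ => c0_le_norm t n))

theorem S_hasSum (h : ℕ → X) (C : ℝ) (hC : 0 ≤ C)
    (ha : ∀ (F : Finset ℕ) (t : ℕ → ℝ) (M : ℝ), 0 ≤ M → (∀ n ∈ F, |t n| ≤ M) →
      ‖∑ n ∈ F, t n • h n‖ ≤ C * M) (t : C₀(ℕ, ℝ)) :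
    HasSum (fun n => t n • h n) (S h C hC ha t) :=
  (summ h C hC ha t).hasSum

/-- the operator `Q` -/
noncomputable def Q (g : ℕ → StrongDual ℝ X) (G : ℝ) (hg : ∀ n, ‖g n‖ ≤ G)
    (hlim : ∀ x, Tendsto (fun n => g n x) atTop (𝓝 0)) : X →L[ℝ] C₀(ℕ, ℝ) :=
  LinearMap.mkContinuous
    { toFun := fun x => ⟨⟨fun n => g n x, continuous_of_discreteTopology⟩, by
        rw [cocompact_eq_atTop (α := ℕ)]
        exact hlim x⟩
      map_add' := by
        intro x y
        ext n
        exact map_add (g n) x y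
      map_smul' := by
        intro c x
        ext n
        exact map_smul (g n) c x }
    G (by
      intro x
      have hG : 0 ≤ G := le_trans (norm_nonneg _) (hg 0)
      refine c0_norm_le _ _ (by positivity) (fun n => ?_)
      calc |g n x| = ‖g n x‖ := (Real.norm_eq_abs _).symm
        _ ≤ ‖g n‖ * ‖x‖ := (g n).le_opNorm x
        _ ≤ G * ‖x‖ := mul_le_mul_of_nonneg_right (hg n) (norm_nonneg _))

omit [CompleteSpace X] in
theorem Q_apply (g : ℕ → StrongDual ℝ X) (G : ℝ) (hg : ∀ n, ‖g n‖ ≤ G)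
    (hlim : ∀ x, Tendsto (fun n => g n x) atTop (𝓝 0)) (x : X) (n : ℕ) :
    Q g G hg hlim x n = g n x := rfl

end

/-- unit vectors -/
noncomputable def del (n : ℕ) : C₀(ℕ, ℝ) :=
  ⟨⟨fun k => if k = n then 1 else 0, continuous_of_discreteTopology⟩, by
    rw [cocompact_eq_atTop (α := ℕ)]
    refine tendsto_const_nhds.congr' ?_
    filter_upwards [eventually_gt_atTop n] with k hk
    rw [if_neg (by omega)]⟩

theorem del_apply (n k : ℕ) : del n k = if k = n then 1 else 0 := rfl

end PRJ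

open PRJ

theorem PRJ : PRJ_stm.{u} := by
  intro X _ _ _ h g C G κ ha hg hlim hone hκ hsmall hoff
  classical
  have hC : 0 ≤ C := by
    have := ha ∅ (fun _ => 0) 1 zero_le_one (by simp)
    simpa using this
  have hG : 0 ≤ G := le_trans (norm_nonneg _) (hg 0)
  have hκ' : 16 * κ ≤ 1 := by
    have h1 : 0 ≤ κ * C := mul_nonneg hκ hC
    have h2 : 0 ≤ κ * G := mul_nonneg hκ hG
    have h3 : 0 ≤ κ * C * G := mul_nonneg h1 hG
    nlinarith
  set S' := S h C hC ha with hS
  set Q' := Q g G hg hlim with hQ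
  set T : C₀(ℕ, ℝ) →L[ℝ] C₀(ℕ, ℝ) := Q'.comp S' with hT
  have hTapp : ∀ t, T t = Q' (S' t) := fun t => rfl
  -- `T` is close to the identity
  have hclose : ‖(1 : C₀(ℕ, ℝ) →L[ℝ] C₀(ℕ, ℝ)) - T‖ < 1 := by
    have h1 : ‖(1 : C₀(ℕ, ℝ) →L[ℝ] C₀(ℕ, ℝ)) - T‖ ≤ 2 * κ := by
      refine ContinuousLinearMap.opNorm_le_bound _ (by positivity) (fun t => ?_)
      refine c0_norm_le _ _ (by positivity) (fun m => ?_)
      have h2 : HasSum (fun n => t n * g m (h n)) (g m (S' t)) := by
        have := (g m).hasSum (S_hasSum h C hC ha t)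
        simpa only [map_smul, smul_eq_mul] using this
      have h3 : ((1 : C₀(ℕ, ℝ) →L[ℝ] C₀(ℕ, ℝ)) - T) t m = t m - g m (S' t) := rfl
      rw [h3]
      have h4 : Tendsto (fun F : Finset ℕ => |t m - ∑ n ∈ F, t n * g m (h n)|) atTop
          (𝓝 |t m - g m (S' t)|) := (tendsto_const_nhds.sub h2).abs
      refine le_of_tendsto h4 ?_
      filter_upwards [eventually_ge_atTop ({m} : Finset ℕ)] with F hF
      have hmF : m ∈ F := hF (Finset.mem_singleton_self m)
      rw [← Finset.add_sum_erase F _ hmF, hone m, mul_one, sub_add_cancel_left, abs_neg]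
      calc |∑ n ∈ F.erase m, t n * g m (h n)| ≤ ∑ n ∈ F.erase m, |t n * g m (h n)| :=
            Finset.abs_sum_le_sum_abs _ _
        _ ≤ ∑ n ∈ F.erase m, ‖t‖ * κ * (1 / 2 : ℝ) ^ n := by
            apply Finset.sum_le_sum
            intro n hn
            have hmn : m ≠ n := (Finset.ne_of_mem_erase hn).symm
            rw [abs_mul, mul_assoc]
            apply mul_le_mul (c0_le_norm t n) _ (abs_nonneg _) (norm_nonneg _)
            refine le_trans (hoff m n hmn) ?_
            apply mul_le_mul_of_nonneg_left _ hκ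
            rw [pow_add]
            have h5 : ((1 : ℝ) / 2) ^ m ≤ 1 := pow_le_one₀ (by norm_num) (by norm_num)
            have h6 : (0 : ℝ) ≤ (1 / 2) ^ n := by positivity
            nlinarith
        _ = ‖t‖ * κ * ∑ n ∈ F.erase m, (1 / 2 : ℝ) ^ n := by rw [Finset.mul_sum]
        _ ≤ ‖t‖ * κ * 2 := by
            apply mul_le_mul_of_nonneg_left _ (by positivity)
            calc ∑ n ∈ F.erase m, (1 / 2 : ℝ) ^ n ≤ ∑' n : ℕ, (1 / 2 : ℝ) ^ n :=
                  summable_geometric_two.sum_le_tsum _ (fun n _ => by positivity)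
              _ = 2 := tsum_geometric_two
        _ = 2 * κ * ‖t‖ := by ring
    linarith
  let U := Units.oneSub ((1 : C₀(ℕ, ℝ) →L[ℝ] C₀(ℕ, ℝ)) - T) hclose
  have hU : (U : C₀(ℕ, ℝ) →L[ℝ] C₀(ℕ, ℝ)) = T := by
    rw [Units.val_oneSub]
    exact sub_sub_cancel (1 : C₀(ℕ, ℝ) →L[ℝ] C₀(ℕ, ℝ)) T
  set W : C₀(ℕ, ℝ) →L[ℝ] C₀(ℕ, ℝ) := ((U⁻¹ : (C₀(ℕ, ℝ) →L[ℝ] C₀(ℕ, ℝ))ˣ) :
    C₀(ℕ, ℝ) →L[ℝ] C₀(ℕ, ℝ)) with hW
  have hWT : ∀ t, W (T t) = t := by
    intro t
    have h1 : W * (U : C₀(ℕ, ℝ) →L[ℝ] C₀(ℕ, ℝ)) = 1 := U.inv_mul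
    rw [hU] at h1
    exact congrArg (fun A : C₀(ℕ, ℝ) →L[ℝ] C₀(ℕ, ℝ) => A t) h1
  have hPS : ∀ t, S' (W (Q' (S' t))) = S' t := by
    intro t
    rw [← hTapp, hWT]
  refine ⟨S'.comp (W.comp Q'), ?_, ?_, ?_⟩
  · intro x
    exact hPS (W (Q' x))
  · have h1 : TopologicalSpace.IsSeparable (closure (Submodule.span ℝ (Set.range h) : Set X)) := by
      apply TopologicalSpace.IsSeparable.closure
      exact (Set.countable_range h).isSeparable.span
    refine h1.mono ?_
    rintro _ ⟨x, rfl⟩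
    have h2 := S_hasSum h C hC ha (W (Q' x))
    refine mem_closure_of_tendsto h2 (Eventually.of_forall (fun F => ?_))
    exact Submodule.sum_mem _ (fun n _ => Submodule.smul_mem _ _
      (Submodule.subset_span ⟨n, rfl⟩))
  · intro hfin
    have hSdel : ∀ n, S' (del n) = h n := by
      intro n
      have h1 := S_hasSum h C hC ha (del n)
      have h2 : HasSum (fun k => del n k • h k) (h n) := by
        have h3 : (fun k => del n k • h k) = fun k => if k = n then h n else 0 := by
          funext k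
          rw [del_apply]
          by_cases hk : k = n
          · rw [if_pos hk, if_pos hk, hk, one_smul]
          · rw [if_neg hk, if_neg hk, zero_smul]
        rw [h3]
        exact hasSum_ite_eq n (h n)
      exact h1.unique h2
    have hmem : ∀ n, h n ∈ LinearMap.range ((S'.comp (W.comp Q') : X →L[ℝ] X) : X →ₗ[ℝ] X) := by
      intro n
      refine ⟨h n, ?_⟩
      change S' (W (Q' (h n))) = h n
      rw [← hSdel n, hPS]
    have hli : LinearIndependent ℝ (fun n => (⟨h n, hmem n⟩ :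
        LinearMap.range ((S'.comp (W.comp Q') : X →L[ℝ] X) : X →ₗ[ℝ] X))) := by
      rw [linearIndependent_iff']
      intro F c hc j hj
      have h1 : ∑ n ∈ F, c n • h n = 0 := by
        have := congrArg (Submodule.subtype _) hc
        rw [map_sum, map_zero] at this
        simpa only [map_smul, Submodule.subtype_apply] using this
      have h2 : S' (∑ n ∈ F, c n • del n) = 0 := by
        rw [map_sum, ← h1]
        apply Finset.sum_congr rfl
        intro n _
        rw [map_smul, hSdel]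
      have h3 : ∑ n ∈ F, c n • del n = 0 := by
        have h4 := hWT (∑ n ∈ F, c n • del n)
        rw [hTapp, h2, map_zero, map_zero] at h4
        exact h4.symm
      have h5 : (∑ n ∈ F, c n • del n) j = c j := by
        have h6 : ∀ F' : Finset ℕ, (∑ n ∈ F', c n • del n) j = ∑ n ∈ F', c n * del n j := by
          intro F'
          induction F' using Finset.induction_on with
          | empty => simp
          | insert a s has ih =>
            rw [Finset.sum_insert has, Finset.sum_insert has, ZeroAtInftyContinuousMap.add_apply,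
              ih, ZeroAtInftyContinuousMap.smul_apply, smul_eq_mul]
        rw [h6]
        simp only [del_apply]
        simp [hj]
      rw [← h5, h3]
      rfl
    have h7 := hli.finite
    exact not_finite ℕ

end H857NC
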