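import Mathlib
import Pool.Agent.H857R2.NC.Stm

/-!
An attained quotient seminorm of a differentiable norm is differentiable off its kernel.
-/

set_option autoImplicit false

namespace H857NC

open Filter Topology Set

universe u

private lemma qsn_diff {X : Type u} [NormedAddCommGroup X] [NormedSpace ℝ X] (N M : Seminorm ℝ X)
    (x z : X) (D : X →L[ℝ] ℝ) (hD : HasFDerivAt N D z) (h0 : M x = N z)
    (h1 : ∀ h : X, M (x + h) ≤ N (z + h)) : HasFDerivAt M D x := by
  rw [hasFDerivAt_iff_isLittleO_nhds_zero, Asymptotics.isLittleO_iff] at hD ⊢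
  intro c hc
  have h2 := hD hc
  have h3 : Tendsto (fun h : X => -h) (𝓝 0) (𝓝 0) := by
    have := (continuous_neg (G := X)).tendsto 0
    rwa [neg_zero] at this
  have h4 := h3.eventually h2
  filter_upwards [h2, h4] with h h5 h6
  rw [Real.norm_eq_abs, abs_le] at h5 h6
  rw [map_neg, norm_neg] at h6
  have h7 := h1 h
  have h8 := h1 (-h)
  have h9 : 2 * M x ≤ M (x + h) + M (x + -h) := by
    calc 2 * M x = M ((2 : ℝ) • x) := by
          rw [map_smul_eq_mul, Real.norm_eq_abs, abs_of_pos two_pos]
      _ = M ((x + h) + (x + -h)) := by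
          congr 1
          rw [two_smul]
          abel
      _ ≤ _ := map_add_le_add M _ _
  rw [Real.norm_eq_abs, abs_le]
  constructor <;> linarith [h5.1, h5.2, h6.1, h6.2]

theorem QSN : QSN_stm.{u} := by
  intro X _ _ N hN hdiff E hatt
  choose pr hpr1 hpr2 using hatt
  have key : ∀ x, ∀ e ∈ E, N (x - pr x) ≤ N (x - e) := fun x e he => hpr2 x e he
  have hz : N ((0 : X) - pr 0) = 0 := by
    apply le_antisymm _ (apply_nonneg N _)
    have := key 0 0 E.zero_mem
    rwa [sub_zero, map_zero] at this
  let M : Seminorm ℝ X := Seminorm.ofSMulLE (fun x => N (x - pr x)) hz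
    (fun x y => by
      calc N (x + y - pr (x + y)) ≤ N (x + y - (pr x + pr y)) :=
            key _ _ (E.add_mem (hpr1 x) (hpr1 y))
        _ = N ((x - pr x) + (y - pr y)) := by congr 1; abel
        _ ≤ _ := map_add_le_add N _ _)
    (fun r x => by
      calc N (r • x - pr (r • x)) ≤ N (r • x - r • pr x) := key _ _ (E.smul_mem _ (hpr1 x))
        _ = N (r • (x - pr x)) := by rw [smul_sub]
        _ = ‖r‖ * N (x - pr x) := map_smul_eq_mul N _ _
        _ ≤ _ := le_rfl)
  have hM : ∀ x, M x = N (x - pr x) := fun x => rfl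
  obtain ⟨b, hb, hb'⟩ := hN.upper
  obtain ⟨a, ha, ha'⟩ := hN.lower
  refine ⟨M, ⟨b, fun x => ?_⟩, fun x => ⟨fun h => ?_, fun h => ?_⟩, fun x hx => ?_⟩
  · have := key x 0 E.zero_mem
    rw [sub_zero] at this
    rw [hM]
    exact this.trans (hb' x)
  · have h1 := ha' (x - pr x)
    rw [← hM, h] at h1
    have h2 : ‖x - pr x‖ ≤ 0 := by
      by_contra h4
      push Not at h4
      have := mul_pos ha h4
      linarith
    have h3 := sub_eq_zero.1 (norm_le_zero_iff.1 h2)
    rw [h3]
    exact hpr1 x
  · apply le_antisymm _ (apply_nonneg M _)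
    have := key x x h
    rw [sub_self, map_zero] at this
    exact this
  · have hzne : x - pr x ≠ 0 := by
      intro h
      apply hx
      rw [hM, h, map_zero]
    refine (qsn_diff N M x (x - pr x) _ (hdiff _ hzne).hasFDerivAt (hM x) fun h => ?_).differentiableAt
    rw [hM]
    have := key (x + h) (pr x) (hpr1 x)
    have h5 : x + h - pr x = x - pr x + h := by abel
    rwa [h5] at this

end H857NC
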