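import Mathlib
import Pool.Agent.H857R2.NC.Stm

set_option autoImplicit false
set_option linter.all false

namespace H857NC

open Filter Topology Set

universe u

/-- the operator `x ↦ (2^{-n} f_n x)_n` into `ℓ²` -/
theorem QUO_op {X : Type u} [NormedAddCommGroup X] [NormedSpace ℝ X]
    (f : ℕ → StrongDual ℝ X) (hf : ∀ n, ‖f n‖ ≤ 1) :
    ∃ C : X →L[ℝ] (lp (fun _ : ℕ => ℝ) 2),
      (∀ x n, (C x : ℕ → ℝ) n = (1 / 2 : ℝ) ^ n * f n x) ∧
      ∀ (x : X) (n : ℕ), (∀ m, m < n → f m x = 0) → ‖C x‖ ≤ (1 / 2 : ℝ) ^ n * 2 * ‖x‖ := by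
  haveI : Fact ((1 : ENNReal) ≤ 2) := ⟨by norm_num⟩
  set ee : ℕ → lp (fun _ : ℕ => ℝ) 2 := fun n => lp.single 2 n (1 : ℝ) with hee
  have hee1 : ∀ n, ‖ee n‖ = 1 := by
    intro n
    simp only [hee]
    rw [lp.norm_single (by norm_num)]
    simp
  have heem : ∀ n m, (ee n : ℕ → ℝ) m = if m = n then 1 else 0 := by
    intro n m
    simp only [hee]
    rw [lp.single_apply]
    simp [Pi.single_apply]
  clear_value ee
  set A : ℕ → X →L[ℝ] (lp (fun _ : ℕ => ℝ) 2) := fun n =>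
    ((1 / 2 : ℝ) ^ n) • (f n).smulRight (ee n) with hA
  have hAx : ∀ n x, A n x = ((1 / 2 : ℝ) ^ n * f n x) • ee n := by
    intro n x
    simp only [hA, ContinuousLinearMap.smul_apply, ContinuousLinearMap.smulRight_apply, smul_smul]
  have hAxn : ∀ n x, ‖A n x‖ ≤ (1 / 2 : ℝ) ^ n * ‖x‖ := by
    intro n x
    rw [hAx, norm_smul, hee1, mul_one, norm_mul, Real.norm_eq_abs, abs_of_pos (by positivity)]
    refine mul_le_mul_of_nonneg_left ?_ (by positivity)
    calc ‖f n x‖ ≤ ‖f n‖ * ‖x‖ := (f n).le_opNorm _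
      _ ≤ 1 * ‖x‖ := mul_le_mul_of_nonneg_right (hf n) (norm_nonneg _)
      _ = ‖x‖ := one_mul _
  have hgeo : Summable (fun j : ℕ => (1 / 2 : ℝ) ^ j) :=
    summable_geometric_of_lt_one (by norm_num) (by norm_num)
  have hs : Summable A := Summable.of_norm_bounded hgeo (fun n =>
    ContinuousLinearMap.opNorm_le_bound _ (by positivity) (hAxn n))
  clear_value A
  obtain ⟨C, hCs⟩ := hs
  have hCx : ∀ x, HasSum (fun n => A n x) (C x) := by
    intro x
    have h := hCs.mapL (ContinuousLinearMap.apply ℝ (lp (fun _ : ℕ => ℝ) 2) x)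
    simpa only [ContinuousLinearMap.apply_apply] using h
  refine ⟨C, fun x m => ?_, fun x n hn => ?_⟩
  · have h1 := (hCx x).mapL (lp.evalCLM ℝ (fun _ : ℕ => ℝ) 2 m)
    have h2 : HasSum (fun n => (lp.evalCLM ℝ (fun _ : ℕ => ℝ) 2 m) (A n x))
        ((1 / 2 : ℝ) ^ m * f m x) := by
      have h3 : (fun n => (lp.evalCLM ℝ (fun _ : ℕ => ℝ) 2 m) (A n x)) =
          fun n => if n = m then (1 / 2 : ℝ) ^ m * f m x else 0 := by
        funext n
        rw [hAx, map_smul, smul_eq_mul]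
        have : (lp.evalCLM ℝ (fun _ : ℕ => ℝ) 2 m) (ee n) = if m = n then 1 else 0 := heem n m
        rw [this]
        by_cases h : n = m
        · subst h; simp
        · rw [if_neg (fun h' => h h'.symm), if_neg h, mul_zero]
      rw [h3]
      exact hasSum_ite_eq m _
    exact h1.unique h2
  · have h1 := hCx x
    have h2 : C x = ∑' j, A (j + n) x := by
      rw [← h1.tsum_eq, ← h1.summable.sum_add_tsum_nat_add n]
      have : ∑ i ∈ Finset.range n, A i x = 0 := by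
        refine Finset.sum_eq_zero (fun i hi => ?_)
        rw [hAx, hn i (Finset.mem_range.mp hi), mul_zero, zero_smul]
      rw [this, zero_add]
    have h3 : HasSum (fun j : ℕ => (1 / 2 : ℝ) ^ n * ‖x‖ * (1 / 2 : ℝ) ^ j)
        ((1 / 2 : ℝ) ^ n * ‖x‖ * 2) := by
      have h4 := (hasSum_geometric_two).mul_left ((1 / 2 : ℝ) ^ n * ‖x‖)
      exact h4
    rw [h2, mul_right_comm]
    refine tsum_of_norm_bounded h3 (fun j => ?_)
    refine (hAxn _ _).trans (le_of_eq ?_)
    rw [pow_add]; ring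

theorem QUO_mono {a b a' b' : ℝ} (ha : 0 ≤ a) (hb : 0 ≤ b) (h1 : a ≤ a') (h2 : b ≤ b') :
    Real.sqrt (a ^ 2 + b ^ 2) ≤ Real.sqrt (a' ^ 2 + b' ^ 2) := by
  apply Real.sqrt_le_sqrt
  have := pow_le_pow_left₀ ha h1 2
  have := pow_le_pow_left₀ hb h2 2
  linarith

theorem QUO_mink (a b c d : ℝ) :
    Real.sqrt ((a + c) ^ 2 + (b + d) ^ 2) ≤ Real.sqrt (a ^ 2 + b ^ 2) + Real.sqrt (c ^ 2 + d ^ 2) := by
  have h1 := Real.sq_sqrt (show 0 ≤ a ^ 2 + b ^ 2 by positivity)
  have h2 := Real.sq_sqrt (show 0 ≤ c ^ 2 + d ^ 2 by positivity)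
  have h3 := Real.sqrt_nonneg (a ^ 2 + b ^ 2)
  have h4 := Real.sqrt_nonneg (c ^ 2 + d ^ 2)
  rw [Real.sqrt_le_left (by positivity)]
  have h5 : a * c + b * d ≤ Real.sqrt (a ^ 2 + b ^ 2) * Real.sqrt (c ^ 2 + d ^ 2) := by
    rw [← Real.sqrt_mul (by positivity)]
    apply Real.le_sqrt_of_sq_le
    nlinarith [sq_nonneg (a * d - b * c)]
  nlinarith

theorem QUO : QUO_stm.{u} := by
  intro X _ _ M hMb hMd f v hf htot hv hfv
  obtain ⟨b, hb⟩ := hMb
  obtain ⟨C, hC1, hC2⟩ := QUO_op f hf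
  haveI : Fact ((1 : ENNReal) ≤ 2) := ⟨by norm_num⟩
  set p : X → ℝ := fun x => Real.sqrt ((M x) ^ 2 + ‖C x‖ ^ 2) with hp
  have hpadd : ∀ x y, p (x + y) ≤ p x + p y := by
    intro x y
    simp only [hp]
    refine le_trans (QUO_mono (apply_nonneg M _) (norm_nonneg _) (map_add_le_add M x y) ?_)
      (QUO_mink _ _ _ _)
    rw [map_add]; exact norm_add_le _ _
  have hpsmul : ∀ (a : ℝ) (x : X), p (a • x) = ‖a‖ * p x := by
    intro a x
    simp only [hp]
    rw [map_smul_eq_mul, map_smul, norm_smul, mul_pow, mul_pow, ← mul_add,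
      Real.sqrt_mul (by positivity), Real.sqrt_sq (norm_nonneg _)]
  have hp0 : ∀ x, p x = 0 → x = 0 := by
    intro x hx
    simp only [hp] at hx
    rw [Real.sqrt_eq_zero (by positivity)] at hx
    have h1 : M x = 0 := by
      have h2 : (M x) ^ 2 = 0 := by nlinarith [sq_nonneg (M x), sq_nonneg ‖C x‖]
      exact pow_eq_zero_iff (two_ne_zero) |>.mp h2
    have h3 : C x = 0 := by
      have h2 : ‖C x‖ ^ 2 = 0 := by nlinarith [sq_nonneg (M x), sq_nonneg ‖C x‖]
      exact norm_eq_zero.mp (pow_eq_zero_iff (two_ne_zero) |>.mp h2)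
    refine htot x h1 (fun n => ?_)
    have h4 := hC1 x n
    rw [h3] at h4
    have h5 : (1 / 2 : ℝ) ^ n * f n x = 0 := by rw [← h4]; rfl
    exact (mul_eq_zero.mp h5).resolve_left (by positivity)
  refine ⟨Seminorm.of p hpadd hpsmul, hp0, ?_, ?_, ?_⟩
  · refine ⟨|b| + ‖C‖, fun x => ?_⟩
    change p x ≤ _
    simp only [hp]
    rw [Real.sqrt_le_left (by positivity)]
    have h1 : M x ≤ |b| * ‖x‖ := (hb x).trans (mul_le_mul_of_nonneg_right (le_abs_self b) (norm_nonneg _))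
    have h2 : ‖C x‖ ≤ ‖C‖ * ‖x‖ := C.le_opNorm x
    have h3 := pow_le_pow_left₀ (apply_nonneg M x) h1 2
    have h4 := pow_le_pow_left₀ (norm_nonneg (C x)) h2 2
    have h5 : 0 ≤ |b| * ‖x‖ * (‖C‖ * ‖x‖) := by positivity
    nlinarith
  · intro a ha
    obtain ⟨n, hn⟩ := exists_pow_lt_of_lt_one (show (0:ℝ) < a / 2 by positivity)
      (show (1 / 2 : ℝ) < 1 by norm_num)
    refine ⟨v n, ?_⟩
    change p (v n) < _
    simp only [hp]
    rw [(hv n).1, (hv n).2]
    have h1 := hC2 (v n) n (fun m hm => hfv m n hm)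
    rw [(hv n).2, mul_one] at h1
    rw [show (0:ℝ) ^ 2 + ‖C (v n)‖ ^ 2 = ‖C (v n)‖ ^ 2 by ring, Real.sqrt_sq (norm_nonneg _)]
    linarith
  · intro x hx
    change DifferentiableAt ℝ p x
    have hne : (M x) ^ 2 + ‖C x‖ ^ 2 ≠ 0 := by
      intro h
      apply hx
      apply hp0
      simp only [hp]
      rw [h, Real.sqrt_zero]
    have hM2 : DifferentiableAt ℝ (fun y => (M y) ^ 2) x := by
      by_cases h0 : M x = 0
      · have h1 : HasFDerivAt (fun y => (M y) ^ 2) (0 : X →L[ℝ] ℝ) x := by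
          rw [hasFDerivAt_iff_isLittleO_nhds_zero]
          have h2 : (fun h : X => (M (x + h)) ^ 2 - (M x) ^ 2 - (0 : X →L[ℝ] ℝ) h) =O[𝓝 0]
              (fun h : X => ‖h‖ ^ 2) := by
            apply Asymptotics.IsBigO.of_bound (|b| ^ 2)
            refine Eventually.of_forall (fun h => ?_)
            rw [h0]
            simp only [ContinuousLinearMap.zero_apply, sub_zero]
            rw [show (M (x + h)) ^ 2 - (0:ℝ) ^ 2 = (M (x + h)) ^ 2 by ring, norm_pow, norm_pow,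
              norm_norm, ← mul_pow]
            refine pow_le_pow_left₀ (norm_nonneg _) ?_ 2
            rw [Real.norm_eq_abs, abs_of_nonneg (apply_nonneg M _)]
            calc M (x + h) ≤ M x + M h := map_add_le_add M x h
              _ = M h := by rw [h0, zero_add]
              _ ≤ b * ‖h‖ := hb h
              _ ≤ |b| * ‖h‖ := mul_le_mul_of_nonneg_right (le_abs_self b) (norm_nonneg _)
          exact h2.trans_isLittleO (Asymptotics.isLittleO_norm_pow_id one_lt_two)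
        exact h1.differentiableAt
      · exact (hMd x h0).pow 2
    have hC3 : DifferentiableAt ℝ (fun y => ‖C y‖ ^ 2) x := C.differentiableAt.norm_sq ℝ
    exact (hM2.add hC3).sqrt hne

end H857NC
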