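import Mathlib
import Pool.Agent.H857R2.NC.Stm

set_option autoImplicit false

namespace H857NC

open Filter Topology Set

universe u

/-- separation of a point from a closed subspace -/
private theorem rsb_sep {X : Type u} [NormedAddCommGroup X] [NormedSpace ℝ X] (F : Submodule ℝ X)
    (hF : IsClosed (F : Set X)) (x : X) (hx : x ∉ F) :
    ∃ f : StrongDual ℝ X, (∀ y ∈ F, f y = 0) ∧ f x ≠ 0 := by
  obtain ⟨f, u, h1, h2⟩ := geometric_hahn_banach_point_closed (x := x) F.convex hF hx
  have h0 : u < 0 := by simpa using h2 0 F.zero_mem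
  refine ⟨f, fun y hy => ?_, by linarith⟩
  by_contra hne
  have := h2 ((u / f y) • y) (F.smul_mem _ hy)
  rw [map_smul, smul_eq_mul, div_mul_cancel₀ _ hne] at this
  exact lt_irrefl _ this

/-- a closed subspace of a reflexive subspace is reflexive -/
private theorem rsb_refl {X : Type u} [NormedAddCommGroup X] [NormedSpace ℝ X]
    (E F : Submodule ℝ X) (hFE : F ≤ E) (hF : IsClosed (F : Set X))
    (hE : Function.Surjective (NormedSpace.inclusionInDoubleDual ℝ E)) :
    Function.Surjective (NormedSpace.inclusionInDoubleDual ℝ F) := by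
  intro ξ
  let i : F →L[ℝ] E := LinearMap.mkContinuous (Submodule.inclusion hFE) 1 (by
    intro x; simp)
  have hi : ∀ x : F, ((i x : E) : X) = (x : X) := fun x => rfl
  let R : StrongDual ℝ E →L[ℝ] StrongDual ℝ F := (ContinuousLinearMap.compL ℝ F E ℝ).flip i
  have hR : ∀ (φ : StrongDual ℝ E) (x : F), R φ x = φ (i x) := fun φ x => rfl
  obtain ⟨e, he⟩ := hE (ξ.comp R)
  have he' : ∀ φ : StrongDual ℝ E, φ e = ξ (R φ) := by
    intro φ
    have := congrArg (fun z => z φ) he
    simpa using this
  have heF : (e : X) ∈ F := by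
    by_contra hne
    obtain ⟨f, hf1, hf2⟩ := rsb_sep F hF (e : X) hne
    have h1 := he' (f.comp E.subtypeL)
    have h2 : R (f.comp E.subtypeL) = 0 := by
      ext x
      rw [hR]
      simp only [ContinuousLinearMap.comp_apply]
      exact hf1 _ x.2
    rw [h2, map_zero] at h1
    exact hf2 h1
  refine ⟨⟨e, heF⟩, ?_⟩
  ext ψ
  obtain ⟨f, hf1, -⟩ := _root_.exists_extension_norm_eq F ψ
  have h1 := he' (f.comp E.subtypeL)
  have h2 : R (f.comp E.subtypeL) = ψ := by
    ext x
    rw [hR]
    simp only [ContinuousLinearMap.comp_apply]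
    exact hf1 x
  rw [h2] at h1
  rw [NormedSpace.dual_def, ← h1, ← hf1]
  rfl

theorem RSB : RSB_stm.{u} := by
  intro X _ _ _ E hE hfin hrefl
  let b := Module.Basis.ofVectorSpace ℝ E
  have hinf : Infinite (Module.Basis.ofVectorSpaceIndex ℝ E) := by
    by_contra h
    have : Finite (Module.Basis.ofVectorSpaceIndex ℝ E) := not_infinite_iff_finite.1 h
    exact hfin (Module.Finite.of_basis b)
  let v : ℕ → E := fun n => b (Infinite.natEmbedding _ n)
  have hv : LinearIndependent ℝ v :=
    b.linearIndependent.comp _ (Infinite.natEmbedding _).injective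
  let w : ℕ → X := fun n => (v n : X)
  have hw : LinearIndependent ℝ w := hv.map' E.subtype (by simp)
  let F : Submodule ℝ X := (Submodule.span ℝ (range w)).topologicalClosure
  have hFc : IsClosed (F : Set X) := Submodule.isClosed_topologicalClosure _
  have hFE : F ≤ E := by
    apply Submodule.topologicalClosure_minimal _ _ hE
    rw [Submodule.span_le]
    rintro _ ⟨n, rfl⟩
    exact (v n).2
  have hwF : ∀ n, w n ∈ F := fun n =>
    Submodule.le_topologicalClosure _ (Submodule.subset_span ⟨n, rfl⟩)
  refine ⟨F, hFc, ?_, ?_, rsb_refl E F hFE hFc hrefl⟩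
  · intro hfd
    have hli : LinearIndependent ℝ (fun n => (⟨w n, hwF n⟩ : F)) := by
      apply LinearIndependent.of_comp F.subtype
      exact hw
    have := hli.finite
    exact not_finite ℕ
  · have : TopologicalSpace.IsSeparable ((Submodule.span ℝ (range w) : Submodule ℝ X) : Set X) :=
      (TopologicalSpace.IsSeparable.span (R := ℝ) (countable_range w).isSeparable)
    exact this.closure

end H857NC
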