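import Mathlib
import Pool.Agent.H857R2.NC.Stm

set_option autoImplicit false

/-! Module SIG of helper857 (non complete smooth norms): consequences of bounded signed sums
(helper715). -/

namespace H857NC

universe u

theorem SIG : SIG_stm.{u} := by
  intro X _ _ h C hC
  have hC0 : 0 ≤ C := by
    have := hC ∅ (fun _ => 1) (fun _ => Or.inl rfl)
    simpa using this
  have h1 : ∀ (f : StrongDual ℝ X) (F : Finset ℕ), ∑ n ∈ F, |f (h n)| ≤ C * ‖f‖ := by
    intro f F
    set σ : ℕ → ℝ := fun n => if 0 ≤ f (h n) then 1 else -1 with hσ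
    have hσ1 : ∀ n, σ n = 1 ∨ σ n = -1 := by
      intro n
      by_cases hn : 0 ≤ f (h n)
      · exact Or.inl (if_pos hn)
      · exact Or.inr (if_neg hn)
    have hσ2 : ∀ n, |f (h n)| = σ n * f (h n) := by
      intro n
      by_cases hn : 0 ≤ f (h n)
      · have : σ n = 1 := if_pos hn
        rw [this, one_mul, abs_of_nonneg hn]
      · have : σ n = -1 := if_neg hn
        rw [this, abs_of_neg (not_le.mp hn)]; ring
    have h2 : ∑ n ∈ F, |f (h n)| = f (∑ n ∈ F, σ n • h n) := by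
      rw [map_sum]
      refine Finset.sum_congr rfl fun n _ => ?_
      rw [hσ2, map_smul, smul_eq_mul]
    rw [h2]
    calc f (∑ n ∈ F, σ n • h n) ≤ ‖f (∑ n ∈ F, σ n • h n)‖ := Real.le_norm_self _
      _ ≤ ‖f‖ * ‖∑ n ∈ F, σ n • h n‖ := f.le_opNorm _
      _ ≤ ‖f‖ * C := mul_le_mul_of_nonneg_left (hC F σ hσ1) (norm_nonneg _)
      _ = C * ‖f‖ := mul_comm _ _
  refine ⟨h1, ?_⟩
  intro F t M hM ht
  refine NormedSpace.norm_le_dual_bound ℝ _ (mul_nonneg hC0 hM) fun f => ?_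
  rw [map_sum]
  calc ‖∑ n ∈ F, f (t n • h n)‖ ≤ ∑ n ∈ F, ‖f (t n • h n)‖ := norm_sum_le _ _
    _ ≤ ∑ n ∈ F, M * |f (h n)| := by
        refine Finset.sum_le_sum fun n hn => ?_
        rw [map_smul, smul_eq_mul, norm_mul, Real.norm_eq_abs, Real.norm_eq_abs]
        exact mul_le_mul_of_nonneg_right (ht n hn) (abs_nonneg _)
    _ = M * ∑ n ∈ F, |f (h n)| := by rw [Finset.mul_sum]
    _ ≤ M * (C * ‖f‖) := mul_le_mul_of_nonneg_left (h1 f F) hM
    _ = C * M * ‖f‖ := by ring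

end H857NC
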