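import Mathlib
import Pool.Agent.H857R2.NC.Stm

set_option autoImplicit false
set_option linter.all false

namespace H857NC

open Filter Topology Set

universe u

/-- recursion of the indices -/
def SUB_phi (K : ℕ → ℕ → ℕ) : ℕ → ℕ
  | 0 => 0
  | n + 1 => SUB_phi K n + 1 + ∑ a ∈ Finset.range (SUB_phi K n + 1), K a (n + 1)

theorem SUB : SUB_stm.{u} := by
  intro X _ _ h g hg hh κ hκ
  have hK : ∀ a n : ℕ, ∃ K : ℕ, ∀ k, K ≤ k → |g a (h k)| ≤ κ * (1 / 2 : ℝ) ^ (2 * n) ∧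
      |g k (h a)| ≤ κ * (1 / 2 : ℝ) ^ (2 * n) := by
    intro a n
    have hp : 0 < κ * (1 / 2 : ℝ) ^ (2 * n) := by positivity
    have h1 := (hh (g a)).eventually (Metric.ball_mem_nhds (0:ℝ) hp)
    have h2 := (hg (h a)).eventually (Metric.ball_mem_nhds (0:ℝ) hp)
    obtain ⟨K, hK⟩ := eventually_atTop.mp (h1.and h2)
    refine ⟨K, fun k hk => ?_⟩
    obtain ⟨h3, h4⟩ := hK k hk
    rw [Real.dist_eq, sub_zero] at h3 h4
    exact ⟨h3.le, h4.le⟩
  choose K hK using hK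
  have hmono : StrictMono (SUB_phi K) := by
    refine strictMono_nat_of_lt_succ (fun n => ?_)
    rw [SUB_phi]
    omega
  have hge : ∀ j n, j < n → K (SUB_phi K j) n ≤ SUB_phi K n := by
    intro j n hjn
    obtain ⟨m, rfl⟩ : ∃ m, n = m + 1 := ⟨n - 1, by omega⟩
    have h1 : SUB_phi K j ≤ SUB_phi K m := hmono.monotone (by omega)
    have h2 : K (SUB_phi K j) (m + 1) ≤ ∑ a ∈ Finset.range (SUB_phi K m + 1), K a (m + 1) :=
      Finset.single_le_sum (f := fun a => K a (m + 1)) (fun _ _ => Nat.zero_le _)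
        (Finset.mem_range.mpr (by omega))
    rw [SUB_phi]
    omega
  have key : ∀ j n, j < n → |g (SUB_phi K j) (h (SUB_phi K n))| ≤ κ * (1 / 2 : ℝ) ^ (j + n) ∧
      |g (SUB_phi K n) (h (SUB_phi K j))| ≤ κ * (1 / 2 : ℝ) ^ (j + n) := by
    intro j n hjn
    have h1 := hK (SUB_phi K j) n (SUB_phi K n) (hge j n hjn)
    have h2 : κ * (1 / 2 : ℝ) ^ (2 * n) ≤ κ * (1 / 2 : ℝ) ^ (j + n) :=
      mul_le_mul_of_nonneg_left (pow_le_pow_of_le_one (by norm_num) (by norm_num) (by omega)) hκ.le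
    exact ⟨h1.1.trans h2, h1.2.trans h2⟩
  refine ⟨SUB_phi K, hmono, fun m n hmn => ?_⟩
  rcases lt_or_gt_of_ne hmn with h1 | h1
  · exact (key m n h1).1
  · rw [add_comm]
    exact (key n m h1).2

end H857NC
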