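import Mathlib
import Pool.Agent.H857R2.NC.Stm

set_option autoImplicit false

namespace H857NC

open Filter Topology Set

universe u

theorem SUP (hBP : BP_stm.{u}) (hDER : DER_stm.{u}) : SUP_stm.{u} := by
  intro X _ _ _ N hN hd h C hC ρ hρ
  obtain ⟨b, hb, hu⟩ := hN.upper
  set α : X → ℝ := fun x => limsup (fun n => N (x + h n)) atTop with hα
  have hbd : ∀ x, IsBoundedUnder (· ≤ ·) atTop (fun n => N (x + h n)) := by
    intro x
    refine ⟨N x + C, ?_⟩
    rw [eventually_map]
    refine Eventually.of_forall fun n => ?_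
    exact (map_add_le_add N _ _).trans (by linarith [hC n])
  have hcb : ∀ x, IsCoboundedUnder (· ≤ ·) atTop (fun n => N (x + h n)) := by
    intro x
    refine IsBoundedUnder.isCoboundedUnder_le ⟨0, ?_⟩
    rw [eventually_map]
    exact Eventually.of_forall fun n => apply_nonneg N _
  have hle : ∀ x y, α x ≤ α y + N (x - y) := by
    intro x y
    have e1 : α x ≤ limsup (fun n => N (y + h n) + N (x - y)) atTop := by
      refine limsup_le_limsup (Eventually.of_forall fun n => ?_) (hcb x) ?_
      · have : x + h n = (y + h n) + (x - y) := by abel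
        calc N (x + h n) = N ((y + h n) + (x - y)) := by rw [← this]
          _ ≤ _ := map_add_le_add N _ _
      · obtain ⟨c, hc⟩ := hbd y
        refine ⟨c + N (x - y), ?_⟩
        rw [eventually_map] at hc ⊢
        filter_upwards [hc] with n hn
        linarith
    refine e1.trans (le_of_eq ?_)
    exact limsup_add_const atTop _ _ (hbd y) (hcb y)
  have hαc : Continuous α := by
    have : LipschitzWith (Real.toNNReal b) α := by
      apply LipschitzWith.of_dist_le_mul
      intro x y
      rw [Real.dist_eq, dist_eq_norm, Real.coe_toNNReal _ hb.le]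
      refine le_trans ?_ (hu (x - y))
      rw [abs_le]
      have e1 := hle x y
      have e2 := hle y x
      have e3 : N (y - x) = N (x - y) := map_sub_rev N y x
      constructor <;> linarith
    exact this.continuous
  have hNc : Continuous N := by
    have : LipschitzWith (Real.toNNReal b) N := by
      apply LipschitzWith.of_dist_le_mul
      intro x y
      rw [Real.dist_eq, dist_eq_norm, Real.coe_toNNReal _ hb.le]
      exact (abs_sub_map_le_sub N x y).trans (hu _)
    exact this.continuous
  set A : ℝ := 36 / ρ ^ 2 + 1 with hA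
  have hA1 : 1 ≤ A := by
    have : 0 < 36 / ρ ^ 2 := by positivity
    linarith
  obtain ⟨w, v, hw, hv, hmax⟩ := hBP X N hN (fun x => α x - A * (N x) ^ 2) (by fun_prop) 0 (by
    intro x
    have e1 := hle x 0
    rw [sub_zero] at e1
    simp only [map_zero]
    nlinarith [sq_nonneg (N x - 1), sq_nonneg (N x), apply_nonneg N x])
  simp only [sub_zero] at hw hv
  obtain ⟨hd1, hd2⟩ := hDER X N hN hd
  set S : X → ℝ := fun x => ∑' k, (1 / 2 : ℝ) ^ k * (N (x - v k)) ^ 2 with hS
  have hS0 : S 0 ≤ 32 := by
    have e1 : ∀ k, (1 / 2 : ℝ) ^ k * (N (0 - v k)) ^ 2 ≤ (1 / 2 : ℝ) ^ k * 16 := by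
      intro k
      have e2 : N (0 - v k) ≤ 4 := by rw [zero_sub, map_neg_eq_map]; exact hv k
      have e3 : 0 ≤ N (0 - v k) := apply_nonneg N _
      have e4 : (N (0 - v k)) ^ 2 ≤ 16 := by nlinarith
      exact mul_le_mul_of_nonneg_left e4 (by positivity)
    have hsum : Summable fun k : ℕ => (1 / 2 : ℝ) ^ k * 16 :=
      (summable_geometric_two).mul_right 16
    have hsum' : Summable fun k : ℕ => (1 / 2 : ℝ) ^ k * (N (0 - v k)) ^ 2 :=
      Summable.of_nonneg_of_le (fun k => by positivity) e1 hsum
    calc S 0 ≤ ∑' k : ℕ, (1 / 2 : ℝ) ^ k * 16 := hsum'.tsum_le_tsum e1 hsum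
      _ = 32 := by rw [tsum_mul_right, tsum_geometric_two]; norm_num
  have hSw : 0 ≤ S w := tsum_nonneg fun k => by positivity
  refine ⟨w, fun x => A * (N x) ^ 2 + S x, ?_, ?_, ?_⟩
  · have e1 := hmax 0
    simp only [map_zero] at e1
    have e1' : α 0 - A * 0 ^ 2 - S 0 ≤ α w - A * (N w) ^ 2 - S w := e1
    have e2 := hle w 0
    rw [sub_zero] at e2
    have e3 : A * (N w) ^ 2 ≤ 36 := by nlinarith
    have e4 : 0 ≤ N w := apply_nonneg N w
    by_contra hcon
    push Not at hcon
    have e5 : ρ ^ 2 < (N w) ^ 2 := by nlinarith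
    have e6 : A * ρ ^ 2 = 36 + ρ ^ 2 := by
      rw [hA]; field_simp
    have e7 : 0 < ρ ^ 2 := by positivity
    have e8 : A * ρ ^ 2 ≤ A * (N w) ^ 2 := by nlinarith
    linarith
  · intro y
    have e1 : α (w + y) - A * (N (w + y)) ^ 2 - S (w + y) ≤ α w - A * (N w) ^ 2 - S w :=
      hmax (w + y)
    show α (w + y) - α w ≤ _
    linarith
  · intro y
    exact ((hd1 w y).const_mul A).add (hd2 v 4 hv w y)

end H857NC
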