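import Mathlib
import Pool.Agent.H857R2.NC.Stm

set_option autoImplicit false

/-! Module TAIL of helper857 (non complete smooth norms): small tails of signed sums without `c_0`
(helper715). -/

namespace H857NC

universe u

theorem TAIL : TAIL_stm.{u} := by
  intro X _ _ hno h C hC ε hε
  by_contra hcon
  push Not at hcon
  choose F hF σ hσ hbig using hcon
  -- starting points of the blocks
  let s : ℕ → ℕ := fun j => Nat.rec 0 (fun _ a => max a ((F a).sup id + 1)) j
  have hs : ∀ j, s (j + 1) = max (s j) ((F (s j)).sup id + 1) := fun j => rfl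
  have hmono : Monotone s := monotone_nat_of_le_succ fun j => by rw [hs]; exact le_max_left _ _
  have hlow : ∀ j, ∀ i ∈ F (s j), s j ≤ i := fun j => hF (s j)
  have hupp : ∀ j, ∀ i ∈ F (s j), i < s (j + 1) := by
    intro j i hi
    rw [hs]
    refine lt_of_lt_of_le ?_ (le_max_right _ _)
    exact Nat.lt_succ_of_le (Finset.le_sup (f := id) hi)
  have huniq : ∀ j j' i, i ∈ F (s j) → i ∈ F (s j') → j = j' := by
    intro j j' i hi hi'
    rcases lt_trichotomy j j' with hlt | heq | hgt
    · exact absurd (hupp j i hi) (not_lt.mpr ((hmono hlt).trans (hlow j' i hi')))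
    · exact heq
    · exact absurd (hupp j' i hi') (not_lt.mpr ((hmono hgt).trans (hlow j i hi)))
  refine hno ⟨fun j => ∑ n ∈ F (s j), σ (s j) n • h n, ε, C, hε, fun j => (hbig (s j)).le, ?_⟩
  intro A τ hτ
  classical
  set ρ : ℕ → ℝ := fun n => if hn : ∃ j, n ∈ F (s j) then τ hn.choose * σ (s hn.choose) n else 1
    with hρ
  have hρ1 : ∀ j, ∀ n ∈ F (s j), ρ n = τ j * σ (s j) n := by
    intro j n hn
    have hex : ∃ j, n ∈ F (s j) := ⟨j, hn⟩
    have h1 : ρ n = τ hex.choose * σ (s hex.choose) n := dif_pos hex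
    have h2 : hex.choose = j := huniq _ _ n hex.choose_spec hn
    rw [h1, h2]
  have hρ2 : ∀ n, ρ n = 1 ∨ ρ n = -1 := by
    intro n
    by_cases hn : ∃ j, n ∈ F (s j)
    · obtain ⟨j, hj⟩ := hn
      rw [hρ1 j n hj]
      rcases hτ j with h1 | h1 <;> rcases hσ (s j) n with h2 | h2 <;> rw [h1, h2] <;> norm_num
    · exact Or.inl (dif_neg hn)
  have hsum : ∑ j ∈ A, τ j • ∑ n ∈ F (s j), σ (s j) n • h n
      = ∑ n ∈ A.biUnion (fun j => F (s j)), ρ n • h n := by
    rw [Finset.sum_biUnion]
    · refine Finset.sum_congr rfl fun j _ => ?_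
      rw [Finset.smul_sum]
      refine Finset.sum_congr rfl fun n hn => ?_
      rw [hρ1 j n hn, mul_smul]
    · intro j _ j' _ hjj
      rw [Function.onFun, Finset.disjoint_left]
      intro i hi hi'
      exact hjj (huniq j j' i hi hi')
  rw [hsum]
  exact hC _ ρ hρ2

end H857NC
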