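import Mathlib
import Pool.Agent.H857R2.NC.Stm

/-!
A renormed copy of a normed space.
-/

set_option autoImplicit false

namespace H857NC

open Filter Topology Set

universe u

/-- the space `X` with the norm `M` -/
def TRcopy {X : Type u} [NormedAddCommGroup X] [NormedSpace ℝ X] (_M : Seminorm ℝ X) : Type u := X

section

variable {X : Type u} [NormedAddCommGroup X] [NormedSpace ℝ X] (M : Seminorm ℝ X)

instance : AddCommGroup (TRcopy M) := inferInstanceAs (AddCommGroup X)

instance : Module ℝ (TRcopy M) := inferInstanceAs (Module ℝ X)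

instance : Norm (TRcopy M) := ⟨fun x => M (show X from x)⟩

private lemma tr_core (hM : IsEquivNorm M) : NormedSpace.Core ℝ (TRcopy M) where
  norm_nonneg x := apply_nonneg M _
  norm_smul c x := map_smul_eq_mul M c _
  norm_triangle x y := map_add_le_add M _ _
  norm_eq_zero_iff x := by
    constructor
    · intro h
      obtain ⟨a, ha, h1⟩ := hM.lower
      have h2 : a * ‖(show X from x)‖ ≤ 0 := (h1 _).trans (le_of_eq h)
      have h3 : ‖(show X from x)‖ ≤ 0 := by
        by_contra h4
        push Not at h4
        have := mul_pos ha h4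
        linarith
      exact norm_le_zero_iff.1 h3
    · intro h
      rw [h]
      exact map_zero M

end

theorem TR : TR_stm.{u} := by
  intro X _ _ M hM
  let i1 : NormedAddCommGroup (TRcopy M) := NormedAddCommGroup.ofCore (tr_core M hM)
  let i2 : NormedSpace ℝ (TRcopy M) := NormedSpace.ofCore (tr_core M hM)
  obtain ⟨b, hb, hb'⟩ := hM.upper
  obtain ⟨a, ha, ha'⟩ := hM.lower
  let l : X ≃ₗ[ℝ] TRcopy M := LinearEquiv.refl ℝ X
  refine ⟨TRcopy M, i1, i2, l.toContinuousLinearEquivOfBounds b a⁻¹ (fun x => hb' x)
    (fun x => ?_), fun x => rfl⟩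
  have h1 := ha' (show X from x)
  rw [inv_mul_eq_div, le_div_iff₀ ha, mul_comm]
  exact h1

end H857NC
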