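import Mathlib
import Pool.Agent.H857R2.NC.Stm

set_option autoImplicit false

namespace H857NC

open Filter Topology Set

universe u

section

variable {X : Type u} [NormedAddCommGroup X] [NormedSpace ℝ X]

/-- tangent inequality for convex functions -/
theorem ust_tangent {Φ : X → ℝ} (hconv : ConvexOn ℝ univ Φ) {x : X} (hd : DifferentiableAt ℝ Φ x)
    (y : X) : Φ x + fderiv ℝ Φ x (y - x) ≤ Φ y := by
  have h1 : HasDerivAt (fun t : ℝ => Φ (x + t • (y - x))) (fderiv ℝ Φ x (y - x)) 0 := by
    have h2 : HasDerivAt (fun t : ℝ => x + t • (y - x)) (y - x) 0 := by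
      have := ((hasDerivAt_id (0 : ℝ)).smul_const (y - x)).const_add x
      simpa using this
    have h3 : HasFDerivAt Φ (fderiv ℝ Φ x) (x + (0 : ℝ) • (y - x)) := by
      simpa using hd.hasFDerivAt
    exact h3.comp_hasDerivAt (0 : ℝ) h2
  have h4 := h1.tendsto_slope_zero_right
  have h5 : fderiv ℝ Φ x (y - x) ≤ Φ y - Φ x := by
    refine le_of_tendsto h4 ?_
    filter_upwards [Ioo_mem_nhdsGT (show (0 : ℝ) < 1 by norm_num)] with t ht
    have ht0 : 0 < t := ht.1
    have h6 : Φ (x + t • (y - x)) ≤ (1 - t) * Φ x + t * Φ y := by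
      have := hconv.2 (mem_univ x) (mem_univ y) (by linarith [ht.2] : (0 : ℝ) ≤ 1 - t) ht0.le
        (by ring)
      have e : (1 - t) • x + t • y = x + t • (y - x) := by module
      rw [e] at this
      simpa using this
    have h7 : t⁻¹ * (Φ (x + t • (y - x)) - Φ x) ≤ Φ y - Φ x := by
      rw [inv_mul_le_iff₀ ht0]
      nlinarith
    simpa using h7
  linarith

/-- a map which is uniformly continuous on a ball is bounded on the half ball -/
theorem ust_bdd {Y : Type*} [NormedAddCommGroup Y] (D : X → Y) (r : ℝ) (hr : 0 < r)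
    (hu : UniformContinuousOn D (Metric.ball (0 : X) r)) :
    ∃ B : ℝ, 0 < B ∧ ∀ x, ‖x‖ ≤ r / 2 → ‖D x‖ ≤ B := by
  rw [Metric.uniformContinuousOn_iff] at hu
  obtain ⟨δ, hδ, h⟩ := hu 1 one_pos
  obtain ⟨n, hn⟩ := exists_nat_gt (r / δ)
  have hn0 : (0 : ℝ) < n := lt_trans (by positivity) hn
  refine ⟨‖D 0‖ + n, by positivity, ?_⟩
  intro x hx
  have hstep : ∀ k : ℕ, k ≤ n → ‖D (((k : ℝ) / n) • x)‖ ≤ ‖D 0‖ + k := by
    intro k
    induction k with
    | zero => intro _; simp
    | succ k ih =>
      intro hk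
      have ih' := ih (by omega)
      have hb : ∀ j : ℕ, j ≤ n → ((j : ℝ) / n) • x ∈ Metric.ball (0 : X) r := by
        intro j hj
        rw [mem_ball_zero_iff, norm_smul, Real.norm_of_nonneg (by positivity)]
        have h1 : (j : ℝ) / n ≤ 1 := by
          rw [div_le_one hn0]; exact_mod_cast hj
        have h2 : (j : ℝ) / n * ‖x‖ ≤ 1 * ‖x‖ := mul_le_mul_of_nonneg_right h1 (norm_nonneg _)
        linarith
      have hd : dist ((((k + 1 : ℕ) : ℝ) / n) • x) (((k : ℝ) / n) • x) < δ := by
        rw [dist_eq_norm, ← sub_smul, norm_smul]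
        have e : (((k + 1 : ℕ) : ℝ) / n - (k : ℝ) / n) = 1 / n := by
          push_cast; ring
        rw [e, Real.norm_of_nonneg (by positivity)]
        have h1 : 1 / (n : ℝ) * ‖x‖ ≤ 1 / n * (r / 2) :=
          mul_le_mul_of_nonneg_left hx (by positivity)
        have h2 : 1 / (n : ℝ) * (r / 2) < δ := by
          rw [div_lt_iff₀ hδ] at hn
          rw [one_div, inv_mul_lt_iff₀ hn0]
          linarith
        linarith
      have := h _ (hb (k + 1) hk) _ (hb k (by omega)) hd
      rw [dist_eq_norm] at this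
      have h3 := norm_le_norm_add_norm_sub' (D ((((k + 1 : ℕ) : ℝ) / n) • x)) (D (((k : ℝ) / n) • x))
      push_cast at h3 this ⊢
      linarith
  have := hstep n le_rfl
  rwa [div_self hn0.ne', one_smul] at this

end

/-- UST -/
theorem UST : UST_stm.{u} := by
  intro X _ _ Φ c r hc hr hconv hcont heven h0 hdiff hunif hbig
  set a0 : ℝ := c ^ 2 / 2 with ha0
  have ha0p : 0 < a0 := by positivity
  -- the sublevel set
  set V : Set X := {x | Φ x ≤ a0} with hV
  have hVc : Convex ℝ V := by
    have := hconv.convex_le a0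
    simpa [hV] using this
  have hVclosed : IsClosed V := isClosed_le hcont continuous_const
  have hV0 : V ∈ 𝓝 (0 : X) := by
    have : {x | Φ x < a0} ∈ 𝓝 (0 : X) :=
      (isOpen_lt hcont continuous_const).mem_nhds (by simpa [h0] using ha0p)
    exact mem_of_superset this fun x hx => show Φ x ≤ a0 from le_of_lt (show Φ x < a0 from hx)
  have h0V : (0 : X) ∈ V := mem_of_mem_nhds hV0
  have hVabs : Absorbent ℝ V := absorbent_nhds_zero hV0
  have hVneg : ∀ x ∈ V, -x ∈ V := fun x hx => by
    show Φ (-x) ≤ a0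
    rw [heven]; exact hx
  have hVbal : Balanced ℝ V := by
    rw [balanced_iff_smul_mem]
    intro a ha x hx
    have ha' : |a| ≤ 1 := by simpa using ha
    rcases le_total 0 a with h | h
    · rw [abs_of_nonneg h] at ha'
      exact hVc.smul_mem_of_zero_mem h0V hx ⟨h, ha'⟩
    · rw [abs_of_nonpos h] at ha'
      have := hVc.smul_mem_of_zero_mem h0V (hVneg x hx) ⟨by linarith, ha'⟩
      simpa using this
  obtain ⟨ρ, hρ, hρV⟩ := Metric.mem_nhds_iff.1 hV0
  have hVsub : V ⊆ Metric.ball (0 : X) (r / 2) := by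
    intro x hx
    rw [mem_ball_zero_iff]
    by_contra hcon
    push Not at hcon
    have h1 := hbig x hcon
    have h2 : Φ x ≤ a0 := hx
    nlinarith
  set M : Seminorm ℝ X := gaugeSeminorm hVbal hVc hVabs with hM
  have hMg : ∀ x, M x = gauge V x := fun x => rfl
  have hup : ∀ x, M x ≤ 1 / ρ * ‖x‖ := by
    intro x
    have h1 := gauge_mono (absorbent_ball_zero (𝕜 := ℝ) (E := X) hρ) hρV x
    rw [gauge_ball hρ.le] at h1
    rw [hMg]
    calc gauge V x ≤ ‖x‖ / ρ := h1
      _ = 1 / ρ * ‖x‖ := by ring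
  have hlow : ∀ x, ‖x‖ ≤ r / 2 * M x := by
    intro x
    have h1 := gauge_mono hVabs hVsub x
    rw [gauge_ball (by positivity)] at h1
    rw [hMg]
    have h2 : 0 < r / 2 := by positivity
    rw [div_le_iff₀ h2] at h1
    linarith
  have hM1 : ∀ x, Φ x ≤ a0 → M x ≤ 1 := fun x hx => by
    rw [hMg]; exact gauge_le_one_of_mem hx
  have hM1' : ∀ x, M x = 1 → Φ x = a0 := by
    intro x hx
    have h1 : x ∈ closure V := (gauge_le_one_iff_mem_closure hVc hV0).1 (by rw [← hMg, hx])
    rw [hVclosed.closure_eq] at h1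
    have h1' : Φ x ≤ a0 := h1
    by_contra hne
    have h2 : Φ x < a0 := lt_of_le_of_ne h1' hne
    have h3 : x ∈ interior V := by
      rw [mem_interior]
      exact ⟨{x | Φ x < a0}, fun y hy => show Φ y ≤ a0 from le_of_lt (show Φ y < a0 from hy),
        isOpen_lt hcont continuous_const, h2⟩
    have h4 := interior_subset_gauge_lt_one V h3
    have h5 : gauge V x < 1 := h4
    rw [← hMg, hx] at h5
    exact lt_irrefl _ h5
  refine ⟨M, ⟨⟨1 / ρ, by positivity, hup⟩, ⟨2 / r, by positivity, ?_⟩⟩, ?_⟩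
  · intro x
    have := hlow x
    rw [div_mul_eq_mul_div, div_le_iff₀ hr]
    linarith
  -- uniform smoothness
  intro η hη
  obtain ⟨B, hB, hBd⟩ := ust_bdd (fderiv ℝ Φ) r hr hunif
  set L : ℝ := B * (r / 2) / a0 with hL
  have hL0 : 0 < L := by positivity
  set C1 : ℝ := r * (1 + L + η / 2) with hC1
  have hC10 : 0 < C1 := by positivity
  set η' : ℝ := η * a0 / (3 * C1) with hη'
  have hη'0 : 0 < η' := by positivity
  have hu := hunif
  rw [Metric.uniformContinuousOn_iff] at hu
  obtain ⟨δ, hδ, hδu⟩ := hu η' hη'0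
  set τ : ℝ := min (1 / (2 * (L + η / 2))) (min (δ / (2 * C1)) (r / (4 * C1))) with hτ
  have hτ0 : 0 < τ := by
    rw [hτ]; positivity
  -- one-sided estimate
  have key : ∀ x y : X, M x = 1 → M y ≤ τ →
      ∃ lam : ℝ, M (x + y) ≤ 1 + lam + η / 2 * M y ∧ M (x - y) ≤ 1 - lam + η / 2 * M y := by
    intro x y hx hy
    have hxn : ‖x‖ ≤ r / 2 := by
      have := hlow x; rw [hx, mul_one] at this; exact this
    have hxb : x ∈ Metric.ball (0 : X) r := by
      rw [mem_ball_zero_iff]; linarith
    have hΦx := hM1' x hx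
    set Dx := fderiv ℝ Φ x with hDx
    have hDxx : a0 ≤ Dx x := by
      have := ust_tangent hconv (hdiff x hxb) 0
      rw [h0, hΦx, zero_sub, map_neg] at this
      linarith
    have hDxx0 : 0 < Dx x := lt_of_lt_of_le ha0p hDxx
    have hMy0 : 0 ≤ M y := apply_nonneg M y
    have hyn : ‖y‖ ≤ r / 2 * M y := hlow y
    set lam : ℝ := Dx y / Dx x with hlam
    have hlamD : lam * Dx x = Dx y := by rw [hlam]; field_simp
    have hlamb : |lam| ≤ L * M y := by
      rw [hlam, abs_div, abs_of_pos hDxx0, div_le_iff₀ hDxx0]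
      have h1 : |Dx y| ≤ B * ‖y‖ := by
        have := Dx.le_opNorm y
        rw [Real.norm_eq_abs] at this
        exact this.trans (mul_le_mul_of_nonneg_right (hBd x hxn) (norm_nonneg _))
      have h2 : B * ‖y‖ ≤ B * (r / 2 * M y) := mul_le_mul_of_nonneg_left hyn hB.le
      have h3 : L * M y * a0 = B * (r / 2 * M y) := by
        rw [hL]; field_simp
      have h4 : L * M y * a0 ≤ L * M y * Dx x :=
        mul_le_mul_of_nonneg_left hDxx (by positivity)
      linarith
    -- the common step
    have step : ∀ (v : X) (l : ℝ), M v = M y → l * Dx x = Dx v → |l| ≤ L * M y →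
        ‖v‖ ≤ r / 2 * M y → M (x + v) ≤ 1 + l + η / 2 * M y := by
      intro v l hMv hlD hlb hvn
      set t : ℝ := 1 + l + η / 2 * M y with ht
      have hs : (L + η / 2) * M y ≤ 1 / 2 := by
        have h1 : M y ≤ 1 / (2 * (L + η / 2)) := hy.trans (min_le_left _ _)
        have h2 : (L + η / 2) * M y ≤ (L + η / 2) * (1 / (2 * (L + η / 2))) :=
          mul_le_mul_of_nonneg_left h1 (by positivity)
        have h3 : (L + η / 2) * (1 / (2 * (L + η / 2))) = 1 / 2 := by field_simp
        linarith
      have hl1 := (abs_le.1 hlb).1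
      have hl2 := (abs_le.1 hlb).2
      have hηMy : 0 ≤ η / 2 * M y := by positivity
      have ht1 : 1 / 2 ≤ t := by rw [ht]; nlinarith
      have ht2 : t ≤ 3 / 2 := by rw [ht]; nlinarith
      have ht0 : 0 < t := by linarith
      set z : X := t⁻¹ • (v - (l + η / 2 * M y) • x) with hz
      have hxz : x + z = t⁻¹ • (x + v) := by
        have : x = t⁻¹ • (t • x) := by rw [smul_smul, inv_mul_cancel₀ ht0.ne', one_smul]
        conv_lhs => rw [this]
        rw [hz, ← smul_add]
        congr 1
        rw [ht]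
        module
      have hzn : ‖z‖ ≤ C1 * M y := by
        rw [hz, norm_smul, Real.norm_of_nonneg (by positivity)]
        have h1 : ‖v - (l + η / 2 * M y) • x‖ ≤ (r / 2) * (1 + L + η / 2) * M y := by
          calc ‖v - (l + η / 2 * M y) • x‖ ≤ ‖v‖ + ‖(l + η / 2 * M y) • x‖ := norm_sub_le _ _
            _ = ‖v‖ + |l + η / 2 * M y| * ‖x‖ := by rw [norm_smul, Real.norm_eq_abs]
            _ ≤ r / 2 * M y + ((L + η / 2) * M y) * (r / 2) := by
                apply add_le_add hvn
                apply mul_le_mul _ hxn (norm_nonneg _) (by positivity)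
                rw [abs_le]
                constructor <;> nlinarith
            _ = (r / 2) * (1 + L + η / 2) * M y := by ring
        have h2 : t⁻¹ ≤ 2 := by
          rw [inv_le_comm₀ ht0 (by norm_num)]
          linarith
        calc t⁻¹ * ‖v - (l + η / 2 * M y) • x‖ ≤ 2 * ((r / 2) * (1 + L + η / 2) * M y) :=
              mul_le_mul h2 h1 (norm_nonneg _) (by norm_num)
          _ = C1 * M y := by rw [hC1]; ring
      have hzδ : ‖z‖ < δ := by
        have h1 : M y ≤ δ / (2 * C1) := hy.trans ((min_le_right _ _).trans (min_le_left _ _))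
        have h2 : C1 * M y ≤ C1 * (δ / (2 * C1)) := mul_le_mul_of_nonneg_left h1 hC10.le
        have h3 : C1 * (δ / (2 * C1)) = δ / 2 := by field_simp
        linarith
      have hzr : ‖z‖ ≤ r / 4 := by
        have h1 : M y ≤ r / (4 * C1) := hy.trans ((min_le_right _ _).trans (min_le_right _ _))
        have h2 : C1 * M y ≤ C1 * (r / (4 * C1)) := mul_le_mul_of_nonneg_left h1 hC10.le
        have h3 : C1 * (r / (4 * C1)) = r / 4 := by field_simp
        linarith
      have hxzb : x + z ∈ Metric.ball (0 : X) r := by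
        rw [mem_ball_zero_iff]
        have := norm_add_le x z
        linarith
      have htan := ust_tangent hconv (hdiff (x + z) hxzb) x
      have e1 : x - (x + z) = -z := by abel
      rw [e1, map_neg, hΦx] at htan
      have hdist : ‖fderiv ℝ Φ (x + z) - Dx‖ ≤ η' := by
        have h1 : dist (x + z) x < δ := by
          rw [dist_eq_norm, add_sub_cancel_left]; exact hzδ
        have h2 := hδu _ hxzb _ hxb h1
        rw [dist_eq_norm] at h2
        exact h2.le
      have h3 : fderiv ℝ Φ (x + z) z ≤ Dx z + η' * (C1 * M y) := by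
        have h4 : (fderiv ℝ Φ (x + z) - Dx) z ≤ η' * (C1 * M y) := by
          have h5 := (fderiv ℝ Φ (x + z) - Dx).le_opNorm z
          rw [Real.norm_eq_abs] at h5
          calc (fderiv ℝ Φ (x + z) - Dx) z ≤ |(fderiv ℝ Φ (x + z) - Dx) z| := le_abs_self _
            _ ≤ ‖fderiv ℝ Φ (x + z) - Dx‖ * ‖z‖ := h5
            _ ≤ η' * (C1 * M y) := mul_le_mul hdist hzn (norm_nonneg _) hη'0.le
        have h6 : (fderiv ℝ Φ (x + z) - Dx) z = fderiv ℝ Φ (x + z) z - Dx z := rfl
        linarith
      have hDz : Dx z = -(t⁻¹ * (η / 2 * M y * Dx x)) := by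
        rw [hz, map_smul, map_sub, map_smul, ← hlD]
        simp only [smul_eq_mul]
        ring
      have h7 : η / 3 * a0 * M y ≤ t⁻¹ * (η / 2 * M y * Dx x) := by
        have h8 : (2 / 3 : ℝ) ≤ t⁻¹ := by
          rw [le_inv_comm₀ (by norm_num) ht0]
          linarith
        have h9 : η / 2 * M y * a0 ≤ η / 2 * M y * Dx x :=
          mul_le_mul_of_nonneg_left hDxx (by positivity)
        calc η / 3 * a0 * M y = 2 / 3 * (η / 2 * M y * a0) := by ring
          _ ≤ t⁻¹ * (η / 2 * M y * Dx x) :=
              mul_le_mul h8 h9 (by positivity) (by positivity)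
      have h10 : η' * (C1 * M y) = η / 3 * a0 * M y := by
        rw [hη']; field_simp
      have hfin : Φ (x + z) ≤ a0 := by linarith
      have h11 := hM1 _ hfin
      rw [hxz, map_smul_eq_mul, Real.norm_of_nonneg (by positivity), inv_mul_le_iff₀ ht0,
        mul_one] at h11
      exact h11
    refine ⟨lam, step y lam rfl hlamD hlamb hyn, ?_⟩
    have h1 := step (-y) (-lam) (map_neg_eq_map M y) (by rw [map_neg, neg_mul, hlamD])
      (by rw [abs_neg]; exact hlamb) (by rw [norm_neg]; exact hyn)
    rw [← sub_eq_add_neg] at h1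
    linarith
  refine ⟨τ, hτ0, ?_⟩
  intro x y hx hy
  obtain ⟨lam, h1, h2⟩ := key x y hx hy
  linarith

end H857NC
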