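import Mathlib
import Pool.Agent.H857R2.NC.Fin
import Pool.Agent.H857R2.NC.NC
import Pool.Agent.H857R2.NC.TR
import Pool.Agent.H857R2.NC.TOT
import Pool.Agent.H857R2.NC.BIO
import Pool.Agent.H857R2.NC.OPT
import Pool.Agent.H857R2.NC.SIG
import Pool.Agent.H857R2.NC.PRJ
import Pool.Agent.H857R2.NC.SUB
import Pool.Agent.H857R2.NC.BP
import Pool.Agent.H857R2.NC.DER
import Pool.Agent.H857R2.NC.SUP
import Pool.Agent.H857R2.NC.LIM
import Pool.Agent.H857R2.NC.CONG
import Pool.Agent.H857R2.NC.TAIL
import Pool.Agent.H857R2.NC.UCB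
import Pool.Agent.H857R2.NC.CB
import Pool.Agent.H857R2.NC.PHI
import Pool.Agent.H857R2.NC.UST
import Pool.Agent.H857R2.NC.DUC
import Pool.Agent.H857R2.NC.MPT
import Pool.Agent.H857R2.NC.LN1
import Pool.Agent.H857R2.NC.LN2
import Pool.Agent.H857R2.NC.CD1
import Pool.Agent.H857R2.NC.QUO
import Pool.Agent.H857R2.NC.RSB
import Pool.Agent.H857R2.NC.ATT
import Pool.Agent.H857R2.NC.QSN
import Pool.Agent.H857R2.NC.LUR
import Pool.Agent.H857R2.NC.COO
import Pool.Agent.H857R2.NC.JAM
import Pool.Agent.H857R2.NC.NOL1

set_option autoImplicit false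

namespace H857NC

universe u

theorem all : AllStm.{u} where
  nc := NC
  tr := TR
  tot := TOT
  bio := BIO
  opt := OPT
  sig := SIG
  prj := PRJ
  sub := SUB
  sup := SUP BP DER
  lim := LIM
  cb := CB CON TAIL UCB
  phi := PHI
  ust := UST
  duc := DUC
  mpt := MPT
  ln1 := LN1
  ln2 := LN2
  cd1 := CD1
  quo := QUO
  rsb := RSB
  att := ATT
  qsn := QSN
  lur := LUR

open Filter Topology Set

variable {X : Type u} [NormedAddCommGroup X] [NormedSpace ℝ X]

/-- the case of an unconditional basic sequence -/
theorem part_unc [CompleteSpace X]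
    (N : Seminorm ℝ X) (hN : IsEquivNorm N) (hs : ContDiffOn ℝ 1 N {x | x ≠ 0})
    (e : ℕ → X) (C : ℝ) (he : UncSeq e C) : NonComplete 1 X := by
  have hd := diff_of_contDiffOn (k := 1) le_rfl N hs
  by_cases hX : HasC0Seq X
  · exact nonComplete_of_proj all.nc all.tot all.bio all.opt
      (caseA all.sig all.prj all.sub all.sup all.lim N hN hd hX) 1 N hN hs
  · have h1 := NOL1 BP X N hN hd
    have h2 := JAM COO X e C he hX h1
    have hsub : Submodule.span ℝ (Set.range e) ≤
        (Submodule.span ℝ (Set.range e)).topologicalClosure := Submodule.le_topologicalClosure _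
    refine part_reflexive all N hN hs (Submodule.span ℝ (Set.range e)).topologicalClosure
      (Submodule.isClosed_topologicalClosure _) ?_ h2
    intro hfin
    -- linear independence of e
    have hli : LinearIndependent ℝ e := by
      rw [linearIndependent_iff']
      intro F t h0 i hi
      -- change of sign at i
      have e1 := he.2 F t (fun n => if n = i then 1 else -1) (fun n => by
        by_cases h : n = i <;> simp [h])
      rw [h0, norm_zero, mul_zero] at e1
      have e2 : ∑ n ∈ F, ((if n = i then (1 : ℝ) else -1) * t n) • e n = 0 :=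
        norm_le_zero_iff.1 e1
      have e3 : ∑ n ∈ F, ((if n = i then (1 : ℝ) else -1) * t n) • e n + ∑ n ∈ F, t n • e n =
          (2 * t i) • e i := by
        rw [← Finset.sum_add_distrib, Finset.sum_eq_single i]
        · rw [if_pos rfl, one_mul, ← add_smul, two_mul]
        · intro n _ hn
          rw [if_neg hn, neg_one_mul, neg_smul, neg_add_cancel]
        · intro h; exact (h hi).elim
      rw [e2, h0, add_zero] at e3
      have e4 := (smul_eq_zero.1 e3.symm).resolve_right (he.1 i)
      linarith
    have h3 : LinearIndependent ℝ (fun n => (⟨e n, hsub (Submodule.subset_span ⟨n, rfl⟩)⟩ :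
        (Submodule.span ℝ (Set.range e)).topologicalClosure)) := by
      apply LinearIndependent.of_comp
        (Submodule.span ℝ (Set.range e)).topologicalClosure.subtype
      exact hli
    have h4 := h3.lt_aleph0_of_finiteDimensional
    simp at h4

end H857NC

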