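import Mathlib
import Pool.Agent.H857R2.NC.Stm

set_option autoImplicit false

namespace H857NC

open Filter Topology Set

universe u

theorem UCB : UCB_stm.{u} := by
  intro X _ _ _ Z _ D K hK h
  have hc : IsCompact (closure K) := hK.closure.isCompact_of_isClosed isClosed_closure
  choose! r hr hu using h
  have hcov : closure K ⊆ ⋃ x : closure K, Metric.ball (x : X) (r x) := by
    intro x hx
    rw [mem_iUnion]
    exact ⟨⟨x, hx⟩, Metric.mem_ball_self (hr x hx)⟩
  obtain ⟨δ, hδ, hL⟩ := lebesgue_number_lemma_of_metric hc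
    (fun x : closure K => Metric.isOpen_ball) hcov
  refine ⟨δ, hδ, fun k hk => ?_⟩
  obtain ⟨x, hx⟩ := hL k (subset_closure hk)
  exact (hu x x.2).mono hx

end H857NC
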